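import Pool.Agent.K1H59.VX.Stm2
import Pool.Agent.H951R3.W.W1

/-!
# Normalised absolute values
-/

set_option autoImplicit false

namespace Pool.Agent.K1H59.VX

open Finset

/-- `v` is a place -/
def Pl (v : Option ℕ) : Prop := ∀ p, v = some p → p.Prime

theorem pl_of_mem {S : Finset ℕ} (hS : ∀ p ∈ S, p.Prime) {v : Option ℕ} (hv : v ∈ insertNone S) :
    Pl v := by
  intro p hp
  subst hp
  exact hS p (Finset.some_mem_insertNone.mp hv)

theorem nval_nonneg (v : Option ℕ) {B : ℝ} (hB : 0 ≤ B) (k : ℕ) (a : ℤ) : 0 ≤ nval v B k a := by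
  unfold nval
  cases v with
  | none => positivity
  | some p =>
    simp only
    exact_mod_cast padicNorm.nonneg (a : ℚ)

theorem nval_zero (v : Option ℕ) (B : ℝ) (k : ℕ) : nval v B k 0 = 0 := by
  unfold nval
  cases v with
  | none => simp
  | some p => simp

theorem nval_mul {v : Option ℕ} (hv : Pl v) (B : ℝ) (k l : ℕ) (a b : ℤ) :
    nval v B (k + l) (a * b) = nval v B k a * nval v B l b := by
  unfold nval
  cases v with
  | none =>
    simp only
    rw [Int.cast_mul, abs_mul, pow_add, mul_div_mul_comm]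
  | some p =>
    have : Fact p.Prime := ⟨hv p rfl⟩
    simp only
    rw [Int.cast_mul, padicNorm.mul]
    push_cast
    rfl

theorem nval_neg {v : Option ℕ} (B : ℝ) (k : ℕ) (a : ℤ) : nval v B k (-a) = nval v B k a := by
  unfold nval
  cases v with
  | none => simp
  | some p =>
    simp only
    rw [Int.cast_neg, padicNorm.neg]

theorem nval_add_le {v : Option ℕ} (hv : Pl v) {B : ℝ} (hB : 0 ≤ B) (k : ℕ) (a b : ℤ) :
    nval v B k (a + b) ≤ nval v B k a + nval v B k b := by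
  unfold nval
  cases v with
  | none =>
    simp only
    rw [← add_div]
    apply div_le_div_of_nonneg_right _ (by positivity)
    push_cast
    exact abs_add_le _ _
  | some p =>
    have : Fact p.Prime := ⟨hv p rfl⟩
    simp only
    have h1 := padicNorm.nonarchimedean (p := p) (q := (a : ℚ)) (r := (b : ℚ))
    have h2 := padicNorm.nonneg (p := p) (a : ℚ)
    have h3 := padicNorm.nonneg (p := p) (b : ℚ)
    have h4 : padicNorm p ((a + b : ℤ) : ℚ) ≤ padicNorm p (a : ℚ) + padicNorm p (b : ℚ) := by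
      push_cast
      exact h1.trans (max_le (by linarith) (by linarith))
    exact_mod_cast h4

theorem nval_sub_le {v : Option ℕ} (hv : Pl v) {B : ℝ} (hB : 0 ≤ B) (k : ℕ) (a b : ℤ) :
    nval v B k (a - b) ≤ nval v B k a + nval v B k b := by
  rw [sub_eq_add_neg, ← nval_neg B k b]
  exact nval_add_le hv hB k a (-b)

theorem nval_le {v : Option ℕ} (hv : Pl v) {B c : ℝ} (hB : 0 < B) (hc : 1 ≤ c) (k : ℕ) {a : ℤ}
    (ha : |(a : ℝ)| ≤ c * B ^ k) : nval v B k a ≤ c := by
  unfold nval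
  cases v with
  | none =>
    simp only
    rw [div_le_iff₀ (by positivity)]
    exact ha
  | some p =>
    have : Fact p.Prime := ⟨hv p rfl⟩
    simp only
    have : padicNorm p (a : ℚ) ≤ 1 := padicNorm.of_int a
    have h2 : (padicNorm p (a : ℚ) : ℝ) ≤ 1 := by exact_mod_cast this
    exact h2.trans hc

/-- the product formula -/
theorem prod_nval {S : Finset ℕ} (hS : ∀ p ∈ S, p.Prime) {B : ℝ} (hB : 0 < B) (k : ℕ) {a : ℤ}
    (ha : a ≠ 0) : 1 ≤ B ^ k * ∏ v ∈ insertNone S, nval v B k a := by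
  rw [Finset.prod_insertNone]
  unfold nval
  simp only
  have h := Pool.Agent.H951R3.W.prod_padic_int S hS a ha
  have e : B ^ k * (|(a : ℝ)| / B ^ k * ∏ p ∈ S, (padicNorm p (a : ℚ) : ℝ)) =
      |(a : ℝ)| * ∏ p ∈ S, (padicNorm p (a : ℚ) : ℝ) := by
    have : B ^ k ≠ 0 := by positivity
    field_simp
  rw [e]
  exact h

/-- coarse classes at a place -/
theorem classes {v : Option ℕ} (hv : Pl v) : ∃ C : ℝ, 1 ≤ C ∧ ∀ (B h : ℝ), 1 ≤ B → 0 < h → h ≤ 1 →
    ∃ (f : ℤ → ℤ) (T : Finset ℤ), (∀ a : ℤ, |(a : ℝ)| ≤ B → f a ∈ T) ∧ (T.card : ℝ) ≤ C / h ∧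
      ∀ a b : ℤ, f a = f b → nval v B 1 (b - a) ≤ h := by
  cases v with
  | none =>
    refine ⟨5, by norm_num, fun B h hB hh hh1 => ?_⟩
    have hB0 : 0 < B := by linarith
    refine ⟨fun a => ⌊(a : ℝ) / (h * B)⌋, Finset.Icc (-⌈1 / h⌉) ⌈1 / h⌉, ?_, ?_, ?_⟩
    · intro a ha
      rw [Finset.mem_Icc]
      have h1 := abs_le.mp ha
      constructor
      · rw [Int.le_floor]
        push_cast
        have h2 : -(1 / h) ≤ (a : ℝ) / (h * B) := by
          rw [le_div_iff₀ (by positivity)]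
          have : -(1 / h) * (h * B) = -B := by field_simp
          rw [this]; exact h1.1
        have h3 : (1 / h : ℝ) ≤ ⌈1 / h⌉ := Int.le_ceil _
        linarith
      · have h2 : (a : ℝ) / (h * B) ≤ 1 / h := by
          rw [div_le_iff₀ (by positivity)]
          have : (1 / h) * (h * B) = B := by field_simp
          rw [this]; exact h1.2
        have h3 : (1 / h : ℝ) ≤ ⌈1 / h⌉ := Int.le_ceil _
        have h4 : (⌊(a : ℝ) / (h * B)⌋ : ℝ) ≤ ⌈1 / h⌉ := (Int.floor_le _).trans (h2.trans h3)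
        exact_mod_cast h4
    · rw [Int.card_Icc]
      have h1 : (⌈1 / h⌉ : ℝ) < 1 / h + 1 := Int.ceil_lt_add_one _
      have h2 : (0 : ℤ) ≤ ⌈1 / h⌉ := Int.ceil_nonneg (by positivity)
      have h3 : ((⌈1 / h⌉ + 1 - -⌈1 / h⌉).toNat : ℝ) = 2 * (⌈1 / h⌉ : ℝ) + 1 := by
        have h4 : ((⌈1 / h⌉ + 1 - -⌈1 / h⌉).toNat : ℤ) = ⌈1 / h⌉ + 1 - -⌈1 / h⌉ :=
          Int.toNat_of_nonneg (by omega)
        have h5 : (((⌈1 / h⌉ + 1 - -⌈1 / h⌉).toNat : ℤ) : ℝ) = 2 * (⌈1 / h⌉ : ℝ) + 1 := by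
          rw [h4]; push_cast; ring
        exact_mod_cast h5
      rw [h3]
      have h4 : 1 ≤ 1 / h := by rw [le_div_iff₀ hh]; linarith
      have h5 : 5 / h = 5 * (1 / h) := by ring
      rw [h5]
      linarith
    · intro a b hab
      unfold nval
      simp only [pow_one]
      rw [div_le_iff₀ hB0]
      have h1 : |(a : ℝ) / (h * B) - (b : ℝ) / (h * B)| < 1 := Int.abs_sub_lt_one_of_floor_eq_floor hab
      rw [← sub_div, abs_div, abs_of_pos (by positivity : 0 < h * B), div_lt_one (by positivity)]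
        at h1
      rw [abs_sub_comm] at h1
      push_cast
      exact h1.le
  | some p =>
    have hp : p.Prime := hv p rfl
    have : Fact p.Prime := ⟨hp⟩
    have hp1 : (1 : ℝ) < p := by exact_mod_cast hp.one_lt
    have hp0 : (0 : ℝ) < p := by linarith
    refine ⟨p, hp1.le, fun B h hB hh hh1 => ?_⟩
    -- the exponent
    obtain ⟨k, hk1, hk2⟩ : ∃ k : ℕ, ((p : ℝ) ^ k)⁻¹ ≤ h ∧ (p : ℝ) ^ k ≤ p / h := by
      obtain ⟨k, hk1, hk2⟩ := exists_nat_pow_near (x := 1 / h) (y := (p : ℝ))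
        (by rw [le_div_iff₀ hh]; linarith) hp1
      refine ⟨k + 1, ?_, ?_⟩
      · rw [inv_le_comm₀ (by positivity) hh]
        rw [← one_div]
        exact hk2.le
      · rw [pow_succ, mul_comm]
        have e : (p : ℝ) / h = p * (1 / h) := by ring
        rw [e]
        exact mul_le_mul_of_nonneg_left hk1 hp0.le
    refine ⟨fun a => a % ((p : ℤ) ^ k), Finset.Ico 0 ((p : ℤ) ^ k), ?_, ?_, ?_⟩
    · intro a _
      rw [Finset.mem_Ico]
      have : (0 : ℤ) < (p : ℤ) ^ k := by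
        have : (0 : ℤ) < p := by exact_mod_cast hp.pos
        positivity
      exact ⟨Int.emod_nonneg _ this.ne', Int.emod_lt_of_pos _ this⟩
    · rw [Int.card_Ico, sub_zero]
      have : (((p : ℤ) ^ k).toNat : ℝ) = (p : ℝ) ^ k := by
        have h1 : ((p : ℤ) ^ k).toNat = p ^ k := by
          have : (p : ℤ) ^ k = ((p ^ k : ℕ) : ℤ) := by push_cast; rfl
          rw [this, Int.toNat_natCast]
        rw [h1]; push_cast; rfl
      rw [this]; exact hk2
    · intro a b hab
      unfold nval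
      simp only
      have h1 : ((p ^ k : ℕ) : ℤ) ∣ b - a := by
        push_cast
        exact Int.ModEq.dvd (show a ≡ b [ZMOD (p : ℤ) ^ k] from hab)
      have h2 := (padicNorm.dvd_iff_norm_le (p := p) (n := k) (z := b - a)).mp h1
      have h3 : (padicNorm p ((b - a : ℤ) : ℚ) : ℝ) ≤ ((p : ℝ) ^ k)⁻¹ := by
        have h4 : (padicNorm p ((b - a : ℤ) : ℚ) : ℝ) ≤ ((p : ℚ) ^ (-(k : ℤ)) : ℚ) := by
          exact_mod_cast h2
        refine h4.trans (le_of_eq ?_)
        rw [zpow_neg, zpow_natCast]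
        push_cast
        rfl
      exact h3.trans hk1

end Pool.Agent.K1H59.VX
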