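import Pool.Agent.K1H59.VX.Stm2

/-!
# Exceptional points of Vojta's inequality on `ℙ^N`: the pieces of the assembly
-/

set_option autoImplicit false

namespace Pool.Agent.K1H59.VX

open MvPolynomial Finset

/-- the hypotheses on the divisor: distinct prime divisors with strict normal crossings -/
structure Div {m q : ℕ} (F : Fin q → MvPolynomial (Fin (m + 2)) ℤ) (d : Fin q → ℕ) : Prop where
  hom : ∀ j, (F j).IsHomogeneous (d j)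
  irr : ∀ j, Irreducible (toQ (F j))
  ne : ∀ j k, j ≠ k → ¬ (toQ (F j) ∣ toQ (F k))
  snc : ∀ (K : Type) [Field K] [CharZero K], SNC F K

/-- (W1) good coordinates `y` (depending on `t`): the derivative with respect to `y_0` is the
derivative in the direction `(1, t, t², …)` -/
def S_FAM : Prop :=
  ∀ (m q : ℕ) (F : Fin q → MvPolynomial (Fin (m + 2)) ℤ) (d : Fin q → ℕ), 1 ≤ m → Div F d →
  ∀ t : ℕ, ∃ (H : Fin q → MvPolynomial (Fin (m + 2)) ℤ)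
    (y : (Fin (m + 2) → ℤ) → (Fin (m + 2) → ℤ)) (C : ℝ),
    1 ≤ C ∧ Function.Injective y ∧
    (∀ (B : ℝ) (x : Fin (m + 2) → ℤ), 1 ≤ B → Box B x → Box (C * B) (y x)) ∧
    (∀ j x, eval (y x) (H j) = eval x (F j)) ∧
    (∀ j x, eval (y x) (pderiv 0 (H j)) = ∑ i : Fin (m + 2), (t : ℤ) ^ (i : ℕ) * eval x (pderiv i (F j))) ∧
    (∀ j, (H j).IsHomogeneous (d j)) ∧ (∀ j, Irreducible (toQ (H j))) ∧
    (∀ j k, j ≠ k → ¬ (toQ (H j) ∣ toQ (H k))) ∧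
    (∀ j, 2 ≤ d j → pderiv 0 (H j) ≠ 0 → ¬ (toQ (H j) ∣ toQ (Q (H j) 1 1))) ∧
    (∀ j k, j ≠ k → d j = 1 → d k = 1 → eval 0 (pderiv 0 (H j)) ≠ 0 →
      eval 0 (pderiv 0 (H k)) ≠ 0 →
      eval 0 (pderiv 0 (H j)) * eval 0 (pderiv 1 (H k)) -
        eval 0 (pderiv 1 (H j)) * eval 0 (pderiv 0 (H k)) ≠ 0)

/-- (W2) at each place at most `m + 1` components are near, and there is a direction
`(1, t, t², …)`, `t ≤ T`, which is transversal to one given near component at each place -/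
def S_PLC : Prop :=
  ∀ (m q : ℕ) (F : Fin q → MvPolynomial (Fin (m + 2)) ℤ) (d : Fin q → ℕ), Div F d →
  ∀ (S : Finset ℕ), (∀ p ∈ S, p.Prime) → ∀ T : ℕ, (m + 2) * (S.card + 1) ≤ T →
  ∃ c : ℝ, 0 < c ∧ ∀ (B : ℝ) (x : Fin (m + 2) → ℤ), 1 ≤ B → Box B x →
    (∃ i, B / 2 ≤ |(x i : ℝ)|) → Finset.univ.gcd x = 1 →
    (∀ v ∈ insertNone S, ∀ J : Finset (Fin q),
      (∀ j ∈ J, nval v B (d j) (eval x (F j)) < c) → J.card ≤ m + 1) ∧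
    (∀ J : Option ℕ → Fin q, ∃ t ≤ T, ∀ v ∈ insertNone S,
      nval v B (d (J v)) (eval x (F (J v))) < c →
      c ≤ nval v B (d (J v) - 1) (∑ i : Fin (m + 2), (t : ℤ) ^ (i : ℕ) * eval x (pderiv i (F (J v)))))

/-- the number of exceptional points in a dyadic shell -/
def S_SHELL : Prop :=
  ∀ (m q : ℕ) (F : Fin q → MvPolynomial (Fin (m + 2)) ℤ) (d : Fin q → ℕ), 1 ≤ m → Div F d →
  ∀ (S : Finset ℕ), (∀ p ∈ S, p.Prime) → ∀ κ c : ℝ, (m : ℝ) + 1 < κ →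
  ∃ θ C : ℝ, 0 < θ ∧ θ ≤ 1 ∧ 0 < C ∧ ∀ (B : ℝ), 1 ≤ B → ∀ X : Finset (Fin (m + 2) → ℤ),
    (∀ x ∈ X, Finset.univ.gcd x = 1 ∧ (∀ j, eval x (F j) ≠ 0) ∧ Box B x ∧
      (∃ i, B / 2 ≤ |(x i : ℝ)|) ∧
      κ * Real.log B + c ≤
        ∑ j, ∑ v ∈ insertNone S, -Real.log (nval v B (d j) (eval x (F j)))) →
    (X.card : ℝ) ≤ C * B ^ ((m : ℝ) + 1 - θ)

/-- `max |x_i|` -/
def height {n : ℕ} (x : Fin n → ℤ) : ℕ := Finset.univ.sup (fun i => (x i).natAbs)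

/-- the proximity function `m_{S,D}(x)` -/
noncomputable def proximity {n q : ℕ} (F : Fin q → MvPolynomial (Fin n) ℤ) (d : Fin q → ℕ)
    (S : Finset ℕ) (x : Fin n → ℤ) : ℝ :=
  ∑ j, (Real.log ((height x : ℝ) ^ d j / |((eval x (F j) : ℤ) : ℝ)|) +
    ∑ p ∈ S, (padicValInt p (eval x (F j)) : ℝ) * Real.log p)

/-- (W3) the final statement -/
def S_FINAL : Prop :=
  ∀ (m q : ℕ) (F : Fin q → MvPolynomial (Fin (m + 2)) ℤ) (d : Fin q → ℕ), 1 ≤ m → Div F d →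
  ∀ (S : Finset ℕ), (∀ p ∈ S, p.Prime) → ∀ κ c : ℝ, (m : ℝ) + 1 < κ →
  ∃ θ C : ℝ, 0 < θ ∧ 0 < C ∧ ∀ B : ℝ, 1 ≤ B →
    {x : Fin (m + 2) → ℤ | Finset.univ.gcd x = 1 ∧ (height x : ℝ) ≤ B ∧
      (∀ j, eval x (F j) ≠ 0) ∧ κ * Real.log (height x) + c ≤ proximity F d S x}.Finite ∧
    ({x : Fin (m + 2) → ℤ | Finset.univ.gcd x = 1 ∧ (height x : ℝ) ≤ B ∧
      (∀ j, eval x (F j) ≠ 0) ∧ κ * Real.log (height x) + c ≤ proximity F d S x}.ncard : ℝ) ≤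
        C * B ^ ((m : ℝ) + 1 - θ)

end Pool.Agent.K1H59.VX
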