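import Pool.Agent.K1H59.VX.Core1
import Pool.Agent.K1H59.VX.Stm3
import Pool.Agent.K1H30.VX.U2

/-!
# Families of sets of integral points with a power saving
-/

set_option autoImplicit false

namespace Pool.Agent.K1H59.VX

open Finset MvPolynomial

/-- the points of height about `B` with the property `P B` number at most `C B ^ (m + 1 - θ)` -/
def Bd (m : ℕ) (P : ℝ → (Fin (m + 2) → ℤ) → Prop) : Prop :=
  ∃ θ C : ℝ, 0 < θ ∧ θ ≤ 1 ∧ 0 < C ∧ ∀ B : ℝ, 1 ≤ B → ∀ X : Finset (Fin (m + 2) → ℤ),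
    (∀ x ∈ X, P B x) → (X.card : ℝ) ≤ C * B ^ ((m : ℝ) + 1 - θ)

variable {m : ℕ}

theorem Bd.of {P : ℝ → (Fin (m + 2) → ℤ) → Prop} {θ C : ℝ} (hθ : 0 < θ) (hC : 0 < C)
    (h : ∀ B : ℝ, 1 ≤ B → ∀ X : Finset (Fin (m + 2) → ℤ),
      (∀ x ∈ X, P B x) → (X.card : ℝ) ≤ C * B ^ ((m : ℝ) + 1 - θ)) : Bd m P := by
  refine ⟨min θ 1, C, lt_min hθ one_pos, min_le_right _ _, hC, fun B hB X hX => ?_⟩
  refine (h B hB X hX).trans (mul_le_mul_of_nonneg_left ?_ hC.le)
  exact Real.rpow_le_rpow_of_exponent_le hB (by have := min_le_left θ 1; linarith)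

theorem Bd.mono {P P' : ℝ → (Fin (m + 2) → ℤ) → Prop} (h : ∀ B x, 1 ≤ B → P B x → P' B x)
    (h' : Bd m P') : Bd m P := by
  obtain ⟨θ, C, hθ, hθ1, hC, hb⟩ := h'
  exact ⟨θ, C, hθ, hθ1, hC, fun B hB X hX => hb B hB X fun x hx => h B x hB (hX x hx)⟩

theorem Bd.false {P : ℝ → (Fin (m + 2) → ℤ) → Prop} (h : ∀ B x, 1 ≤ B → ¬ P B x) : Bd m P := by
  refine ⟨1, 1, one_pos, le_rfl, one_pos, fun B hB X hX => ?_⟩
  have : X = ∅ := Finset.eq_empty_of_forall_notMem fun x hx => h B x hB (hX x hx)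
  rw [this, Finset.card_empty, Nat.cast_zero]
  have : 0 < B := by linarith
  positivity

theorem Bd.or {P P' : ℝ → (Fin (m + 2) → ℤ) → Prop} (h : Bd m P) (h' : Bd m P') :
    Bd m (fun B x => P B x ∨ P' B x) := by
  classical
  obtain ⟨θ, C, hθ, hθ1, hC, hb⟩ := h
  obtain ⟨θ', C', hθ', hθ1', hC', hb'⟩ := h'
  refine ⟨min θ θ', C + C', lt_min hθ hθ', (min_le_left _ _).trans hθ1, by positivity,
    fun B hB X hX => ?_⟩
  have h1 := hb B hB (X.filter (fun x => P B x)) fun x hx => (Finset.mem_filter.mp hx).2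
  have h2 := hb' B hB (X.filter (fun x => ¬ P B x)) fun x hx => by
    obtain ⟨h3, h4⟩ := Finset.mem_filter.mp hx
    exact (hX x h3).resolve_left h4
  have h3 := Finset.card_filter_add_card_filter_not (s := X) (fun x => P B x)
  have h4 : (X.card : ℝ) = ((X.filter (fun x => P B x)).card : ℝ) +
      ((X.filter (fun x => ¬ P B x)).card : ℝ) := by exact_mod_cast h3.symm
  have h5 : B ^ ((m : ℝ) + 1 - θ) ≤ B ^ ((m : ℝ) + 1 - min θ θ') :=
    Real.rpow_le_rpow_of_exponent_le hB (by have := min_le_left θ θ'; linarith)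
  have h6 : B ^ ((m : ℝ) + 1 - θ') ≤ B ^ ((m : ℝ) + 1 - min θ θ') :=
    Real.rpow_le_rpow_of_exponent_le hB (by have := min_le_right θ θ'; linarith)
  rw [h4, add_mul]
  exact add_le_add (h1.trans (mul_le_mul_of_nonneg_left h5 hC.le))
    (h2.trans (mul_le_mul_of_nonneg_left h6 hC'.le))

theorem Bd.biUnion {ι : Type*} (s : Finset ι) {P : ι → ℝ → (Fin (m + 2) → ℤ) → Prop}
    (h : ∀ i ∈ s, Bd m (P i)) : Bd m (fun B x => ∃ i ∈ s, P i B x) := by
  classical
  induction s using Finset.induction_on with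
  | empty => exact Bd.false fun B x _ ⟨i, hi, _⟩ => absurd hi (Finset.notMem_empty i)
  | insert a s ha ih =>
    have h1 := (h a (Finset.mem_insert_self a s)).or
      (ih fun i hi => h i (Finset.mem_insert_of_mem hi))
    refine Bd.mono (fun B x _ hx => ?_) h1
    obtain ⟨i, hi, hP⟩ := hx
    rcases Finset.mem_insert.mp hi with rfl | hi
    · exact Or.inl hP
    · exact Or.inr ⟨i, hi, hP⟩

theorem Bd.of_large {P : ℝ → (Fin (m + 2) → ℤ) → Prop} (hbox : ∀ B x, 1 ≤ B → P B x → Box B x)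
    (B1 : ℝ) (h : Bd m (fun B x => P B x ∧ B1 ≤ B)) : Bd m P := by
  obtain ⟨θ, C, hθ, hθ1, hC, hb⟩ := h
  have hm0 : (0 : ℝ) ≤ m := Nat.cast_nonneg m
  have hmax : 0 < max B1 1 := lt_of_lt_of_le one_pos (le_max_right _ _)
  refine ⟨θ, C + (3 * max B1 1) ^ (m + 2), hθ, hθ1, by positivity, fun B hB X hX => ?_⟩
  have hBp : 0 < B := by linarith
  have hpos : 0 < B ^ ((m : ℝ) + 1 - θ) := by positivity
  rcases le_total B1 B with hBB | hBB
  · refine (hb B hB X fun x hx => ⟨hX x hx, hBB⟩).trans ?_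
    apply mul_le_mul_of_nonneg_right _ hpos.le
    have : 0 ≤ (3 * max B1 1) ^ (m + 2) := by positivity
    linarith
  · have h1 := box_card hB X fun x hx => hbox B x hB (hX x hx)
    have h2 : (3 * B) ^ (m + 2) ≤ (3 * max B1 1) ^ (m + 2) := by
      apply pow_le_pow_left₀ (by linarith)
      have := le_max_left B1 1
      linarith
    have h3 : 1 ≤ B ^ ((m : ℝ) + 1 - θ) := Real.one_le_rpow hB (by linarith)
    have h4 : 0 ≤ (3 * max B1 1) ^ (m + 2) := by positivity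
    nlinarith

theorem Bd.transport {P P' : ℝ → (Fin (m + 2) → ℤ) → Prop}
    {y : (Fin (m + 2) → ℤ) → (Fin (m + 2) → ℤ)} (hy : Function.Injective y) {C1 : ℝ}
    (hC1 : 1 ≤ C1) (h : ∀ B x, 1 ≤ B → P B x → P' (C1 * B) (y x)) (h' : Bd m P') : Bd m P := by
  classical
  obtain ⟨θ, C, hθ, hθ1, hC, hb⟩ := h'
  refine ⟨θ, C * C1 ^ ((m : ℝ) + 1 - θ), hθ, hθ1, by positivity, fun B hB X hX => ?_⟩
  have hBp : 0 < B := by linarith
  have h1 := hb (C1 * B) (by nlinarith) (X.image y) fun z hz => by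
    obtain ⟨x, hx, rfl⟩ := Finset.mem_image.mp hz
    exact h B x hB (hX x hx)
  rw [Finset.card_image_of_injective _ hy, Real.mul_rpow (by linarith) hBp.le] at h1
  calc _ ≤ _ := h1
    _ = _ := by ring

/-- the model of a place: a normed field and a scaling factor -/
theorem model {v : Option ℕ} (hv : Pl v) : ∃ (K : Type) (_ : NormedField K), ∀ B : ℝ, 1 ≤ B →
    ∃ s : K, (∀ (k : ℕ) (a : ℤ), nval v B k a = ‖s ^ k * (a : K)‖) ∧
    (∀ x : Fin (m + 2) → ℤ, Box B x → ∀ i, ‖s * (x i : K)‖ ≤ 1) := by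
  cases v with
  | none =>
    refine ⟨ℝ, inferInstance, fun B hB => ⟨1 / B, ?_, ?_⟩⟩
    · intro k a
      have hB0 : 0 < B := by linarith
      unfold nval
      simp only
      have h1 : ‖(1 / B : ℝ)‖ = 1 / B := by
        rw [Real.norm_eq_abs]; exact abs_of_pos (by positivity)
      rw [norm_mul, norm_pow, h1, Real.norm_eq_abs, one_div, inv_pow]
      ring
    · intro x hx i
      have hB0 : 0 < B := by linarith
      have h1 : ‖(1 / B : ℝ)‖ = 1 / B := by
        rw [Real.norm_eq_abs]; exact abs_of_pos (by positivity)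
      rw [norm_mul, h1, Real.norm_eq_abs, one_div, inv_mul_le_iff₀ hB0, mul_one]
      exact hx i
  | some p =>
    have : Fact p.Prime := ⟨hv p rfl⟩
    refine ⟨ℚ_[p], inferInstance, fun B hB => ⟨1, ?_, ?_⟩⟩
    · intro k a
      unfold nval
      simp only
      rw [one_pow, one_mul]
      have : (a : ℚ_[p]) = ((a : ℚ) : ℚ_[p]) := by push_cast; rfl
      rw [this, Padic.eq_padicNorm]
    · intro x _ i
      rw [one_mul]
      exact Padic.norm_int_le_one _

/-- a relation `R = A H + B G` bounds `R` by `H` and `G` -/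
theorem rel_bound {v : Option ℕ} (hv : Pl v) {D h g : ℕ} {R : MvPolynomial (Fin (m + 1)) ℤ}
    {H G A' B' : MvPolynomial (Fin (m + 2)) ℤ} (hR : R.IsHomogeneous D) (hH : H.IsHomogeneous h)
    (hG : G.IsHomogeneous g) (hrel : rename Fin.succ R = A' * H + B' * G) :
    ∃ M : ℝ, 1 ≤ M ∧ ∀ B : ℝ, 1 ≤ B → ∀ x : Fin (m + 2) → ℤ, Box B x →
      nval v B D (eval (fun i : Fin (m + 1) => x i.succ) R) ≤
        M * (nval v B h (eval x H) + nval v B g (eval x G)) := by
  obtain ⟨K, hK, hmod⟩ := model (m := m) hv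
  obtain ⟨MA, hMA, hA⟩ := aeval_bound (K := K) A'
  obtain ⟨MB, hMB, hB⟩ := aeval_bound (K := K) B'
  refine ⟨MA + MB, by linarith, fun B hB1 x hx => ?_⟩
  obtain ⟨s, hs, hs'⟩ := hmod B hB1
  have hz : ‖Pool.Agent.K1H30.VX.pt s x‖ ≤ 1 := by
    rw [pi_norm_le_iff_of_nonneg zero_le_one]
    exact fun i => hs' x hx i
  have hR' : (rename Fin.succ R : MvPolynomial (Fin (m + 2)) ℤ).IsHomogeneous D :=
    hR.rename_isHomogeneous
  have e1 : eval (fun i : Fin (m + 1) => x i.succ) R = eval x (rename Fin.succ R) := by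
    rw [eval_rename]; rfl
  rw [e1, hs, hs, hs, ← Pool.Agent.K1H30.VX.aeval_pt s x hR', ← Pool.Agent.K1H30.VX.aeval_pt s x hH,
    ← Pool.Agent.K1H30.VX.aeval_pt s x hG, hrel, map_add, map_mul, map_mul]
  have h1 := hA _ hz
  have h2 := hB _ hz
  have h3 := norm_nonneg (aeval (Pool.Agent.K1H30.VX.pt s x) H)
  have h4 := norm_nonneg (aeval (Pool.Agent.K1H30.VX.pt s x) G)
  calc _ ≤ ‖aeval (Pool.Agent.K1H30.VX.pt s x) A' * aeval (Pool.Agent.K1H30.VX.pt s x) H‖ +
        ‖aeval (Pool.Agent.K1H30.VX.pt s x) B' * aeval (Pool.Agent.K1H30.VX.pt s x) G‖ :=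
        norm_add_le _ _
    _ ≤ MA * ‖aeval (Pool.Agent.K1H30.VX.pt s x) H‖ +
        MB * ‖aeval (Pool.Agent.K1H30.VX.pt s x) G‖ := by
        rw [norm_mul, norm_mul]
        exact add_le_add (mul_le_mul_of_nonneg_right h1 h3) (mul_le_mul_of_nonneg_right h2 h4)
    _ ≤ _ := by nlinarith

theorem nval_scale_le (v : Option ℕ) {B C1 : ℝ} (hB : 1 ≤ B) (hC1 : 1 ≤ C1) (k : ℕ) (a : ℤ) :
    nval v (C1 * B) k a ≤ nval v B k a := by
  unfold nval
  cases v with
  | none =>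
    simp only
    apply div_le_div_of_nonneg_left (abs_nonneg _) (by positivity)
    exact pow_le_pow_left₀ (by linarith) (by nlinarith) k
  | some p => exact le_rfl

theorem nval_scale_ge (v : Option ℕ) {B C1 : ℝ} (hB : 1 ≤ B) (hC1 : 1 ≤ C1) {k D : ℕ}
    (hk : k ≤ D) (a : ℤ) : nval v B k a ≤ C1 ^ D * nval v (C1 * B) k a := by
  have hB0 : 0 < B := by linarith
  have h1 : C1 ^ k ≤ C1 ^ D := pow_le_pow_right₀ hC1 hk
  have h0 := nval_nonneg v (by positivity : (0 : ℝ) ≤ C1 * B) k a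
  refine le_trans ?_ (mul_le_mul_of_nonneg_right h1 h0)
  unfold nval
  cases v with
  | none =>
    simp only
    rw [mul_pow]
    apply le_of_eq
    field_simp
  | some p =>
    simp only
    have h2 : (0 : ℝ) ≤ (padicNorm p (a : ℚ) : ℝ) := by exact_mod_cast padicNorm.nonneg (a : ℚ)
    have h3 : (1 : ℝ) ≤ C1 ^ k := one_le_pow₀ hC1
    nlinarith

end Pool.Agent.K1H59.VX
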