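import Pool.Agent.K1H59.VX.Core1
import Pool.Agent.K1H31.VX.U1

/-!
# The core count
-/

set_option autoImplicit false

namespace Pool.Agent.K1H59.VX

open Finset MvPolynomial

theorem ev_lt (K y : ℝ) (hy : 0 < y) {c : ℝ} (hc : 0 < c) :
    ∀ᶠ B : ℝ in Filter.atTop, K * B ^ (-y) < c := by
  have h1 := (tendsto_rpow_neg_atTop hy).const_mul K
  rw [mul_zero] at h1
  exact h1.eventually (gt_mem_nhds hc)

theorem exists_pos_le {α : Type*} (s : Finset α) (f : α → ℝ) (hf : ∀ v ∈ s, 0 < f v) :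
    ∃ e : ℝ, 0 < e ∧ ∀ v ∈ s, e ≤ f v := by
  classical
  induction s using Finset.induction_on with
  | empty => exact ⟨1, one_pos, by simp⟩
  | insert a s _ ih =>
    obtain ⟨e, he, h⟩ := ih fun v hv => hf v (Finset.mem_insert_of_mem hv)
    refine ⟨min e (f a), lt_min he (hf a (Finset.mem_insert_self _ _)), fun v hv => ?_⟩
    rcases Finset.mem_insert.mp hv with rfl | hv
    · exact min_le_right _ _
    · exact (min_le_left _ _).trans (h v hv)

theorem Close.mono {m : ℕ} {v : Option ℕ} {B : ℝ} {F : MvPolynomial (Fin (m + 2)) ℤ} {d : ℕ}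
    {c ε ε' : ℝ} {x : Fin (m + 2) → ℤ} (h : Close v B F d c ε x) (hε : ε ≤ ε') :
    Close v B F d c ε' x := ⟨h.1.trans hε, h.2⟩

theorem det_box {m : ℕ} {v : Option ℕ} (hv : Pl v) {B : ℝ} (hB : 1 ≤ B)
    {x y z : Fin (m + 2) → ℤ} (hx : Box B x) (hy : Box B y) (hz : Box B z) :
    nval v B 2 (det3 x y z) ≤ 8 := by
  have hB0 : 0 < B := by linarith
  apply nval_le hv hB0 (by norm_num)
  unfold det3
  push_cast
  have h1 : ∀ (w : Fin (m + 2) → ℤ) (i : Fin (m + 2)), Box B w → |(w i : ℝ) - x i| ≤ 2 * B := by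
    intro w i hw
    calc |(w i : ℝ) - x i| ≤ |(w i : ℝ)| + |(x i : ℝ)| := abs_sub _ _
      _ ≤ 2 * B := by have := hw i; have := hx i; linarith
  calc |((y 0 : ℝ) - x 0) * ((z 1 : ℝ) - x 1) - ((y 1 : ℝ) - x 1) * ((z 0 : ℝ) - x 0)|
      ≤ |((y 0 : ℝ) - x 0) * ((z 1 : ℝ) - x 1)| + |((y 1 : ℝ) - x 1) * ((z 0 : ℝ) - x 0)| :=
        abs_sub _ _
    _ ≤ (2 * B) * (2 * B) + (2 * B) * (2 * B) := by
        rw [abs_mul, abs_mul]
        exact add_le_add (mul_le_mul (h1 y 0 hy) (h1 z 1 hz) (abs_nonneg _) (by positivity))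
          (mul_le_mul (h1 y 1 hy) (h1 z 0 hz) (abs_nonneg _) (by positivity))
    _ = 8 * B ^ 2 := by ring

set_option maxHeartbeats 4000000 in
theorem core (hG : Pool.Agent.K1H31.VX.S_GCL0) (hL : S_LOC) (m : ℕ) (S : Finset ℕ) (hS : ∀ p ∈ S, p.Prime)
    (Vc Vh : Finset (Option ℕ)) (hVc : Vc ⊆ insertNone S) (hVh : Vh ⊆ insertNone S)
    (hdisj : Disjoint Vc Vh)
    (F : Option ℕ → MvPolynomial (Fin (m + 2)) ℤ) (d : Option ℕ → ℕ) (α : Option ℕ → ℝ)
    (hF : ∀ v ∈ Vc ∪ Vh, (F v).IsHomogeneous (d v)) (hd1 : ∀ v ∈ Vh, d v = 1)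
    (hα : ∀ v ∈ Vc ∪ Vh, 0 < α v) (hsum : 2 < ∑ v ∈ Vc ∪ Vh, α v)
    (hM : Vc.Nonempty ∨ ∃ v0 ∈ Vh, ∃ v1 ∈ Vh,
      eval 0 (pderiv 0 (F v0)) * eval 0 (pderiv 1 (F v1)) -
        eval 0 (pderiv 1 (F v0)) * eval 0 (pderiv 0 (F v1)) ≠ 0)
    (A c : ℝ) (hA : 0 < A) (hc : 0 < c) :
    ∃ η θ C : ℝ, 0 < η ∧ 0 < θ ∧ 0 < C ∧ ∀ B : ℝ, 1 ≤ B → ∀ X : Finset (Fin (m + 2) → ℤ),
      (∀ x ∈ X, Box B x ∧ (∀ v ∈ Vc ∪ Vh, Close v B (F v) (d v) c (A * B ^ (-(α v))) x) ∧
        ∀ v ∈ Vc, B ^ (-η) ≤ nval v B (2 * (d v - 1) + (d v - 2)) (eval x (Q (F v) 1 1))) →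
      (X.card : ℝ) ≤ C * B ^ ((m : ℝ) + 1 - θ) := by
  classical
  set V := Vc ∪ Vh with hV
  have hVS : V ⊆ insertNone S := Finset.union_subset hVc hVh
  have hcV : ∀ v ∈ Vc, v ∈ V := fun v hv => Finset.mem_union_left _ hv
  have hhV : ∀ v ∈ Vh, v ∈ V := fun v hv => Finset.mem_union_right _ hv
  set a : ℝ := ∑ v ∈ V, α v with ha
  set ω : ℝ := min (1 / 4) (a - 2) with hω
  have hω0 : 0 < ω := lt_min (by norm_num) (by linarith)
  have hω1 : ω ≤ 1 / 4 := min_le_left _ _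
  have hω2 : 2 + ω ≤ a := by
    have : ω ≤ a - 2 := min_le_right _ _
    linarith
  have ha0 : 0 < a := by linarith
  set σ : ℝ := (2 + ω) / a with hσ
  have hσ0 : 0 < σ := by positivity
  have hσ1 : σ ≤ 1 := by rw [hσ, div_le_one ha0]; exact hω2
  set β : Option ℕ → ℝ := fun v => σ * α v with hβ
  have hβ0 : ∀ v ∈ V, 0 < β v := fun v hv => mul_pos hσ0 (hα v hv)
  have hβα : ∀ v ∈ V, β v ≤ α v := fun v hv => by
    have := hα v hv
    show σ * α v ≤ α v
    nlinarith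
  have hβsum : ∑ v ∈ V, β v = 2 + ω := by
    simp only [hβ]
    rw [← Finset.mul_sum, ← ha, hσ, div_mul_cancel₀ _ ha0.ne']
  set lam : Option ℕ → ℝ := fun v => 5 / 12 * β v with hlam
  have hlam0 : ∀ v ∈ Vc, 0 < lam v := fun v hv => by
    have := hβ0 v (hcV v hv)
    show 0 < 5 / 12 * β v
    positivity
  set A' : ℝ := max A 1 with hA'
  have hA'1 : 1 ≤ A' := le_max_right _ _
  have hA'0 : 0 < A' := by linarith
  -- the local lemmas
  have hL' : ∀ v, v ∈ Vc → _ := fun v hv => hL m (F v) (d v) v (hF v (hcV v hv))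
    (pl_of_mem hS (hVc hv)) c hc
  choose! Cf c4f hCf using hL'
  set G : Option ℕ → ℝ := fun v => Cf v * (1 + A') with hGd
  set K3 : Option ℕ → ℝ := fun v => Cf v * (A' + G v ^ 2) * G v with hK3
  obtain ⟨η, hη0, hη⟩ := exists_pos_le Vc (fun v => lam v / 6) (fun v hv => by
    have := hlam0 v hv
    show 0 < lam v / 6
    linarith)
  set κ : Option ℕ → ℝ := fun v => if v ∈ Vc then K3 v else if v ∈ Vh then 8 / c * A' else 8
    with hκ
  set e : Option ℕ → ℝ := fun v => if v ∈ Vc then 3 * lam v else if v ∈ Vh then β v else 0 with he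
  have hG1 : ∀ v ∈ Vc, 1 ≤ G v := by
    intro v hv
    have := (hCf v hv).1
    show 1 ≤ Cf v * (1 + A')
    nlinarith
  have hκ0 : ∀ v, 0 ≤ κ v := by
    intro v
    simp only [hκ]
    split_ifs with h1 h2
    · have h3 := (hCf v h1).1
      have h4 := hG1 v h1
      show 0 ≤ Cf v * (A' + G v ^ 2) * G v
      positivity
    · positivity
    · norm_num
  have hesum : 2 + ω ≤ ∑ v ∈ insertNone S, e v := by
    have h1 : ∀ v, v ∈ V → β v ≤ e v := by
      intro v hv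
      have hb := hβ0 v hv
      simp only [he]
      split_ifs with h2 h3
      · show β v ≤ 3 * (5 / 12 * β v)
        linarith
      · exact le_rfl
      · exact absurd hv (by rw [hV, Finset.mem_union]; tauto)
    calc 2 + ω = ∑ v ∈ V, β v := hβsum.symm
      _ ≤ ∑ v ∈ V, e v := Finset.sum_le_sum h1
      _ ≤ ∑ v ∈ insertNone S, e v := by
          apply Finset.sum_le_sum_of_subset_of_nonneg hVS
          intro v _ hv
          simp only [he]
          rw [if_neg (fun h => hv (hcV v h)), if_neg (fun h => hv (hhV v h))]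
  -- the number of points of the classes
  set Ag : ℕ := ∑ v ∈ insertNone S, ((eval 0 (pderiv 0 (F v))).natAbs +
    (eval 0 (pderiv 1 (F v))).natAbs) with hAg
  obtain ⟨Cg, hCg1, hCg⟩ := hG S hS Vc hVc Ag
  obtain ⟨Kc, hKc1, hKc⟩ := class_total m Vc (fun v hv => pl_of_mem hS (hVc hv))
  -- large `B`
  have hev : ∀ᶠ B : ℝ in Filter.atTop, 1 ≤ B ∧ (∏ v ∈ insertNone S, κ v) * B ^ (-ω) < 1 ∧
      ∀ v ∈ Vc, Cf v * G v * B ^ (-(lam v - η)) < 1 := by
    refine (Filter.eventually_ge_atTop 1).and ((ev_lt _ _ hω0 one_pos).and ?_)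
    rw [Filter.eventually_all_finset]
    intro v hv
    apply ev_lt _ _ _ one_pos
    have h1 := hη v hv
    have h2 := hlam0 v hv
    linarith
  obtain ⟨B0, hB0⟩ := Filter.eventually_atTop.mp hev
  -- one class
  have hclass : ∀ B : ℝ, B0 ≤ B → ∀ Y : Finset (Fin (m + 2) → ℤ),
      (∀ x ∈ Y, Box B x ∧ (∀ v ∈ V, Close v B (F v) (d v) c (A' * B ^ (-(β v))) x) ∧
        ∀ v ∈ Vc, B ^ (-η) ≤ nval v B (2 * (d v - 1) + (d v - 2)) (eval x (Q (F v) 1 1))) →
      (∀ x ∈ Y, ∀ y ∈ Y, Agree x y ∧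
        ∀ v ∈ Vc, Near v B (c4f v) x y ∧ nval v B 1 (y 1 - x 1) ≤ B ^ (-(lam v))) →
      (∀ x ∈ Y, ∀ y ∈ Y, ∀ z ∈ Y, det3 x y z = 0) ∧
      (Y.image (fun x => (x 0, x 1))).card = Y.card ∧
      (∀ v ∈ Vc, ∀ x ∈ Y, ∀ y ∈ Y, ∀ z ∈ Y,
        Near v B (Real.sqrt (Cf v * A') * B ^ (-((β v - η) / 2))) x y ∨
        Near v B (Real.sqrt (Cf v * A') * B ^ (-((β v - η) / 2))) x z ∨
        Near v B (Real.sqrt (Cf v * A') * B ^ (-((β v - η) / 2))) y z) := by
    intro B hBB Y hY hYY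
    obtain ⟨hB1, hBκ, hBρ⟩ := hB0 B hBB
    have hBp : 0 < B := by linarith
    -- distances
    have hρ1 : ∀ v ∈ Vc, Cf v * (G v * B ^ (-(lam v))) ≤ B ^ (-η) := by
      intro v hv
      have h1 := (hBρ v hv).le
      have h2 : Cf v * (G v * B ^ (-(lam v))) = Cf v * G v * B ^ (-(lam v - η)) * B ^ (-η) := by
        have e0 : B ^ (-(lam v)) = B ^ (-(lam v - η)) * B ^ (-η) := by
          rw [← Real.rpow_add hBp]; congr 1; ring
        rw [e0]; ring
      rw [h2]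
      have h3 : 0 < B ^ (-η) := by positivity
      nlinarith
    have hγ1 : B ^ (-η) ≤ 1 := Real.rpow_le_one_of_one_le_of_nonpos hB1 (by linarith)
    have hρ2 : ∀ v ∈ Vc, G v * B ^ (-(lam v)) ≤ 1 := by
      intro v hv
      have h1 := (hCf v hv).1
      have h2 := hG1 v hv
      have h3 : 0 < G v * B ^ (-(lam v)) := by positivity
      have h4 := hρ1 v hv
      nlinarith
    have hεlam : ∀ v ∈ Vc, B ^ (-(β v)) ≤ (B ^ (-(lam v))) ^ 2 := by
      intro v hv
      rw [← Real.rpow_natCast, ← Real.rpow_mul hBp.le]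
      apply Real.rpow_le_rpow_of_exponent_le hB1
      have := hβ0 v (hcV v hv)
      push_cast
      show -(β v) ≤ -(5 / 12 * β v) * 2
      linarith
    have hρle : ∀ v ∈ Vc, B ^ (-(lam v)) ≤ 1 := fun v hv =>
      Real.rpow_le_one_of_one_le_of_nonpos hB1 (by have := hlam0 v hv; linarith)
    have hnear : ∀ v ∈ Vc, ∀ x ∈ Y, ∀ y ∈ Y, Near v B (G v * B ^ (-(lam v))) x y := by
      intro v hv x hx y hy
      obtain ⟨hxb, hxc, _⟩ := hY x hx
      obtain ⟨hyb, hyc, _⟩ := hY y hy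
      obtain ⟨hag, hn⟩ := hYY x hx y hy
      obtain ⟨h1, h2, h3, hall⟩ := hCf v hv
      have h4 := (hall B hB1).1 x y _ hxb hyb hag (hxc v (hcV v hv)) (hyc v (hcV v hv)) (hn v hv).1
      have h5 := (hn v hv).2
      have hρ0 : 0 < B ^ (-(lam v)) := by positivity
      constructor
      · refine h4.trans ?_
        show Cf v * (nval v B 1 (y 1 - x 1) + A' * B ^ (-(β v))) ≤
          Cf v * (1 + A') * B ^ (-(lam v))
        rw [mul_assoc]
        apply mul_le_mul_of_nonneg_left _ (by linarith)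
        have h6 : A' * B ^ (-(β v)) ≤ A' * B ^ (-(lam v)) := by
          apply mul_le_mul_of_nonneg_left _ hA'0.le
          have := hεlam v hv
          have := hρle v hv
          nlinarith
        linarith
      · have := hG1 v hv
        nlinarith
    -- determinants
    have hdet : ∀ v ∈ insertNone S, ∀ x ∈ Y, ∀ y ∈ Y, ∀ z ∈ Y,
        nval v B 2 (det3 x y z) ≤ κ v * B ^ (-(e v)) := by
      intro v hvS x hx y hy z hz
      have hpl := pl_of_mem hS hvS
      obtain ⟨hxb, hxc, _⟩ := hY x hx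
      obtain ⟨hyb, hyc, _⟩ := hY y hy
      obtain ⟨hzb, hzc, _⟩ := hY z hz
      simp only [hκ, he]
      split_ifs with h1 h2
      · obtain ⟨hC1, h2, h3, hall⟩ := hCf v h1
        have h4 := (hall B hB1).2.1 x y z _ _ hxb hyb hzb (hYY x hx y hy).1 (hYY x hx z hz).1
          (hxc v (hcV v h1)) (hyc v (hcV v h1)) (hzc v (hcV v h1)) (hρ2 v h1)
          (hnear v h1 x hx y hy) (hnear v h1 x hx z hz)
        refine h4.trans ?_
        have hρ0 : 0 < B ^ (-(lam v)) := by positivity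
        have hG0 : 0 < G v := by have := hG1 v h1; linarith
        have e3 : B ^ (-(3 * lam v)) = (B ^ (-(lam v))) ^ 3 := by
          rw [← Real.rpow_natCast, ← Real.rpow_mul hBp.le]
          congr 1
          push_cast
          ring
        rw [e3]
        have h5 : A' * B ^ (-(β v)) + (G v * B ^ (-(lam v))) ^ 2 ≤
            (A' + G v ^ 2) * (B ^ (-(lam v))) ^ 2 := by
          have := mul_le_mul_of_nonneg_left (hεlam v h1) hA'0.le
          nlinarith
        calc Cf v * (A' * B ^ (-(β v)) + (G v * B ^ (-(lam v))) ^ 2) * (G v * B ^ (-(lam v)))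
            ≤ Cf v * ((A' + G v ^ 2) * (B ^ (-(lam v))) ^ 2) * (G v * B ^ (-(lam v))) := by
              apply mul_le_mul_of_nonneg_right _ (by positivity)
              exact mul_le_mul_of_nonneg_left h5 (by linarith)
          _ = K3 v * (B ^ (-(lam v))) ^ 3 := by
              show _ = Cf v * (A' + G v ^ 2) * G v * (B ^ (-(lam v))) ^ 3
              ring
      · have hd := hd1 v h2
        have hFh : (F v).IsHomogeneous 1 := by
          have := hF v (hhV v h2)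
          rwa [hd] at this
        have hcl : ∀ w, Close v B (F v) (d v) c (A' * B ^ (-(β v))) w →
            Close v B (F v) 1 c (A' * B ^ (-(β v))) w := by
          intro w hw
          rwa [hd] at hw
        have h4 := det_linear hFh hpl hB1 hc hxb hyb hzb (hYY x hx y hy).1 (hYY x hx z hz).1
          (hcl x (hxc v (hhV v h2))) (hcl y (hyc v (hhV v h2))) (hcl z (hzc v (hhV v h2)))
        rw [mul_assoc]
        exact h4
      · rw [neg_zero, Real.rpow_zero, mul_one]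
        exact det_box hpl hB1 hxb hyb hzb
    have hprod : B ^ 2 * ∏ v ∈ insertNone S, (κ v * B ^ (-(e v))) < 1 := by
      rw [Finset.prod_mul_distrib, ← Real.rpow_sum_of_pos hBp]
      have h1 : B ^ 2 * B ^ (∑ v ∈ insertNone S, -(e v)) ≤ B ^ (-ω) := by
        rw [← Real.rpow_natCast, ← Real.rpow_add hBp]
        apply Real.rpow_le_rpow_of_exponent_le hB1
        rw [Finset.sum_neg_distrib]
        push_cast
        linarith
      have h2 : 0 ≤ ∏ v ∈ insertNone S, κ v := Finset.prod_nonneg fun v _ => hκ0 v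
      calc B ^ 2 * ((∏ v ∈ insertNone S, κ v) * B ^ (∑ v ∈ insertNone S, -(e v)))
          = (∏ v ∈ insertNone S, κ v) * (B ^ 2 * B ^ (∑ v ∈ insertNone S, -(e v))) := by ring
        _ ≤ (∏ v ∈ insertNone S, κ v) * B ^ (-ω) := mul_le_mul_of_nonneg_left h1 h2
        _ < 1 := hBκ
    obtain ⟨hd0, hinj⟩ := fiber hS hB1 (fun x hx y hy => (hYY x hx y hy).1) hdet hprod
    refine ⟨hd0, hinj, ?_⟩
    intro v hv x hx y hy z hz
    obtain ⟨hxb, hxc, hxq⟩ := hY x hx
    obtain ⟨hyb, hyc, _⟩ := hY y hy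
    obtain ⟨hzb, hzc, _⟩ := hY z hz
    obtain ⟨hC1, h2, h3, hall⟩ := hCf v hv
    have hCA : 0 < Cf v * A' := by positivity
    refine (hall B hB1).2.2 x y z (A' * B ^ (-(β v))) (G v * B ^ (-(lam v))) (B ^ (-η)) _ hxb hyb
      hzb (hYY x hx y hy).1 (hYY x hx z hz).1 (hxc v (hcV v hv)) (hyc v (hcV v hv))
      (hzc v (hcV v hv)) (hρ2 v hv) (hnear v hv x hx y hy) (hnear v hv x hx z hz)
      (hd0 x hx y hy z hz) (by positivity) hγ1 (hxq v hv) (hρ1 v hv) (by positivity) (le_of_eq ?_)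
    rw [mul_pow, Real.sq_sqrt hCA.le, ← Real.rpow_natCast (B ^ (-((β v - η) / 2))),
      ← Real.rpow_mul hBp.le]
    have e1 : B ^ (-(β v)) = B ^ (-η) * B ^ (-((β v - η) / 2) * ((2 : ℕ) : ℝ)) := by
      rw [← Real.rpow_add hBp]
      congr 1
      push_cast
      ring
    rw [e1]
    ring
  -- from the classes to the points
  have hXY : ∀ B : ℝ, 1 ≤ B → ∀ X : Finset (Fin (m + 2) → ℤ),
      (∀ x ∈ X, Box B x ∧ (∀ v ∈ V, Close v B (F v) (d v) c (A * B ^ (-(α v))) x) ∧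
        ∀ v ∈ Vc, B ^ (-η) ≤ nval v B (2 * (d v - 1) + (d v - 2)) (eval x (Q (F v) 1 1))) →
      ∀ x ∈ X, Box B x ∧ (∀ v ∈ V, Close v B (F v) (d v) c (A' * B ^ (-(β v))) x) ∧
        ∀ v ∈ Vc, B ^ (-η) ≤ nval v B (2 * (d v - 1) + (d v - 2)) (eval x (Q (F v) 1 1)) := by
    intro B hB X hX x hx
    obtain ⟨h1, h2, h3⟩ := hX x hx
    refine ⟨h1, fun v hv => (h2 v hv).mono ?_, h3⟩
    have hB0 : 0 < B := by linarith
    apply mul_le_mul (le_max_left _ _) _ (by positivity) (by positivity)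
    exact Real.rpow_le_rpow_of_exponent_le hB (by have := hβα v hv; linarith)
  have hρle : ∀ B : ℝ, 1 ≤ B → ∀ v ∈ Vc, 0 < B ^ (-(lam v)) ∧ B ^ (-(lam v)) ≤ 1 := fun B hB v hv =>
    ⟨by have : 0 < B := by linarith
        positivity,
      Real.rpow_le_one_of_one_le_of_nonpos hB (by have := hlam0 v hv; linarith)⟩
  have himg : ∀ (B : ℝ) (Y : Finset (Fin (m + 2) → ℤ)), (∀ x ∈ Y, Box B x) →
      ∀ P ∈ (Y.image (fun x => (x 0, x 1)) : Finset (ℤ × ℤ)), |(P.1 : ℝ)| ≤ B ∧ |(P.2 : ℝ)| ≤ B := by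
    intro B Y hY P hP
    obtain ⟨x, hx, rfl⟩ := Finset.mem_image.mp hP
    exact ⟨hY x hx 0, hY x hx 1⟩
  have himg2 : ∀ Y : Finset (Fin (m + 2) → ℤ), (∀ x ∈ Y, ∀ y ∈ Y, ∀ z ∈ Y, det3 x y z = 0) →
      ∀ P ∈ (Y.image (fun x => (x 0, x 1)) : Finset (ℤ × ℤ)), ∀ P' ∈ (Y.image (fun x => (x 0, x 1)) : Finset (ℤ × ℤ)),
      ∀ P'' ∈ (Y.image (fun x => (x 0, x 1)) : Finset (ℤ × ℤ)),
      (P'.1 - P.1) * (P''.2 - P.2) - (P'.2 - P.2) * (P''.1 - P.1) = 0 := by
    intro Y hY P hP P' hP' P'' hP''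
    obtain ⟨x, hx, rfl⟩ := Finset.mem_image.mp hP
    obtain ⟨y, hy, rfl⟩ := Finset.mem_image.mp hP'
    obtain ⟨z, hz, rfl⟩ := Finset.mem_image.mp hP''
    exact hY x hx y hy z hz
  have hsmall : ∀ (θ : ℝ), θ ≤ 1 → ∀ B : ℝ, 1 ≤ B → B ≤ B0 → ∀ X : Finset (Fin (m + 2) → ℤ),
      (∀ x ∈ X, Box B x) → (X.card : ℝ) ≤ (3 * max B0 1) ^ (m + 2) * B ^ ((m : ℝ) + 1 - θ) := by
    intro θ hθ B hB hBB X hX
    have h1 := box_card hB X hX
    have h2 : (3 * B) ^ (m + 2) ≤ (3 * max B0 1) ^ (m + 2) := by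
      apply pow_le_pow_left₀ (by linarith)
      have := le_max_left B0 1
      linarith
    have h3 : 1 ≤ B ^ ((m : ℝ) + 1 - θ) := by
      apply Real.one_le_rpow hB
      have : (0 : ℝ) ≤ m := Nat.cast_nonneg m
      linarith
    have h4 : 0 ≤ (3 * max B0 1) ^ (m + 2) := by
      have := le_max_right B0 1
      positivity
    nlinarith
  have hm0 : (0 : ℝ) ≤ m := Nat.cast_nonneg m
  by_cases hne : Vc.Nonempty
  · set ac : ℝ := ∑ v ∈ Vc, β v with hac
    have hac0 : 0 < ac := Finset.sum_pos (fun v hv => hβ0 v (hcV v hv)) hne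
    have hac1 : ac ≤ 2 + ω := by
      rw [← hβsum]
      exact Finset.sum_le_sum_of_subset_of_nonneg Finset.subset_union_left
        fun v hv _ => (hβ0 v hv).le
    have hlamsum : ∑ v ∈ Vc, lam v = 5 / 12 * ac := by
      rw [hac, Finset.mul_sum]
    have hηsum : ∑ v ∈ Vc, η ≤ 5 / 72 * ac := by
      calc ∑ v ∈ Vc, η ≤ ∑ v ∈ Vc, lam v / 6 := Finset.sum_le_sum hη
        _ = 5 / 72 * ac := by rw [← Finset.sum_div, hlamsum]; ring
    set θ : ℝ := min (1 / 16) (ac / 24) with hθ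
    have hθ0 : 0 < θ := lt_min (by norm_num) (by positivity)
    have hθ1 : θ ≤ 1 / 16 := min_le_left _ _
    have hθ2 : θ ≤ ac / 24 := min_le_right _ _
    set K4 : ℝ := ∏ v ∈ Vc, (Kc / c4f v ^ 2) with hK4
    set K5 : ℝ := ∏ v ∈ Vc, Real.sqrt (Cf v * A') with hK5
    have hK40 : 0 < K4 := Finset.prod_pos fun v hv => by
      have := (hCf v hv).2.1
      positivity
    have hK50 : 0 ≤ K5 := Finset.prod_nonneg fun v _ => Real.sqrt_nonneg _
    refine ⟨η, θ, 3 ^ m * K4 * Cg * (1 + K5) + (3 * max B0 1) ^ (m + 2), hη0, hθ0, by positivity,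
      ?_⟩
    intro B hB X hX
    have hBp : 0 < B := by linarith
    have hpos1 : 0 < B ^ ((m : ℝ) + 1 - θ) := by positivity
    rcases le_total B B0 with hBB | hBB
    · refine (hsmall θ (by linarith) B hB hBB X fun x hx => (hX x hx).1).trans ?_
      apply mul_le_mul_of_nonneg_right _ hpos1.le
      have : 0 ≤ 3 ^ m * K4 * Cg * (1 + K5) := by positivity
      linarith
    have hN0 : 0 ≤ Cg * (1 + B * ∏ v ∈ Vc, (Real.sqrt (Cf v * A') * B ^ (-((β v - η) / 2)))) := by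
      have : 0 ≤ ∏ v ∈ Vc, (Real.sqrt (Cf v * A') * B ^ (-((β v - η) / 2))) :=
        Finset.prod_nonneg fun v _ => by positivity
      positivity
    have h1 := hKc B hB c4f (fun v => B ^ (-(lam v)))
      (fun v hv => ⟨(hCf v hv).2.1, (hCf v hv).2.2.1⟩) (hρle B hB) X (fun x hx => (hX x hx).1)
      _ hN0 (by
        intro Y hYX hYY
        have hX' := hXY B hB X hX
        obtain ⟨hd0, hcard, hcl⟩ := hclass B hBB Y (fun x hx => hX' x (hYX hx)) hYY
        rw [← hcard]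
        refine (hCg B hB (fun v => Real.sqrt (Cf v * A') * B ^ (-((β v - η) / 2)))
          ((Y.image (fun x => (x 0, x 1)) : Finset (ℤ × ℤ))) (fun v => by positivity)
          (himg B Y fun x hx => (hX' x (hYX hx)).1) (himg2 Y hd0) ?_).1
        intro v hv P hP P' hP' P'' hP''
        obtain ⟨x, hx, rfl⟩ := Finset.mem_image.mp hP
        obtain ⟨y, hy, rfl⟩ := Finset.mem_image.mp hP'
        obtain ⟨z, hz, rfl⟩ := Finset.mem_image.mp hP''
        exact hcl v hv x hx y hy z hz)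
    refine h1.trans ?_
    have e1 : ∏ v ∈ Vc, (Kc / (c4f v ^ 2 * B ^ (-(lam v)))) = K4 * B ^ (5 / 12 * ac) := by
      rw [← hlamsum, Real.rpow_sum_of_pos hBp, hK4, ← Finset.prod_mul_distrib]
      refine Finset.prod_congr rfl fun v _ => ?_
      rw [Real.rpow_neg hBp.le, ← div_div, div_inv_eq_mul]
    have e2 : ∏ v ∈ Vc, (Real.sqrt (Cf v * A') * B ^ (-((β v - η) / 2))) =
        K5 * B ^ (-((ac - ∑ v ∈ Vc, η) / 2)) := by
      rw [Finset.prod_mul_distrib, ← Real.rpow_sum_of_pos hBp]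
      congr 2
      rw [Finset.sum_neg_distrib, ← Finset.sum_div, Finset.sum_sub_distrib]
    rw [e1, e2]
    have hBm : (3 * B) ^ m = 3 ^ m * B ^ (m : ℝ) := by rw [mul_pow, Real.rpow_natCast]
    rw [hBm]
    have e3 : B ^ (m : ℝ) * B ^ (5 / 12 * ac) ≤ B ^ ((m : ℝ) + 1 - θ) := by
      rw [← Real.rpow_add hBp]
      apply Real.rpow_le_rpow_of_exponent_le hB
      linarith
    have e4 : B ^ (m : ℝ) * B ^ (5 / 12 * ac) * (B * B ^ (-((ac - ∑ v ∈ Vc, η) / 2))) ≤
        B ^ ((m : ℝ) + 1 - θ) := by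
      have : B * B ^ (-((ac - ∑ v ∈ Vc, η) / 2)) = B ^ (1 + -((ac - ∑ v ∈ Vc, η) / 2)) := by
        rw [Real.rpow_add hBp, Real.rpow_one]
      rw [this, ← Real.rpow_add hBp, ← Real.rpow_add hBp]
      apply Real.rpow_le_rpow_of_exponent_le hB
      linarith
    have e5 : 0 ≤ 3 ^ m * K4 * Cg := by positivity
    calc 3 ^ m * B ^ (m : ℝ) * (K4 * B ^ (5 / 12 * ac)) *
          (Cg * (1 + B * (K5 * B ^ (-((ac - ∑ v ∈ Vc, η) / 2)))))
        = 3 ^ m * K4 * Cg * (B ^ (m : ℝ) * B ^ (5 / 12 * ac) + K5 * (B ^ (m : ℝ) *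
          B ^ (5 / 12 * ac) * (B * B ^ (-((ac - ∑ v ∈ Vc, η) / 2))))) := by ring
      _ ≤ 3 ^ m * K4 * Cg * (B ^ ((m : ℝ) + 1 - θ) + K5 * B ^ ((m : ℝ) + 1 - θ)) :=
          mul_le_mul_of_nonneg_left (add_le_add e3 (mul_le_mul_of_nonneg_left e4 hK50)) e5
      _ = 3 ^ m * K4 * Cg * (1 + K5) * B ^ ((m : ℝ) + 1 - θ) := by ring
      _ ≤ _ := by
          apply mul_le_mul_of_nonneg_right _ hpos1.le
          have : 0 ≤ (3 * max B0 1) ^ (m + 2) := by positivity
          linarith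
  · have hempty : Vc = ∅ := Finset.not_nonempty_iff_eq_empty.mp hne
    rcases hM with hM | ⟨v0, hv0, v1, hv1, hdet01⟩
    · exact absurd hM hne
    set μ : ℝ := min (β v0) (β v1) with hμ
    have hμ0 : 0 < μ := lt_min (hβ0 v0 (hhV v0 hv0)) (hβ0 v1 (hhV v1 hv1))
    set θ : ℝ := min 1 μ with hθ
    have hθ0 : 0 < θ := lt_min one_pos hμ0
    have hθ1 : θ ≤ 1 := min_le_left _ _
    have hθ2 : θ ≤ μ := min_le_right _ _
    refine ⟨η, θ, 3 ^ m * Cg * (1 + 2 * A') + (3 * max B0 1) ^ (m + 2), hη0, hθ0, by positivity,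
      ?_⟩
    intro B hB X hX
    have hBp : 0 < B := by linarith
    have hpos1 : 0 < B ^ ((m : ℝ) + 1 - θ) := by positivity
    rcases le_total B B0 with hBB | hBB
    · refine (hsmall θ hθ1 B hB hBB X fun x hx => (hX x hx).1).trans ?_
      apply mul_le_mul_of_nonneg_right _ hpos1.le
      have : 0 ≤ 3 ^ m * Cg * (1 + 2 * A') := by positivity
      linarith
    have hN0 : 0 ≤ Cg * (1 + B * (2 * A' * B ^ (-μ))) := by positivity
    have h1 := hKc B hB c4f (fun v => B ^ (-(lam v)))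
      (fun v hv => ⟨(hCf v hv).2.1, (hCf v hv).2.2.1⟩) (hρle B hB) X (fun x hx => (hX x hx).1)
      _ hN0 (by
        intro Y hYX hYY
        have hX' := hXY B hB X hX
        obtain ⟨hd0, hcard, hcl⟩ := hclass B hBB Y (fun x hx => hX' x (hYX hx)) hYY
        rw [← hcard]
        have h2 := (hCg B hB (fun v => Real.sqrt (Cf v * A') * B ^ (-((β v - η) / 2)))
          ((Y.image (fun x => (x 0, x 1)) : Finset (ℤ × ℤ))) (fun v => by positivity)
          (himg B Y fun x hx => (hX' x (hYX hx)).1) (himg2 Y hd0) (by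
            intro v hv
            rw [hempty] at hv
            exact absurd hv (Finset.notMem_empty v))).2 v0 v1 (eval 0 (pderiv 0 (F v0)))
            (eval 0 (pderiv 1 (F v0))) (eval 0 (pderiv 0 (F v1))) (eval 0 (pderiv 1 (F v1)))
            (2 * A' * B ^ (-μ)) (by positivity) (hVh hv0) (hVh hv1)
            (by rw [hempty]; exact Finset.notMem_empty _)
            (by rw [hempty]; exact Finset.notMem_empty _)
        have hAg' : ∀ v ∈ Vh, |eval 0 (pderiv 0 (F v))| ≤ (Ag : ℤ) ∧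
            |eval 0 (pderiv 1 (F v))| ≤ (Ag : ℤ) := by
          intro v hv
          have h3 := Finset.single_le_sum (f := fun v => (eval 0 (pderiv 0 (F v))).natAbs +
            (eval 0 (pderiv 1 (F v))).natAbs) (fun v _ => Nat.zero_le _) (hVh hv)
          rw [← hAg] at h3
          rw [Int.abs_eq_natAbs, Int.abs_eq_natAbs]
          constructor
          · exact_mod_cast le_trans (Nat.le_add_right _ _) h3
          · exact_mod_cast le_trans (Nat.le_add_left _ _) h3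
        have hlin : ∀ v ∈ Vh, μ ≤ β v → ∀ P ∈ (Y.image (fun x => (x 0, x 1)) : Finset (ℤ × ℤ)),
            ∀ P' ∈ (Y.image (fun x => (x 0, x 1)) : Finset (ℤ × ℤ)),
            nval v B 1 (eval 0 (pderiv 0 (F v)) * (P'.1 - P.1) +
              eval 0 (pderiv 1 (F v)) * (P'.2 - P.2)) ≤ 2 * A' * B ^ (-μ) := by
          intro v hv hμv P hP P' hP'
          obtain ⟨x, hx, rfl⟩ := Finset.mem_image.mp hP
          obtain ⟨y, hy, rfl⟩ := Finset.mem_image.mp hP'
          have hd := hd1 v hv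
          have hFh : (F v).IsHomogeneous 1 := by
            have := hF v (hhV v hv)
            rwa [hd] at this
          have hpl := pl_of_mem hS (hVh hv)
          have e1 := lin_diff hFh (hYY x hx y hy).1
          rw [← e1]
          have h3 := ((hX' x (hYX hx)).2.1 v (hhV v hv)).1
          have h4 := ((hX' y (hYX hy)).2.1 v (hhV v hv)).1
          rw [hd] at h3 h4
          have h5 := nval_sub_le hpl hBp.le 1 (eval y (F v)) (eval x (F v))
          have h6 : B ^ (-(β v)) ≤ B ^ (-μ) := Real.rpow_le_rpow_of_exponent_le hB (by linarith)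
          have h7 : A' * B ^ (-(β v)) ≤ A' * B ^ (-μ) := mul_le_mul_of_nonneg_left h6 hA'0.le
          linarith
        have h3 := h2 (hAg' v0 hv0).1 (hAg' v0 hv0).2 (hAg' v1 hv1).1 (hAg' v1 hv1).2 hdet01
          (hlin v0 hv0 (min_le_left _ _)) (hlin v1 hv1 (min_le_right _ _))
        rw [hempty, Finset.prod_empty, mul_one] at h3
        exact h3)
    refine h1.trans ?_
    rw [hempty, Finset.prod_empty, mul_one]
    have hBm : (3 * B) ^ m = 3 ^ m * B ^ (m : ℝ) := by rw [mul_pow, Real.rpow_natCast]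
    rw [hBm]
    have e3 : B ^ (m : ℝ) ≤ B ^ ((m : ℝ) + 1 - θ) :=
      Real.rpow_le_rpow_of_exponent_le hB (by linarith)
    have e4 : B ^ (m : ℝ) * (B * B ^ (-μ)) ≤ B ^ ((m : ℝ) + 1 - θ) := by
      have : B * B ^ (-μ) = B ^ (1 + -μ) := by rw [Real.rpow_add hBp, Real.rpow_one]
      rw [this, ← Real.rpow_add hBp]
      exact Real.rpow_le_rpow_of_exponent_le hB (by linarith)
    have e5 : 0 ≤ 3 ^ m * Cg := by positivity
    calc 3 ^ m * B ^ (m : ℝ) * (Cg * (1 + B * (2 * A' * B ^ (-μ))))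
        = 3 ^ m * Cg * (B ^ (m : ℝ) + 2 * A' * (B ^ (m : ℝ) * (B * B ^ (-μ)))) := by ring
      _ ≤ 3 ^ m * Cg * (B ^ ((m : ℝ) + 1 - θ) + 2 * A' * B ^ ((m : ℝ) + 1 - θ)) :=
          mul_le_mul_of_nonneg_left (add_le_add e3 (mul_le_mul_of_nonneg_left e4 (by positivity))) e5
      _ = 3 ^ m * Cg * (1 + 2 * A') * B ^ ((m : ℝ) + 1 - θ) := by ring
      _ ≤ _ := by
          apply mul_le_mul_of_nonneg_right _ hpos1.le
          have : 0 ≤ (3 * max B0 1) ^ (m + 2) := by positivity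
          linarith

end Pool.Agent.K1H59.VX
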