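import Pool.Agent.K1H59.VX.Bd
import Pool.Agent.K1H59.VX.Core2

/-!
# The points of one class, in good coordinates
-/

set_option autoImplicit false

namespace Pool.Agent.K1H59.VX

open Finset MvPolynomial

theorem one_le_deg {n : ℕ} {H : MvPolynomial (Fin n) ℤ} {d : ℕ} (hH : H.IsHomogeneous d)
    (hirr : Irreducible (toQ H)) : 1 ≤ d := by
  by_contra h
  have hd : d = 0 := by omega
  subst hd
  obtain ⟨a, ha⟩ : ∃ a : ℤ, H = C a :=
    ⟨_, (totalDegree_eq_zero_iff_eq_C.mp (Nat.le_zero.mp hH.totalDegree_le))⟩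
  have e1 : toQ H = C (a : ℚ) := by
    unfold toQ
    rw [ha, map_C]
    rfl
  rw [e1] at hirr
  by_cases ha0 : (a : ℚ) = 0
  · rw [ha0, C_0] at hirr
    exact hirr.ne_zero rfl
  · exact hirr.not_isUnit ((isUnit_iff_ne_zero.mpr ha0).map C)

theorem eval_const {n : ℕ} {G : MvPolynomial (Fin n) ℤ} (hG : G.IsHomogeneous 0)
    (y : Fin n → ℤ) : eval y G = eval 0 G := by
  obtain ⟨a, ha⟩ : ∃ a : ℤ, G = C a :=
    ⟨_, (totalDegree_eq_zero_iff_eq_C.mp (Nat.le_zero.mp hG.totalDegree_le))⟩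
  rw [ha, eval_C, eval_C]

set_option maxHeartbeats 4000000 in
theorem class_good (hTB : S_TB) (hEL : S_ELIM) (hG : Pool.Agent.K1H31.VX.S_GCL0) (hL : S_LOC)
    (m q : ℕ) (hm : 1 ≤ m) (S : Finset ℕ) (hS : ∀ p ∈ S, p.Prime)
    (H : Fin q → MvPolynomial (Fin (m + 2)) ℤ) (d : Fin q → ℕ)
    (hH : ∀ j, (H j).IsHomogeneous (d j)) (hirr : ∀ j, Irreducible (toQ (H j)))
    (hne : ∀ j k, j ≠ k → ¬ (toQ (H j) ∣ toQ (H k)))
    (hQ : ∀ j, 2 ≤ d j → pderiv 0 (H j) ≠ 0 → ¬ (toQ (H j) ∣ toQ (Q (H j) 1 1)))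
    (hlin : ∀ j k, j ≠ k → d j = 1 → d k = 1 → eval 0 (pderiv 0 (H j)) ≠ 0 →
      eval 0 (pderiv 0 (H k)) ≠ 0 →
      eval 0 (pderiv 0 (H j)) * eval 0 (pderiv 1 (H k)) -
        eval 0 (pderiv 1 (H j)) * eval 0 (pderiv 0 (H k)) ≠ 0)
    (e : Fin q → Option ℕ → ℝ) (he0 : ∀ j v, 0 ≤ e j v) (J : Option ℕ → Fin q)
    (hJ : ∀ j v, e j v ≤ e (J v) v) (η : ℝ) (hη : 0 < η)
    (hcomb : ∀ v ∈ insertNone S, (Finset.univ.filter (fun j => η ≤ e j v)).card ≤ m + 1)
    (κ' : ℝ) (hκ' : (m : ℝ) + 1 + (S.card + 1) * q * η < κ')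
    (hsum : κ' ≤ ∑ j, ∑ v ∈ insertNone S, e j v) (A c : ℝ) (hA : 0 < A) (hc : 0 < c) :
    Bd m (fun B y => Box B y ∧ (∀ j, eval y (H j) ≠ 0) ∧
      (∀ j, ∀ v ∈ insertNone S, nval v B (d j) (eval y (H j)) ≤ A * B ^ (-(e j v))) ∧
      (∀ v ∈ insertNone S, η ≤ e (J v) v →
        c ≤ nval v B (d (J v) - 1) (eval y (pderiv 0 (H (J v)))))) := by
  classical
  set P : ℝ → (Fin (m + 2) → ℤ) → Prop := fun B y => Box B y ∧ (∀ j, eval y (H j) ≠ 0) ∧
      (∀ j, ∀ v ∈ insertNone S, nval v B (d j) (eval y (H j)) ≤ A * B ^ (-(e j v))) ∧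
      (∀ v ∈ insertNone S, η ≤ e (J v) v →
        c ≤ nval v B (d (J v) - 1) (eval y (pderiv 0 (H (J v))))) with hP
  set W : Finset (Option ℕ) := (insertNone S).filter (fun v => η ≤ e (J v) v) with hW
  have hWS : W ⊆ insertNone S := Finset.filter_subset _ _
  have hWη : ∀ v ∈ W, η ≤ e (J v) v := fun v hv => (Finset.mem_filter.mp hv).2
  have hW0 : ∀ v ∈ W, 0 < e (J v) v := fun v hv => lt_of_lt_of_le hη (hWη v hv)
  have hcardS : ((insertNone S).card : ℝ) = S.card + 1 := by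
    rw [Finset.card_insertNone]; push_cast; ring
  have hswap : ∑ j, ∑ v ∈ insertNone S, e j v = ∑ v ∈ insertNone S, ∑ j, e j v := Finset.sum_comm
  -- the sum over one place
  have hplace : ∀ (M : ℝ), 1 ≤ M → (∀ v ∈ insertNone S,
      ((Finset.univ.filter (fun j => η ≤ e j v)).card : ℝ) ≤ M) →
      κ' ≤ M * ∑ v ∈ W, e (J v) v + (S.card + 1) * (q * η) := by
    intro M hM1 hM
    have h1 : ∀ v ∈ insertNone S, ∑ j, e j v ≤ (if v ∈ W then M * e (J v) v else 0) + q * η := by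
      intro v hv
      rw [← Finset.sum_filter_add_sum_filter_not Finset.univ (fun j => η ≤ e j v)]
      apply add_le_add
      · by_cases hvW : v ∈ W
        · rw [if_pos hvW]
          calc ∑ j ∈ Finset.univ.filter (fun j => η ≤ e j v), e j v ≤
              ∑ j ∈ Finset.univ.filter (fun j => η ≤ e j v), e (J v) v :=
                Finset.sum_le_sum fun j _ => hJ j v
            _ = ((Finset.univ.filter (fun j => η ≤ e j v)).card : ℝ) * e (J v) v := by
                rw [Finset.sum_const, nsmul_eq_mul]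
            _ ≤ _ := mul_le_mul_of_nonneg_right (hM v hv) (he0 _ _)
        · rw [if_neg hvW]
          have : Finset.univ.filter (fun j => η ≤ e j v) = ∅ := by
            apply Finset.eq_empty_of_forall_notMem
            intro j hj
            exact hvW (Finset.mem_filter.mpr ⟨hv, (Finset.mem_filter.mp hj).2.trans (hJ j v)⟩)
          rw [this, Finset.sum_empty]
      · calc ∑ j ∈ Finset.univ.filter (fun j => ¬ η ≤ e j v), e j v ≤
              ∑ j ∈ Finset.univ.filter (fun j => ¬ η ≤ e j v), η :=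
                Finset.sum_le_sum fun j hj => (not_le.mp (Finset.mem_filter.mp hj).2).le
          _ = ((Finset.univ.filter (fun j => ¬ η ≤ e j v)).card : ℝ) * η := by
                rw [Finset.sum_const, nsmul_eq_mul]
          _ ≤ q * η := by
                apply mul_le_mul_of_nonneg_right _ hη.le
                have := Finset.card_filter_le (Finset.univ : Finset (Fin q))
                  (fun j => ¬ η ≤ e j v)
                rw [Finset.card_univ, Fintype.card_fin] at this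
                exact_mod_cast this
    rw [hswap] at hsum
    refine hsum.trans ((Finset.sum_le_sum h1).trans (le_of_eq ?_))
    rw [Finset.sum_add_distrib, Finset.sum_const, nsmul_eq_mul, hcardS, ← Finset.sum_filter,
      Finset.mul_sum]
    congr 2
    ext v
    rw [Finset.mem_filter]
    exact ⟨fun h => h.2, fun h => ⟨hWS h, h⟩⟩
  have hsum1 : 1 < ∑ v ∈ W, e (J v) v := by
    have h1 := hplace ((m : ℝ) + 1) (by have : (0 : ℝ) ≤ m := Nat.cast_nonneg m; linarith)
      (fun v hv => by exact_mod_cast hcomb v hv)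
    have hm0 : (0 : ℝ) ≤ m := Nat.cast_nonneg m
    by_contra hcon
    push Not at hcon
    have h2 : ((m : ℝ) + 1) * ∑ v ∈ W, e (J v) v ≤ (m + 1) * 1 :=
      mul_le_mul_of_nonneg_left hcon (by linarith)
    have h3 : ((S.card : ℝ) + 1) * (q * η) = (S.card + 1) * q * η := by ring
    linarith
  have hclose : ∀ (B : ℝ) (x : Fin (m + 2) → ℤ), P B x → ∀ v ∈ W,
      Close v B (H (J v)) (d (J v)) c (A * B ^ (-(e (J v) v))) x := fun B x hx v hv =>
    ⟨hx.2.2.1 (J v) v (hWS hv), hx.2.2.2 v (hWS hv) (hWη v hv)⟩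
  -- the projections of the points near two components, or near the flat points of one
  have hthin : ∀ v1 ∈ W, ∀ (G : MvPolynomial (Fin (m + 2)) ℤ) (g : ℕ), G.IsHomogeneous g →
      ¬ (toQ (H (J v1)) ∣ toQ G) → ∀ ζ A1 : ℝ, 0 < ζ → 0 < A1 →
      Bd m (fun B x => P B x ∧ nval v1 B g (eval x G) ≤ A1 * B ^ (-ζ)) := by
    intro v1 hv1 G g hGh hGd ζ A1 hζ hA1
    obtain ⟨D, R, A', B', hR0, hRh, hrel⟩ := hEL (m + 1) (d (J v1)) g (H (J v1)) G (hH _) hGh
      (hirr _) hGd
    obtain ⟨M, hM1, hM⟩ := rel_bound (pl_of_mem hS (hWS hv1)) hRh (hH (J v1)) hGh hrel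
    set ζ' : ℝ := min ζ η with hζ'
    have hζ'0 : 0 < ζ' := lt_min hζ hη
    set A2 : ℝ := A + M * (A + A1) with hA2
    have hA2A : A ≤ A2 := by
      have : 0 ≤ M * (A + A1) := by positivity
      linarith
    obtain ⟨θ, C, hθ, hC, hb⟩ := hTB m S hS W hWS (fun v => H (J v)) (fun v => d (J v))
      (fun v => e (J v) v) (fun v _ => hH (J v)) hW0 hsum1 R D v1 hR0 hRh (hWS hv1) A2 c ζ'
      (by linarith) hc hζ'0
    refine Bd.of hθ hC fun B hB X hX => hb B hB X fun x hx => ?_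
    obtain ⟨hPx, hGx⟩ := hX x hx
    have hB0 : 0 < B := by linarith
    refine ⟨hPx.1, fun v hv => (hclose B x hPx v hv).mono ?_, ?_⟩
    · exact mul_le_mul_of_nonneg_right hA2A (by positivity)
    · refine (hM B hB x hPx.1).trans ?_
      have h1 := hPx.2.2.1 (J v1) v1 (hWS hv1)
      have h2 : B ^ (-(e (J v1) v1)) ≤ B ^ (-ζ') := by
        apply Real.rpow_le_rpow_of_exponent_le hB
        have := hWη v1 hv1
        have := min_le_right ζ η
        linarith
      have h3 : B ^ (-ζ) ≤ B ^ (-ζ') := by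
        apply Real.rpow_le_rpow_of_exponent_le hB
        have := min_le_left ζ η
        linarith
      have h4 : A * B ^ (-(e (J v1) v1)) ≤ A * B ^ (-ζ') := mul_le_mul_of_nonneg_left h2 hA.le
      have h5 : A1 * B ^ (-ζ) ≤ A1 * B ^ (-ζ') := mul_le_mul_of_nonneg_left h3 hA1.le
      have h6 : 0 < B ^ (-ζ') := by positivity
      calc M * (nval v1 B (d (J v1)) (eval x (H (J v1))) + nval v1 B g (eval x G))
          ≤ M * (A * B ^ (-ζ') + A1 * B ^ (-ζ')) :=
            mul_le_mul_of_nonneg_left (by linarith) (by linarith)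
        _ = M * (A + A1) * B ^ (-ζ') := by ring
        _ ≤ A2 * B ^ (-ζ') := mul_le_mul_of_nonneg_right (by linarith) h6.le
  by_cases hi : ∃ v1 ∈ insertNone S, ∃ j1, j1 ≠ J v1 ∧ η ≤ e j1 v1
  · obtain ⟨v1, hv1, j1, hj1, hej1⟩ := hi
    have hv1W : v1 ∈ W := Finset.mem_filter.mpr ⟨hv1, hej1.trans (hJ j1 v1)⟩
    refine Bd.mono (fun B x hB hx => ⟨hx, ?_⟩)
      (hthin v1 hv1W (H j1) (d j1) (hH j1) (hne _ _ (Ne.symm hj1)) η A hη hA)
    refine (hx.2.2.1 j1 v1 hv1).trans (mul_le_mul_of_nonneg_left ?_ hA.le)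
    exact Real.rpow_le_rpow_of_exponent_le hB (by linarith)
  push Not at hi
  have hsum2 : 2 < ∑ v ∈ W, e (J v) v := by
    have h1 := hplace 1 le_rfl (fun v hv => by
      have h2 : Finset.univ.filter (fun j => η ≤ e j v) ⊆ {J v} := by
        intro j hj
        rw [Finset.mem_singleton]
        by_contra hne'
        have := hi v hv j hne'
        exact absurd (Finset.mem_filter.mp hj).2 (not_le.mpr this)
      have h3 := Finset.card_le_card h2
      rw [Finset.card_singleton] at h3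
      exact_mod_cast h3)
    have hm0 : (1 : ℝ) ≤ m := by exact_mod_cast hm
    have h3 : ((S.card : ℝ) + 1) * (q * η) = (S.card + 1) * q * η := by ring
    linarith
  set Vc : Finset (Option ℕ) := W.filter (fun v => 2 ≤ d (J v)) with hVc
  set Vh : Finset (Option ℕ) := W.filter (fun v => ¬ 2 ≤ d (J v)) with hVh
  have hun : Vc ∪ Vh = W := by
    ext v
    simp only [hVc, hVh, Finset.mem_union, Finset.mem_filter]
    tauto
  have hcW : ∀ v ∈ Vc, v ∈ W := fun v hv => (Finset.mem_filter.mp hv).1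
  have hhW : ∀ v ∈ Vh, v ∈ W := fun v hv => (Finset.mem_filter.mp hv).1
  have hd1 : ∀ v ∈ Vh, d (J v) = 1 := by
    intro v hv
    have h1 := (Finset.mem_filter.mp hv).2
    have h2 := one_le_deg (hH (J v)) (hirr (J v))
    omega
  by_cases hp : ∃ v ∈ W, pderiv 0 (H (J v)) = 0
  · obtain ⟨v, hv, hp0⟩ := hp
    refine Bd.false fun B x hB hx => ?_
    have h1 := (hclose B x hx v hv).2
    rw [hp0, map_zero, nval_zero] at h1
    linarith
  push Not at hp
  by_cases hM : Vc.Nonempty ∨ ∃ v0 ∈ Vh, ∃ v1 ∈ Vh,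
      eval 0 (pderiv 0 (H (J v0))) * eval 0 (pderiv 1 (H (J v1))) -
        eval 0 (pderiv 1 (H (J v0))) * eval 0 (pderiv 0 (H (J v1))) ≠ 0
  · obtain ⟨η2, θ, C, hη2, hθ, hC, hcore⟩ := core hG hL m S hS Vc Vh
      (fun v hv => hWS (hcW v hv)) (fun v hv => hWS (hhW v hv))
      (Finset.disjoint_filter_filter_not W W _) (fun v => H (J v)) (fun v => d (J v))
      (fun v => e (J v) v) (fun v _ => hH (J v)) hd1 (fun v hv => hW0 v (hun ▸ hv))
      (by rw [hun]; exact hsum2) hM A c hA hc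
    have h1 : Bd m (fun B x => ∃ v ∈ Vc, (P B x ∧
        nval v B (2 * (d (J v) - 1) + (d (J v) - 2)) (eval x (Q (H (J v)) 1 1)) ≤
          1 * B ^ (-η2))) := by
      apply Bd.biUnion
      intro v hv
      exact hthin v (hcW v hv) _ _ (Pool.Agent.K1H30.VX.Q_hom (hH (J v)) 1 1)
        (hQ (J v) (Finset.mem_filter.mp hv).2 (hp v (hcW v hv))) η2 1 hη2 one_pos
    have h2 : Bd m (fun B x => Box B x ∧ (∀ v ∈ Vc ∪ Vh,
        Close v B (H (J v)) (d (J v)) c (A * B ^ (-(e (J v) v))) x) ∧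
        ∀ v ∈ Vc, B ^ (-η2) ≤
          nval v B (2 * (d (J v) - 1) + (d (J v) - 2)) (eval x (Q (H (J v)) 1 1))) :=
      Bd.of hθ hC hcore
    refine Bd.mono (fun B x hB hx => ?_) (h2.or h1)
    by_cases h3 : ∀ v ∈ Vc, B ^ (-η2) ≤
          nval v B (2 * (d (J v) - 1) + (d (J v) - 2)) (eval x (Q (H (J v)) 1 1))
    · left
      exact ⟨hx.1, fun v hv => hclose B x hx v (hun ▸ hv), h3⟩
    · right
      push Not at h3
      obtain ⟨v, hv, h4⟩ := h3
      exact ⟨v, hv, hx, by rw [one_mul]; exact h4.le⟩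
  · push Not at hM
    obtain ⟨hVc0, hdet⟩ := hM
    have hVhW : Vh = W := by rw [← hun, hVc0, Finset.empty_union]
    obtain ⟨B1, hB1⟩ := Filter.eventually_atTop.mp
      (ev_lt (A ^ (insertNone S).card) 1 one_pos one_pos)
    refine Bd.of_large (fun B x _ hx => hx.1) B1 (Bd.false ?_)
    rintro B x hB ⟨hx, hBB⟩
    have hBp : 0 < B := by linarith
    have hWne : W.Nonempty := by
      by_contra h
      rw [Finset.not_nonempty_iff_eq_empty] at h
      rw [h, Finset.sum_empty] at hsum2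
      linarith
    obtain ⟨v0, hv0⟩ := hWne
    have hnz : ∀ v ∈ W, eval 0 (pderiv 0 (H (J v))) ≠ 0 := by
      intro v hv h0
      have h1 := (hclose B x hx v hv).2
      have h2 : (pderiv 0 (H (J v))).IsHomogeneous 0 := by
        have := (hH (J v)).pderiv (i := 0)
        rw [hd1 v (hVhW ▸ hv)] at this
        exact this
      rw [eval_const h2 x, h0, nval_zero] at h1
      linarith
    have hJJ : ∀ v ∈ W, J v = J v0 := by
      intro v hv
      by_contra hne'
      exact hlin (J v) (J v0) hne' (hd1 v (hVhW ▸ hv)) (hd1 v0 (hVhW ▸ hv0)) (hnz v hv)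
        (hnz v0 hv0) (hdet v (hVhW ▸ hv) v0 (hVhW ▸ hv0))
    have h1 := prod_nval hS hBp 1 (hx.2.1 (J v0))
    have h2 : ∏ v ∈ insertNone S, nval v B 1 (eval x (H (J v0))) ≤
        ∏ v ∈ insertNone S, (A * B ^ (-(e (J v0) v))) := by
      apply Finset.prod_le_prod
      · intro v _; exact nval_nonneg v hBp.le 1 _
      · intro v hv
        have := hx.2.2.1 (J v0) v hv
        rwa [hd1 v0 (hVhW ▸ hv0)] at this
    rw [Finset.prod_mul_distrib, Finset.prod_const, ← Real.rpow_sum_of_pos hBp,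
      Finset.sum_neg_distrib] at h2
    have h3 : 2 < ∑ v ∈ insertNone S, e (J v0) v := by
      refine lt_of_lt_of_le hsum2 ?_
      calc ∑ v ∈ W, e (J v) v = ∑ v ∈ W, e (J v0) v :=
            Finset.sum_congr rfl fun v hv => by rw [hJJ v hv]
        _ ≤ _ := Finset.sum_le_sum_of_subset_of_nonneg hWS fun v _ _ => he0 _ _
    have h4 : B ^ 1 * B ^ (-∑ v ∈ insertNone S, e (J v0) v) ≤ B ^ (-(1 : ℝ)) := by
      rw [pow_one]
      nth_rewrite 1 [← Real.rpow_one B]
      rw [← Real.rpow_add hBp]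
      exact Real.rpow_le_rpow_of_exponent_le hB (by linarith)
    have h5 := hB1 B hBB
    have h6 : B ^ 1 * ∏ v ∈ insertNone S, nval v B 1 (eval x (H (J v0))) ≤
        A ^ (insertNone S).card * B ^ (-(1 : ℝ)) := by
      calc _ ≤ B ^ 1 * (A ^ (insertNone S).card * B ^ (-∑ v ∈ insertNone S, e (J v0) v)) :=
            mul_le_mul_of_nonneg_left h2 (by positivity)
        _ = A ^ (insertNone S).card * (B ^ 1 * B ^ (-∑ v ∈ insertNone S, e (J v0) v)) := by ring
        _ ≤ _ := mul_le_mul_of_nonneg_left h4 (by positivity)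
    linarith

end Pool.Agent.K1H59.VX
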