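import Pool.Agent.K1H59.VX.Base

/-!
# Classes of points and their number
-/

set_option autoImplicit false

namespace Pool.Agent.K1H59.VX

open Finset

/-- the number of points is the number of classes times the bound for one class -/
theorem class_total (m : ℕ) (Vc : Finset (Option ℕ)) (hpl : ∀ v ∈ Vc, Pl v) :
    ∃ K : ℝ, 1 ≤ K ∧ ∀ (B : ℝ), 1 ≤ B → ∀ (c4 h : Option ℕ → ℝ),
      (∀ v ∈ Vc, 0 < c4 v ∧ c4 v ≤ 1) → (∀ v ∈ Vc, 0 < h v ∧ h v ≤ 1) →
      ∀ (X : Finset (Fin (m + 2) → ℤ)), (∀ x ∈ X, Box B x) → ∀ N : ℝ, 0 ≤ N →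
      (∀ Y ⊆ X, (∀ x ∈ Y, ∀ y ∈ Y, Agree x y ∧
        ∀ v ∈ Vc, Near v B (c4 v) x y ∧ nval v B 1 (y 1 - x 1) ≤ h v) → (Y.card : ℝ) ≤ N) →
      (X.card : ℝ) ≤ (3 * B) ^ m * (∏ v ∈ Vc, (K / (c4 v ^ 2 * h v))) * N := by
  classical
  have h1 : ∀ v, v ∈ Vc → ∃ C : ℝ, 1 ≤ C ∧ ∀ (B h : ℝ), 1 ≤ B → 0 < h → h ≤ 1 →
    ∃ (f : ℤ → ℤ) (T : Finset ℤ), (∀ a : ℤ, |(a : ℝ)| ≤ B → f a ∈ T) ∧ (T.card : ℝ) ≤ C / h ∧
      ∀ a b : ℤ, f a = f b → nval v B 1 (b - a) ≤ h := fun v hv => classes (hpl v hv)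
  choose! Cv hCv1 hCv using h1
  set K : ℝ := 1 + ∑ v ∈ Vc, Cv v ^ 3 with hK
  have hK1 : 1 ≤ K := by
    rw [hK]
    have : 0 ≤ ∑ v ∈ Vc, Cv v ^ 3 := Finset.sum_nonneg fun v hv => by
      have := hCv1 v hv
      positivity
    linarith
  have hKv : ∀ v ∈ Vc, Cv v ^ 3 ≤ K := by
    intro v hv
    have := Finset.single_le_sum (f := fun v => Cv v ^ 3) (fun v hv => by
      have := hCv1 v hv
      positivity) hv
    linarith
  refine ⟨K, hK1, ?_⟩
  intro B hB c4 h hc4 hh X hX N hN hY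
  have h2 : ∀ v, v ∈ Vc → ∃ (f : ℤ → ℤ) (T : Finset ℤ), (∀ a : ℤ, |(a : ℝ)| ≤ B → f a ∈ T) ∧
      (T.card : ℝ) ≤ Cv v / c4 v ∧ ∀ a b : ℤ, f a = f b → nval v B 1 (b - a) ≤ c4 v :=
    fun v hv => hCv v hv B (c4 v) hB (hc4 v hv).1 (hc4 v hv).2
  have h3 : ∀ v, v ∈ Vc → ∃ (f : ℤ → ℤ) (T : Finset ℤ), (∀ a : ℤ, |(a : ℝ)| ≤ B → f a ∈ T) ∧
      (T.card : ℝ) ≤ Cv v / h v ∧ ∀ a b : ℤ, f a = f b → nval v B 1 (b - a) ≤ h v :=
    fun v hv => hCv v hv B (h v) hB (hh v hv).1 (hh v hv).2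
  choose! f T hf1 hf2 hf3 using h2
  choose! f' T' hf1' hf2' hf3' using h3
  let g : (Fin (m + 2) → ℤ) → (Fin m → ℤ) × ((v : {v // v ∈ Vc}) → ℤ × ℤ × ℤ) := fun x =>
    (fun i => x i.succ.succ, fun v => (f v (x 0), f v (x 1), f' v (x 1)))
  let TT : Finset ((Fin m → ℤ) × ((v : {v // v ∈ Vc}) → ℤ × ℤ × ℤ)) :=
    (Fintype.piFinset (fun _ : Fin m => Finset.Icc (-⌊B⌋) ⌊B⌋)) ×ˢ
    (Fintype.piFinset (fun v : {v // v ∈ Vc} => T v ×ˢ (T v ×ˢ T' v)))
  have hgT : ∀ x ∈ X, g x ∈ TT := by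
    intro x hx
    have hb := hX x hx
    simp only [TT, g, Finset.mem_product, Fintype.mem_piFinset]
    refine ⟨fun i => ?_, fun v => ⟨hf1 v v.2 _ (hb 0), hf1 v v.2 _ (hb 1), hf1' v v.2 _ (hb 1)⟩⟩
    rw [Finset.mem_Icc]
    have h4 := abs_le.mp (hb i.succ.succ)
    constructor
    · have : -(x i.succ.succ) ≤ ⌊B⌋ := Int.le_floor.mpr (by push_cast; linarith)
      omega
    · exact Int.le_floor.mpr h4.2
  have hcard : (X.card : ℝ) = ∑ t ∈ TT, ((X.filter (fun x => g x = t)).card : ℝ) := by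
    rw [Finset.card_eq_sum_card_fiberwise hgT]
    push_cast
    rfl
  have hfib : ∀ t ∈ TT, ((X.filter (fun x => g x = t)).card : ℝ) ≤ N := by
    intro t _
    apply hY _ (Finset.filter_subset _ _)
    intro x hx y hy
    have hxy : g x = g y := (Finset.mem_filter.mp hx).2.trans (Finset.mem_filter.mp hy).2.symm
    have e1 : (g x).1 = (g y).1 := congrArg Prod.fst hxy
    have e2 : (g x).2 = (g y).2 := congrArg Prod.snd hxy
    refine ⟨fun i => congrFun e1 i, fun v hv => ?_⟩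
    have e3 : (f v (x 0), f v (x 1), f' v (x 1)) = (f v (y 0), f v (y 1), f' v (y 1)) :=
      congrFun e2 ⟨v, hv⟩
    have e4 : f v (x 0) = f v (y 0) := congrArg Prod.fst e3
    have e5 : f v (x 1) = f v (y 1) := congrArg (fun t => t.2.1) e3
    have e6 : f' v (x 1) = f' v (y 1) := congrArg (fun t => t.2.2) e3
    exact ⟨⟨hf3 v hv _ _ e4, hf3 v hv _ _ e5⟩, hf3' v hv _ _ e6⟩
  have hTT : (TT.card : ℝ) ≤ (3 * B) ^ m * (∏ v ∈ Vc, (K / (c4 v ^ 2 * h v))) := by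
    simp only [TT]
    rw [Finset.card_product, Fintype.card_piFinset, Fintype.card_piFinset]
    push_cast
    apply mul_le_mul
    · rw [Finset.prod_const, Finset.card_univ, Fintype.card_fin]
      apply pow_le_pow_left₀ (by positivity)
      rw [Int.card_Icc]
      have h5 : (⌊B⌋ : ℝ) ≤ B := Int.floor_le _
      have h6 : (0 : ℤ) ≤ ⌊B⌋ := Int.floor_nonneg.mpr (by linarith)
      have h7 : (((⌊B⌋ + 1 - -⌊B⌋).toNat : ℤ) : ℝ) = 2 * (⌊B⌋ : ℝ) + 1 := by
        rw [Int.toNat_of_nonneg (by omega)]; push_cast; ring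
      have h8 : ((⌊B⌋ + 1 - -⌊B⌋).toNat : ℝ) = 2 * (⌊B⌋ : ℝ) + 1 := by exact_mod_cast h7
      rw [h8]
      linarith
    · rw [← Finset.prod_coe_sort Vc (fun v => K / (c4 v ^ 2 * h v))]
      apply Finset.prod_le_prod
      · intro v _; positivity
      · intro v _
        rw [Finset.card_product, Finset.card_product]
        push_cast
        have hc := (hc4 v v.2).1
        have hhv := (hh v v.2).1
        have h4 := hf2 v v.2
        have h5 := hf2' v v.2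
        calc ((T v).card : ℝ) * ((T v).card * (T' v).card) ≤
            (Cv v / c4 v) * ((Cv v / c4 v) * (Cv v / h v)) :=
              mul_le_mul h4 (mul_le_mul h4 h5 (by positivity) ((Nat.cast_nonneg _).trans h4))
                (by positivity) ((Nat.cast_nonneg _).trans h4)
          _ = Cv v ^ 3 / (c4 v ^ 2 * h v) := by ring
          _ ≤ _ := div_le_div_of_nonneg_right (hKv v v.2) (by positivity)
    · exact Finset.prod_nonneg fun v _ => Nat.cast_nonneg _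
    · exact pow_nonneg (by linarith) _
  calc (X.card : ℝ) = ∑ t ∈ TT, ((X.filter (fun x => g x = t)).card : ℝ) := hcard
    _ ≤ ∑ t ∈ TT, N := Finset.sum_le_sum hfib
    _ = TT.card * N := by rw [Finset.sum_const, nsmul_eq_mul]
    _ ≤ _ := mul_le_mul_of_nonneg_right hTT hN

/-- one class -/
theorem fiber {m : ℕ} {S : Finset ℕ} (hS : ∀ p ∈ S, p.Prime) {B : ℝ} (hB : 1 ≤ B)
    {Y : Finset (Fin (m + 2) → ℤ)} (hag : ∀ x ∈ Y, ∀ y ∈ Y, Agree x y)
    {k : Option ℕ → ℝ} (hk : ∀ v ∈ insertNone S, ∀ x ∈ Y, ∀ y ∈ Y, ∀ z ∈ Y,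
      nval v B 2 (det3 x y z) ≤ k v) (hprod : B ^ 2 * ∏ v ∈ insertNone S, k v < 1) :
    (∀ x ∈ Y, ∀ y ∈ Y, ∀ z ∈ Y, det3 x y z = 0) ∧
    (Y.image (fun x => (x 0, x 1))).card = Y.card := by
  classical
  have hB0 : 0 < B := by linarith
  constructor
  · intro x hx y hy z hz
    by_contra hne
    have h1 := prod_nval hS hB0 2 hne
    have h2 : ∏ v ∈ insertNone S, nval v B 2 (det3 x y z) ≤ ∏ v ∈ insertNone S, k v :=
      Finset.prod_le_prod (fun v _ => nval_nonneg v hB0.le 2 _) fun v hv => hk v hv x hx y hy z hz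
    have h3 := mul_le_mul_of_nonneg_left h2 (by positivity : 0 ≤ B ^ 2)
    linarith
  · apply Finset.card_image_of_injOn
    intro x hx y hy hxy
    simp only [Prod.mk.injEq] at hxy
    have h1 := hag x hx y hy
    funext i
    refine Fin.cases hxy.1 (fun i => Fin.cases hxy.2 (fun i => h1 i) i) i

/-- linear forms: differences -/
theorem lin_diff {m : ℕ} {F : MvPolynomial (Fin (m + 2)) ℤ} (hF : F.IsHomogeneous 1)
    {x w : Fin (m + 2) → ℤ} (hw : Agree x w) :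
    MvPolynomial.eval w F - MvPolynomial.eval x F =
      MvPolynomial.eval 0 (MvPolynomial.pderiv 0 F) * (w 0 - x 0) +
      MvPolynomial.eval 0 (MvPolynomial.pderiv 1 F) * (w 1 - x 1) := by
  have hE : ∑ i, MvPolynomial.X i * MvPolynomial.pderiv i F = F := by
    have := hF.sum_X_mul_pderiv
    rw [one_smul] at this
    exact this
  have hdi : ∀ i, ∃ a : ℤ, MvPolynomial.pderiv i F = MvPolynomial.C a := fun i =>
    ⟨_, (MvPolynomial.totalDegree_eq_zero_iff_eq_C.mp (Nat.le_zero.mp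
      (show (MvPolynomial.pderiv i F).IsHomogeneous 0 from hF.pderiv).totalDegree_le))⟩
  choose a ha using hdi
  have hev : ∀ w : Fin (m + 2) → ℤ, MvPolynomial.eval w F = ∑ i, w i * a i := by
    intro w
    conv_lhs => rw [← hE]
    rw [map_sum]
    refine Finset.sum_congr rfl fun i _ => ?_
    rw [map_mul, MvPolynomial.eval_X, ha, MvPolynomial.eval_C]
  rw [hev, hev, ha 0, ha 1, MvPolynomial.eval_C, MvPolynomial.eval_C, Fin.sum_univ_succ,
    Fin.sum_univ_succ, Fin.sum_univ_succ (n := m + 1), Fin.sum_univ_succ (n := m)]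
  have h3 : ∑ i : Fin m, w i.succ.succ * a i.succ.succ =
      ∑ i : Fin m, x i.succ.succ * a i.succ.succ :=
    Finset.sum_congr rfl fun i _ => by rw [hw i]
  have e1 : (Fin.succ 0 : Fin (m + 2)) = 1 := rfl
  rw [h3, e1]
  ring

/-- the number of points of a box -/
theorem box_card {n : ℕ} {B : ℝ} (hB : 1 ≤ B) (X : Finset (Fin n → ℤ)) (hX : ∀ x ∈ X, Box B x) :
    (X.card : ℝ) ≤ (3 * B) ^ n := by
  classical
  have h1 : X ⊆ Fintype.piFinset (fun _ : Fin n => Finset.Icc (-⌊B⌋) ⌊B⌋) := by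
    intro x hx
    rw [Fintype.mem_piFinset]
    intro i
    have h4 := abs_le.mp (hX x hx i)
    rw [Finset.mem_Icc]
    constructor
    · have : -(x i) ≤ ⌊B⌋ := Int.le_floor.mpr (by push_cast; linarith)
      omega
    · exact Int.le_floor.mpr h4.2
  have h2 : (X.card : ℝ) ≤ ((Fintype.piFinset (fun _ : Fin n =>
      Finset.Icc (-⌊B⌋) ⌊B⌋)).card : ℝ) := by exact_mod_cast Finset.card_le_card h1
  refine h2.trans ?_
  rw [Fintype.card_piFinset]
  push_cast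
  rw [Finset.prod_const, Finset.card_univ, Fintype.card_fin]
  apply pow_le_pow_left₀ (by positivity)
  rw [Int.card_Icc]
  have h5 : (⌊B⌋ : ℝ) ≤ B := Int.floor_le _
  have h6 : (0 : ℤ) ≤ ⌊B⌋ := Int.floor_nonneg.mpr (by linarith)
  have h7 : (((⌊B⌋ + 1 - -⌊B⌋).toNat : ℤ) : ℝ) = 2 * (⌊B⌋ : ℝ) + 1 := by
    rw [Int.toNat_of_nonneg (by omega)]; push_cast; ring
  have h8 : ((⌊B⌋ + 1 - -⌊B⌋).toNat : ℝ) = 2 * (⌊B⌋ : ℝ) + 1 := by exact_mod_cast h7
  rw [h8]
  linarith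

/-- linear forms: the determinant of three points -/
theorem det_linear {m : ℕ} {F : MvPolynomial (Fin (m + 2)) ℤ} (hF : F.IsHomogeneous 1)
    {v : Option ℕ} (hv : Pl v) {B : ℝ} (hB : 1 ≤ B) {c ε : ℝ} (hc : 0 < c)
    {x y z : Fin (m + 2) → ℤ} (hx : Box B x) (hy : Box B y) (hz : Box B z)
    (hxy : Agree x y) (hxz : Agree x z)
    (h1 : Close v B F 1 c ε x) (h2 : Close v B F 1 c ε y) (h3 : Close v B F 1 c ε z) :
    nval v B 2 (det3 x y z) ≤ 8 / c * ε := by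
  have hB0 : 0 < B := by linarith
  -- the coefficients
  have hd0 : (MvPolynomial.pderiv 0 F).IsHomogeneous 0 := hF.pderiv
  have hd1 : (MvPolynomial.pderiv 1 F).IsHomogeneous 0 := hF.pderiv
  obtain ⟨a0, ha0⟩ : ∃ a0 : ℤ, MvPolynomial.pderiv 0 F = MvPolynomial.C a0 :=
    ⟨_, (MvPolynomial.totalDegree_eq_zero_iff_eq_C.mp (Nat.le_zero.mp hd0.totalDegree_le))⟩
  obtain ⟨a1, ha1⟩ : ∃ a1 : ℤ, MvPolynomial.pderiv 1 F = MvPolynomial.C a1 :=
    ⟨_, (MvPolynomial.totalDegree_eq_zero_iff_eq_C.mp (Nat.le_zero.mp hd1.totalDegree_le))⟩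
  have hdiff : ∀ w : Fin (m + 2) → ℤ, Agree x w → MvPolynomial.eval w F - MvPolynomial.eval x F =
      a0 * (w 0 - x 0) + a1 * (w 1 - x 1) := by
    intro w hw
    have hE : ∑ i, MvPolynomial.X i * MvPolynomial.pderiv i F = F := by
      have := hF.sum_X_mul_pderiv
      rw [one_smul] at this
      exact this
    have hdi : ∀ i, ∃ a : ℤ, MvPolynomial.pderiv i F = MvPolynomial.C a := fun i =>
      ⟨_, (MvPolynomial.totalDegree_eq_zero_iff_eq_C.mp (Nat.le_zero.mp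
        (show (MvPolynomial.pderiv i F).IsHomogeneous 0 from hF.pderiv).totalDegree_le))⟩
    choose a ha using hdi
    have hev : ∀ w : Fin (m + 2) → ℤ, MvPolynomial.eval w F = ∑ i, w i * a i := by
      intro w
      conv_lhs => rw [← hE]
      rw [map_sum]
      refine Finset.sum_congr rfl fun i _ => ?_
      rw [map_mul, MvPolynomial.eval_X, ha, MvPolynomial.eval_C]
    have h00 : a 0 = a0 := MvPolynomial.C_injective _ _ ((ha 0).symm.trans ha0)
    have h11 : a 1 = a1 := MvPolynomial.C_injective _ _ ((ha 1).symm.trans ha1)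
    rw [hev, hev, Fin.sum_univ_succ, Fin.sum_univ_succ, Fin.sum_univ_succ (n := m + 1),
      Fin.sum_univ_succ (n := m)]
    have h3 : ∑ i : Fin m, w i.succ.succ * a i.succ.succ =
        ∑ i : Fin m, x i.succ.succ * a i.succ.succ :=
      Finset.sum_congr rfl fun i _ => by rw [hw i]
    have e1 : (Fin.succ 0 : Fin (m + 2)) = 1 := rfl
    rw [h3, e1, h00, h11]
    ring
  have e0 : MvPolynomial.eval x (MvPolynomial.pderiv 0 F) = a0 := by rw [ha0]; simp
  have hc0 : c ≤ nval v B 0 a0 := by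
    have := h1.2
    rw [e0] at this
    exact this
  have e1 : det3 x y z * a0 =
      (MvPolynomial.eval y F - MvPolynomial.eval x F) * (z 1 - x 1) -
      (MvPolynomial.eval z F - MvPolynomial.eval x F) * (y 1 - x 1) := by
    rw [hdiff y hxy, hdiff z hxz]
    unfold det3
    ring
  have h4 : ∀ w : Fin (m + 2) → ℤ, Close v B F 1 c ε w →
      nval v B 1 (MvPolynomial.eval w F - MvPolynomial.eval x F) ≤ 2 * ε := by
    intro w hw
    have := nval_sub_le hv hB0.le 1 (MvPolynomial.eval w F) (MvPolynomial.eval x F)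
    have h5 := hw.1
    have h6 := h1.1
    linarith
  have h5 : ∀ w : Fin (m + 2) → ℤ, Box B w → nval v B 1 (w 1 - x 1) ≤ 2 := by
    intro w hw
    apply nval_le hv hB0 one_le_two
    rw [pow_one]
    push_cast
    have := hw 1
    have := hx 1
    calc |(w 1 : ℝ) - x 1| ≤ |(w 1 : ℝ)| + |(x 1 : ℝ)| := abs_sub _ _
      _ ≤ 2 * B := by linarith
  have hε : 0 ≤ ε := (nval_nonneg v hB0.le 1 _).trans h1.1
  have h6 : nval v B 2 (det3 x y z) * nval v B 0 a0 ≤ 8 * ε := by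
    rw [← nval_mul hv, e1]
    have h7 : ∀ w w' : Fin (m + 2) → ℤ, Close v B F 1 c ε w → Box B w' → nval v B (1 + 1)
        ((MvPolynomial.eval w F - MvPolynomial.eval x F) * (w' 1 - x 1)) ≤ 2 * ε * 2 := by
      intro w w' hw hw'
      rw [nval_mul hv]
      exact mul_le_mul (h4 w hw) (h5 w' hw') (nval_nonneg v hB0.le 1 _) (by positivity)
    calc _ ≤ 2 * ε * 2 + 2 * ε * 2 :=
          (nval_sub_le hv hB0.le _ _ _).trans (add_le_add (h7 y z h2 hz) (h7 z y h3 hy))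
      _ = 8 * ε := by ring
  have h7 : nval v B 2 (det3 x y z) * c ≤ 8 * ε :=
    (mul_le_mul_of_nonneg_left hc0 (nval_nonneg v hB0.le 2 _)).trans h6
  rw [div_mul_eq_mul_div, le_div_iff₀ hc]
  exact h7

end Pool.Agent.K1H59.VX
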