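import Pool.Agent.K1H59.VX.Stm

/-!
# Restriction of a polynomial to a line over a normed field
-/

set_option autoImplicit false

namespace Pool.Agent.K1H59.VX

open Finset

section

variable {K : Type*} [NormedField K] {n : ℕ}

/-- the restriction of `F` to the line `z + t b` -/
noncomputable def lin (F : MvPolynomial (Fin n) ℤ) (z b : Fin n → K) : Polynomial K :=
  MvPolynomial.aeval (fun i => Polynomial.C (z i) + Polynomial.C (b i) * Polynomial.X) F

theorem lin_eval (F : MvPolynomial (Fin n) ℤ) (z b : Fin n → K) (t : K) :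
    (lin F z b).eval t = MvPolynomial.aeval (fun i => z i + b i * t) F := by
  unfold lin
  induction F using MvPolynomial.induction_on with
  | C a => simp
  | add p q hp hq => rw [map_add, map_add, Polynomial.eval_add, hp, hq]
  | mul_X p i hp =>
    rw [map_mul, map_mul, Polynomial.eval_mul, hp, MvPolynomial.aeval_X, MvPolynomial.aeval_X]
    simp

theorem lin_deriv (F : MvPolynomial (Fin n) ℤ) (z b : Fin n → K) :
    Polynomial.derivative (lin F z b) =
      ∑ i, Polynomial.C (b i) * lin (MvPolynomial.pderiv i F) z b := by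
  unfold lin
  induction F using MvPolynomial.induction_on with
  | C a => simp
  | add p q hp hq =>
    rw [map_add, Polynomial.derivative_add, hp, hq, ← Finset.sum_add_distrib]
    refine Finset.sum_congr rfl fun i _ => ?_
    rw [map_add, map_add]
    ring
  | mul_X p i hp =>
    rw [map_mul, Polynomial.derivative_mul, hp, MvPolynomial.aeval_X]
    have h1 : ∀ j, MvPolynomial.pderiv j (p * MvPolynomial.X i) =
        MvPolynomial.pderiv j p * MvPolynomial.X i + p * (if i = j then 1 else 0) := by
      intro j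
      rw [MvPolynomial.pderiv_mul, MvPolynomial.pderiv_X]
      congr 2
      by_cases h : i = j
      · subst h; simp
      · rw [if_neg h, Pi.single_eq_of_ne (by exact fun h' => h h')]
    have h2 : ∀ j, Polynomial.C (b j) * (MvPolynomial.aeval (fun i => Polynomial.C (z i) +
        Polynomial.C (b i) * Polynomial.X) (MvPolynomial.pderiv j (p * MvPolynomial.X i)) :
          Polynomial K) =
        Polynomial.C (b j) * MvPolynomial.aeval (fun i => Polynomial.C (z i) +
        Polynomial.C (b i) * Polynomial.X) (MvPolynomial.pderiv j p) *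
          (Polynomial.C (z i) + Polynomial.C (b i) * Polynomial.X) +
        (if i = j then MvPolynomial.aeval (fun i => Polynomial.C (z i) +
        Polynomial.C (b i) * Polynomial.X) p * Polynomial.C (b j) else 0) := by
      intro j
      rw [h1, map_add, map_mul, map_mul, MvPolynomial.aeval_X]
      split_ifs with h
      · rw [map_one]; ring
      · rw [map_zero]; ring
    simp_rw [h2]
    rw [Finset.sum_add_distrib, Finset.sum_ite_eq, if_pos (Finset.mem_univ i), ← Finset.sum_mul]
    simp

theorem lin_bound (F : MvPolynomial (Fin n) ℤ) : ∃ (M : ℝ) (D : ℕ), 1 ≤ M ∧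
    ∀ z b : Fin n → K, ‖z‖ ≤ 1 → ‖b‖ ≤ 1 →
      (lin F z b).natDegree ≤ D ∧ ∀ k, ‖(lin F z b).coeff k‖ ≤ M := by
  unfold lin
  induction F using MvPolynomial.induction_on with
  | C a =>
    refine ⟨max 1 ‖(a : K)‖, 0, le_max_left _ _, fun z b _ _ => ⟨by simp, fun k => ?_⟩⟩
    rw [MvPolynomial.aeval_C]
    rcases Nat.eq_zero_or_pos k with rfl | hk
    · simp
    · have : (algebraMap ℤ (Polynomial K) a).coeff k = 0 := by
        rw [eq_intCast, ← Polynomial.C_eq_intCast, Polynomial.coeff_C, if_neg hk.ne']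
      rw [this, norm_zero]
      positivity
  | add p q hp hq =>
    obtain ⟨M1, D1, h1, hp⟩ := hp
    obtain ⟨M2, D2, h2, hq⟩ := hq
    refine ⟨M1 + M2, max D1 D2, by linarith, fun z b hz hb => ⟨?_, fun k => ?_⟩⟩
    · rw [map_add]
      exact (Polynomial.natDegree_add_le _ _).trans (max_le_max (hp z b hz hb).1 (hq z b hz hb).1)
    · rw [map_add, Polynomial.coeff_add]
      exact (norm_add_le _ _).trans (add_le_add ((hp z b hz hb).2 k) ((hq z b hz hb).2 k))
  | mul_X p i hp =>
    obtain ⟨M1, D1, h1, hp⟩ := hp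
    refine ⟨M1 + M1, D1 + 1, by linarith, fun z b hz hb => ⟨?_, fun k => ?_⟩⟩
    · rw [map_mul, MvPolynomial.aeval_X]
      refine (Polynomial.natDegree_mul_le).trans (Nat.add_le_add (hp z b hz hb).1 ?_)
      refine (Polynomial.natDegree_add_le _ _).trans (max_le (by simp) ?_)
      exact (Polynomial.natDegree_C_mul_le _ _).trans Polynomial.natDegree_X_le
    · rw [map_mul, MvPolynomial.aeval_X, mul_add, Polynomial.coeff_add, ← mul_assoc,
        Polynomial.coeff_mul_C]
      have hzi : ‖z i‖ ≤ 1 := (norm_le_pi_norm z i).trans hz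
      have hbi : ‖b i‖ ≤ 1 := (norm_le_pi_norm b i).trans hb
      refine (norm_add_le _ _).trans (add_le_add ?_ ?_)
      · rw [norm_mul]
        calc _ ≤ M1 * 1 := mul_le_mul ((hp z b hz hb).2 k) hzi (norm_nonneg _) (by linarith)
          _ = M1 := mul_one _
      · cases k with
        | zero => simp; linarith
        | succ k =>
          rw [Polynomial.coeff_mul_X, Polynomial.coeff_mul_C, norm_mul]
          calc _ ≤ M1 * 1 := mul_le_mul ((hp z b hz hb).2 k) hbi (norm_nonneg _) (by linarith)
            _ = M1 := mul_one _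

theorem lin_coeff_zero (F : MvPolynomial (Fin n) ℤ) (z b : Fin n → K) :
    (lin F z b).coeff 0 = MvPolynomial.aeval z F := by
  rw [Polynomial.coeff_zero_eq_eval_zero, lin_eval]
  simp

theorem lin_coeff_one (F : MvPolynomial (Fin n) ℤ) (z b : Fin n → K) :
    (lin F z b).coeff 1 = ∑ i, b i * MvPolynomial.aeval z (MvPolynomial.pderiv i F) := by
  have h1 : (Polynomial.derivative (lin F z b)).coeff 0 = (lin F z b).coeff 1 := by
    rw [Polynomial.coeff_derivative]; simp
  rw [← h1, lin_deriv, Polynomial.finsetSum_coeff]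
  refine Finset.sum_congr rfl fun i _ => ?_
  rw [Polynomial.coeff_C_mul, lin_coeff_zero]

theorem lin_coeff_two (F : MvPolynomial (Fin n) ℤ) (z b : Fin n → K) :
    2 * (lin F z b).coeff 2 = ∑ i, b i * ∑ k, b k *
      MvPolynomial.aeval z (MvPolynomial.pderiv k (MvPolynomial.pderiv i F)) := by
  have h1 : (Polynomial.derivative (lin F z b)).coeff 1 = 2 * (lin F z b).coeff 2 := by
    rw [Polynomial.coeff_derivative]; push_cast; ring
  rw [← h1, lin_deriv, Polynomial.finsetSum_coeff]
  refine Finset.sum_congr rfl fun i _ => ?_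
  rw [Polynomial.coeff_C_mul, lin_coeff_one]

/-- values on the unit ball are bounded -/
theorem aeval_bound (F : MvPolynomial (Fin n) ℤ) : ∃ M : ℝ, 1 ≤ M ∧
    ∀ z : Fin n → K, ‖z‖ ≤ 1 → ‖MvPolynomial.aeval z F‖ ≤ M := by
  obtain ⟨M, D, hM, h⟩ := lin_bound (K := K) F
  refine ⟨M, hM, fun z hz => ?_⟩
  have := (h z 0 hz (by simp)).2 0
  rwa [lin_coeff_zero] at this

/-- expansion of the polynomial of bounded degree -/
theorem eval_split (P : Polynomial K) (D : ℕ) (hD : P.natDegree ≤ D) (t : K) :
    P.eval t = P.coeff 0 + P.coeff 1 * t + P.coeff 2 * t ^ 2 +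
      ∑ k ∈ range D, P.coeff (k + 3) * t ^ (k + 3) := by
  rw [Polynomial.eval_eq_sum_range' (n := D + 3) (by omega)]
  rw [Finset.sum_range_succ', Finset.sum_range_succ', Finset.sum_range_succ']
  show (∑ k ∈ range D, P.coeff (k + 3) * t ^ (k + 3)) + P.coeff 2 * t ^ 2 + P.coeff 1 * t ^ 1 +
    P.coeff 0 * t ^ 0 = _
  rw [pow_one, pow_zero, mul_one]
  generalize (∑ k ∈ range D, P.coeff (k + 3) * t ^ (k + 3)) = s
  ring

end

end Pool.Agent.K1H59.VX
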