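import Pool.Agent.K1H59.VX.Lin

/-!
# Local lemmas: two or three points near a hypersurface in a plane section
-/

set_option autoImplicit false

namespace Pool.Agent.K1H59.VX

open Finset

section

variable {K : Type*} [NormedField K] {m : ℕ}

/-- the vector `(a, b, 0, …, 0)` -/
def v2 (a b : K) : Fin (m + 2) → K := Fin.cons a (Fin.cons b 0)

theorem v2_zero (a b : K) : (v2 a b : Fin (m + 2) → K) 0 = a := rfl

theorem v2_one (a b : K) : (v2 a b : Fin (m + 2) → K) 1 = b := rfl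

theorem v2_ss (a b : K) (i : Fin m) : (v2 a b : Fin (m + 2) → K) i.succ.succ = 0 := rfl

theorem sum_v2 (a b : K) (g : Fin (m + 2) → K) :
    ∑ i, (v2 a b : Fin (m + 2) → K) i * g i = a * g 0 + b * g 1 := by
  rw [Fin.sum_univ_succ, Fin.sum_univ_succ]
  simp only [v2_ss, zero_mul, Finset.sum_const_zero, add_zero]
  rfl

theorem norm_v2_le {a b : K} {r : ℝ} (hr : 0 ≤ r) (ha : ‖a‖ ≤ r) (hb : ‖b‖ ≤ r) :
    ‖(v2 a b : Fin (m + 2) → K)‖ ≤ r := by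
  rw [pi_norm_le_iff_of_nonneg hr]
  intro i
  refine Fin.cases ?_ (fun i => Fin.cases ?_ (fun i => ?_) i) i
  · exact ha
  · exact hb
  · rw [v2_ss, norm_zero]; exact hr

theorem agree_eq {z z' : Fin (m + 2) → K} (h : ∀ i : Fin m, z i.succ.succ = z' i.succ.succ)
    {t : K} {b0 b1 : K} (h0 : z' 0 - z 0 = b0 * t) (h1 : z' 1 - z 1 = b1 * t) :
    z' = fun i => z i + (v2 b0 b1 : Fin (m + 2) → K) i * t := by
  funext i
  refine Fin.cases ?_ (fun i => Fin.cases ?_ (fun i => ?_) i) i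
  · rw [v2_zero, ← h0]; ring
  · show z' 1 = z 1 + b1 * t
    rw [← h1]; ring
  · rw [v2_ss, h i]; ring

/-- the first order expansion -/
theorem first_order (F : MvPolynomial (Fin (m + 2)) ℤ) : ∃ M : ℝ, 1 ≤ M ∧
    ∀ (z z' : Fin (m + 2) → K) (ρ : ℝ), ‖z‖ ≤ 1 → (∀ i : Fin m, z i.succ.succ = z' i.succ.succ) →
      ρ ≤ 1 → ‖z' 0 - z 0‖ ≤ ρ → ‖z' 1 - z 1‖ ≤ ρ →
      ‖MvPolynomial.aeval z' F - MvPolynomial.aeval z F -
        ((z' 0 - z 0) * MvPolynomial.aeval z (MvPolynomial.pderiv 0 F) +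
          (z' 1 - z 1) * MvPolynomial.aeval z (MvPolynomial.pderiv 1 F))‖ ≤ M * ρ ^ 2 := by
  obtain ⟨M, D, hM, h⟩ := lin_bound (K := K) F
  refine ⟨(D + 1) * M, by nlinarith [(Nat.cast_nonneg D : (0 : ℝ) ≤ D)], ?_⟩
  intro z z' ρ hz hag hρ h0 h1
  have hρ0 : 0 ≤ ρ := (norm_nonneg _).trans h0
  -- the direction
  have key : ∀ (t b0 b1 : K), ‖t‖ ≤ ρ → ‖b0‖ ≤ 1 → ‖b1‖ ≤ 1 → z' 0 - z 0 = b0 * t →
      z' 1 - z 1 = b1 * t → ‖MvPolynomial.aeval z' F - MvPolynomial.aeval z F -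
        ((z' 0 - z 0) * MvPolynomial.aeval z (MvPolynomial.pderiv 0 F) +
          (z' 1 - z 1) * MvPolynomial.aeval z (MvPolynomial.pderiv 1 F))‖ ≤
        (D + 1) * M * ρ ^ 2 := by
    intro t b0 b1 ht hb0 hb1 he0 he1
    have hb : ‖(v2 b0 b1 : Fin (m + 2) → K)‖ ≤ 1 := norm_v2_le zero_le_one hb0 hb1
    obtain ⟨hd, hc⟩ := h z (v2 b0 b1) hz hb
    have e1 : MvPolynomial.aeval z' F = (lin F z (v2 b0 b1)).eval t := by
      rw [lin_eval]
      congr 1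
      congr 1
      exact agree_eq hag he0 he1
    have ht1 : ‖t‖ ≤ 1 := ht.trans hρ
    rw [e1, eval_split _ D hd, lin_coeff_zero, lin_coeff_one, sum_v2, he0, he1]
    have e2 : ∀ s c : K, MvPolynomial.aeval z F + (b0 * MvPolynomial.aeval z
        (MvPolynomial.pderiv 0 F) + b1 * MvPolynomial.aeval z (MvPolynomial.pderiv 1 F)) * t +
        c * t ^ 2 + s - MvPolynomial.aeval z F - (b0 * t * MvPolynomial.aeval z
        (MvPolynomial.pderiv 0 F) + b1 * t * MvPolynomial.aeval z (MvPolynomial.pderiv 1 F)) =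
        c * t ^ 2 + s := fun s c => by ring
    rw [e2]
    have h3 : ‖t‖ ^ 2 ≤ ρ ^ 2 := pow_le_pow_left₀ (norm_nonneg _) ht 2
    have h4 : ‖(lin F z (v2 b0 b1)).coeff 2 * t ^ 2‖ ≤ M * ρ ^ 2 := by
      rw [norm_mul, norm_pow]
      exact mul_le_mul (hc 2) h3 (by positivity) (by linarith)
    have h5 : ‖∑ k ∈ range D, (lin F z (v2 b0 b1)).coeff (k + 3) * t ^ (k + 3)‖ ≤
        ∑ k ∈ range D, M * ρ ^ 2 := by
      refine norm_sum_le_of_le _ fun k _ => ?_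
      rw [norm_mul, norm_pow]
      refine mul_le_mul (hc _) ?_ (by positivity) (by linarith)
      calc ‖t‖ ^ (k + 3) ≤ ‖t‖ ^ 2 := pow_le_pow_of_le_one (norm_nonneg _) ht1 (by omega)
        _ ≤ ρ ^ 2 := h3
    rw [Finset.sum_const, card_range, nsmul_eq_mul] at h5
    calc _ ≤ M * ρ ^ 2 + D * (M * ρ ^ 2) := (norm_add_le _ _).trans (add_le_add h4 h5)
      _ = (D + 1) * M * ρ ^ 2 := by ring
  rcases le_total ‖z' 0 - z 0‖ ‖z' 1 - z 1‖ with hle | hle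
  · by_cases hz1 : z' 1 - z 1 = 0
    · have hz0 : z' 0 - z 0 = 0 := by
        rw [hz1, norm_zero] at hle
        exact norm_le_zero_iff.mp hle
      exact key 0 0 0 (by rw [norm_zero]; exact hρ0) (by simp) (by simp) (by rw [hz0]; ring)
        (by rw [hz1]; ring)
    · have hpos : 0 < ‖z' 1 - z 1‖ := norm_pos_iff.mpr hz1
      exact key (z' 1 - z 1) ((z' 0 - z 0) / (z' 1 - z 1)) 1 h1
        (by rw [norm_div, div_le_one hpos]; exact hle) (by simp) (by field_simp) (by ring)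
  · by_cases hz0 : z' 0 - z 0 = 0
    · have hz1 : z' 1 - z 1 = 0 := by
        rw [hz0, norm_zero] at hle
        exact norm_le_zero_iff.mp hle
      exact key 0 0 0 (by rw [norm_zero]; exact hρ0) (by simp) (by simp) (by rw [hz0]; ring)
        (by rw [hz1]; ring)
    · have hpos : 0 < ‖z' 0 - z 0‖ := norm_pos_iff.mpr hz0
      exact key (z' 0 - z 0) 1 ((z' 1 - z 1) / (z' 0 - z 0)) h0
        (by simp) (by rw [norm_div, div_le_one hpos]; exact hle) (by ring) (by field_simp)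

/-- two points of a plane section near the hypersurface -/
theorem local_A (F : MvPolynomial (Fin (m + 2)) ℤ) {c3 : ℝ} (hc3 : 0 < c3) :
    ∃ C c4 : ℝ, 1 ≤ C ∧ 0 < c4 ∧ c4 ≤ 1 ∧
    ∀ (z z' : Fin (m + 2) → K) (ε : ℝ), ‖z‖ ≤ 1 → (∀ i : Fin m, z i.succ.succ = z' i.succ.succ) →
      c3 ≤ ‖MvPolynomial.aeval z (MvPolynomial.pderiv 0 F)‖ →
      ‖MvPolynomial.aeval z F‖ ≤ ε → ‖MvPolynomial.aeval z' F‖ ≤ ε →
      ‖z' 0 - z 0‖ ≤ c4 → ‖z' 1 - z 1‖ ≤ c4 → ‖z' 0 - z 0‖ ≤ C * (‖z' 1 - z 1‖ + ε) := by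
  obtain ⟨M, hM, h⟩ := first_order (K := K) F
  obtain ⟨M1, hM1, h1⟩ := aeval_bound (K := K) (MvPolynomial.pderiv 1 F)
  have hM0 : 0 < M := by linarith
  set c4 : ℝ := min 1 (c3 / (2 * M)) with hc4
  have hc40 : 0 < c4 := lt_min one_pos (by positivity)
  have hc41 : M * c4 ≤ c3 / 2 := by
    have : c4 ≤ c3 / (2 * M) := min_le_right _ _
    calc M * c4 ≤ M * (c3 / (2 * M)) := mul_le_mul_of_nonneg_left this hM0.le
      _ = c3 / 2 := by field_simp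
  refine ⟨max 1 (2 / c3 * (M1 + 2)), c4, le_max_left _ _, hc40, min_le_left _ _, ?_⟩
  intro z z' ε hz hag hg hF hF' hd0 hd1
  have hε : 0 ≤ ε := (norm_nonneg _).trans hF
  rcases le_total ‖z' 0 - z 0‖ ‖z' 1 - z 1‖ with hle | hle
  · calc ‖z' 0 - z 0‖ ≤ ‖z' 1 - z 1‖ := hle
      _ ≤ 1 * (‖z' 1 - z 1‖ + ε) := by linarith
      _ ≤ _ := mul_le_mul_of_nonneg_right (le_max_left _ _) (by positivity)
  · have h2 := h z z' ‖z' 0 - z 0‖ hz hag (hd0.trans (min_le_left _ _)) le_rfl hle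
    set a0 := MvPolynomial.aeval z (MvPolynomial.pderiv 0 F) with ha0
    set a1 := MvPolynomial.aeval z (MvPolynomial.pderiv 1 F) with ha1
    set u := z' 0 - z 0 with hu
    set w := z' 1 - z 1 with hw
    have h3 : ‖u * a0‖ ≤ ‖MvPolynomial.aeval z' F‖ + ‖MvPolynomial.aeval z F‖ + ‖w * a1‖ +
        M * ‖u‖ ^ 2 := by
      have e : u * a0 = MvPolynomial.aeval z' F - MvPolynomial.aeval z F - w * a1 -
        (MvPolynomial.aeval z' F - MvPolynomial.aeval z F - (u * a0 + w * a1)) := by ring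
      calc ‖u * a0‖ = ‖MvPolynomial.aeval z' F - MvPolynomial.aeval z F - w * a1 -
        (MvPolynomial.aeval z' F - MvPolynomial.aeval z F - (u * a0 + w * a1))‖ := by rw [← e]
        _ ≤ ‖MvPolynomial.aeval z' F - MvPolynomial.aeval z F - w * a1‖ +
          ‖MvPolynomial.aeval z' F - MvPolynomial.aeval z F - (u * a0 + w * a1)‖ :=
            norm_sub_le _ _
        _ ≤ (‖MvPolynomial.aeval z' F - MvPolynomial.aeval z F‖ + ‖w * a1‖) + M * ‖u‖ ^ 2 :=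
            add_le_add (norm_sub_le _ _) h2
        _ ≤ _ := by
            have := norm_sub_le (MvPolynomial.aeval z' F) (MvPolynomial.aeval z F)
            linarith
    rw [norm_mul, norm_mul] at h3
    have h4 : ‖a1‖ ≤ M1 := h1 z hz
    have h5 : ‖w‖ * ‖a1‖ ≤ M1 * ‖w‖ := by
      rw [mul_comm]; exact mul_le_mul_of_nonneg_right h4 (norm_nonneg _)
    have h6 : ‖u‖ * c3 ≤ ‖u‖ * ‖a0‖ := mul_le_mul_of_nonneg_left hg (norm_nonneg _)
    have h7 : M * ‖u‖ ^ 2 ≤ c3 / 2 * ‖u‖ := by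
      have : M * ‖u‖ ≤ c3 / 2 := (mul_le_mul_of_nonneg_left hd0 hM0.le).trans hc41
      nlinarith [norm_nonneg u]
    have h8 : ‖u‖ * (c3 / 2) ≤ 2 * ε + M1 * ‖w‖ := by linarith
    have h9 : ‖u‖ ≤ 2 / c3 * (2 * ε + M1 * ‖w‖) := by
      rw [div_mul_eq_mul_div, le_div_iff₀ hc3]
      linarith
    have h10 : 2 * ε + M1 * ‖w‖ ≤ (M1 + 2) * (‖w‖ + ε) := by nlinarith [norm_nonneg w]
    calc ‖u‖ ≤ 2 / c3 * (2 * ε + M1 * ‖w‖) := h9
      _ ≤ 2 / c3 * ((M1 + 2) * (‖w‖ + ε)) := mul_le_mul_of_nonneg_left h10 (by positivity)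
      _ = (2 / c3 * (M1 + 2)) * (‖w‖ + ε) := by ring
      _ ≤ _ := mul_le_mul_of_nonneg_right (le_max_right _ _) (by positivity)

/-- the determinant of three points of a plane section near the hypersurface -/
theorem local_B (F : MvPolynomial (Fin (m + 2)) ℤ) {c3 : ℝ} (hc3 : 0 < c3) :
    ∃ C : ℝ, 1 ≤ C ∧
    ∀ (z z' z'' : Fin (m + 2) → K) (ε ρ : ℝ), ‖z‖ ≤ 1 →
      (∀ i : Fin m, z i.succ.succ = z' i.succ.succ) →
      (∀ i : Fin m, z i.succ.succ = z'' i.succ.succ) →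
      c3 ≤ ‖MvPolynomial.aeval z (MvPolynomial.pderiv 0 F)‖ →
      ‖MvPolynomial.aeval z F‖ ≤ ε → ‖MvPolynomial.aeval z' F‖ ≤ ε →
      ‖MvPolynomial.aeval z'' F‖ ≤ ε → ρ ≤ 1 →
      ‖z' 0 - z 0‖ ≤ ρ → ‖z' 1 - z 1‖ ≤ ρ → ‖z'' 0 - z 0‖ ≤ ρ → ‖z'' 1 - z 1‖ ≤ ρ →
      ‖(z' 0 - z 0) * (z'' 1 - z 1) - (z' 1 - z 1) * (z'' 0 - z 0)‖ ≤ C * (ε + ρ ^ 2) * ρ := by
  obtain ⟨M, hM, h⟩ := first_order (K := K) F
  refine ⟨max 1 (2 / c3 * (M + 2)), le_max_left _ _, ?_⟩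
  intro z z' z'' ε ρ hz hag hag' hg hF hF' hF'' hρ h0 h1 h0' h1'
  have hρ0 : 0 ≤ ρ := (norm_nonneg _).trans h0
  have hε : 0 ≤ ε := (norm_nonneg _).trans hF
  have h2 := h z z' ρ hz hag hρ h0 h1
  have h3 := h z z'' ρ hz hag' hρ h0' h1'
  set a0 := MvPolynomial.aeval z (MvPolynomial.pderiv 0 F) with ha0
  set a1 := MvPolynomial.aeval z (MvPolynomial.pderiv 1 F) with ha1
  set u := z' 0 - z 0 with hu
  set w := z' 1 - z 1 with hw
  set u' := z'' 0 - z 0 with hu'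
  set w' := z'' 1 - z 1 with hw'
  have key : ∀ (f f' s : K), ‖f‖ ≤ ε → ‖f'‖ ≤ ε → ‖f' - f - s‖ ≤ M * ρ ^ 2 →
      ‖s‖ ≤ 2 * ε + M * ρ ^ 2 := by
    intro f f' s hf hf' hs
    have e : s = (f' - f) - (f' - f - s) := by ring
    calc ‖s‖ = ‖(f' - f) - (f' - f - s)‖ := by rw [← e]
      _ ≤ ‖f' - f‖ + ‖f' - f - s‖ := norm_sub_le _ _
      _ ≤ (‖f'‖ + ‖f‖) + M * ρ ^ 2 := add_le_add (norm_sub_le _ _) hs
      _ ≤ _ := by linarith
  have h4 := key _ _ _ hF hF' h2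
  have h5 := key _ _ _ hF hF'' h3
  have e : a0 * (u * w' - w * u') = (u * a0 + w * a1) * w' - (u' * a0 + w' * a1) * w := by ring
  have h6 : ‖a0 * (u * w' - w * u')‖ ≤ (2 * ε + M * ρ ^ 2) * ρ + (2 * ε + M * ρ ^ 2) * ρ := by
    rw [e]
    refine (norm_sub_le _ _).trans (add_le_add ?_ ?_)
    · rw [norm_mul]; exact mul_le_mul h4 h1' (norm_nonneg _) (by positivity)
    · rw [norm_mul]; exact mul_le_mul h5 h1 (norm_nonneg _) (by positivity)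
  rw [norm_mul] at h6
  have h7 : c3 * ‖u * w' - w * u'‖ ≤ ‖a0‖ * ‖u * w' - w * u'‖ :=
    mul_le_mul_of_nonneg_right hg (norm_nonneg _)
  have h8 : (2 * ε + M * ρ ^ 2) * ρ ≤ (M + 2) * (ε + ρ ^ 2) * ρ := by
    apply mul_le_mul_of_nonneg_right _ hρ0
    nlinarith [sq_nonneg ρ]
  have h9 : ‖u * w' - w * u'‖ ≤ 2 / c3 * ((M + 2) * (ε + ρ ^ 2) * ρ) := by
    rw [div_mul_eq_mul_div, le_div_iff₀ hc3]
    linarith
  calc _ ≤ 2 / c3 * ((M + 2) * (ε + ρ ^ 2) * ρ) := h9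
    _ = (2 / c3 * (M + 2)) * ((ε + ρ ^ 2) * ρ) := by ring
    _ ≤ max 1 (2 / c3 * (M + 2)) * ((ε + ρ ^ 2) * ρ) :=
        mul_le_mul_of_nonneg_right (le_max_right _ _) (by positivity)
    _ = _ := by ring

end

end Pool.Agent.K1H59.VX
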