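import Pool.Agent.K1H59.VX.Loc

/-!
# Local lemma: three collinear points near a curved hypersurface in a plane section
-/

set_option autoImplicit false

namespace Pool.Agent.K1H59.VX

open Finset

section

variable {K : Type*} [NormedField K] {m : ℕ}

theorem pd_comm {n : ℕ} (i j : Fin n) (F : MvPolynomial (Fin n) ℤ) :
    MvPolynomial.pderiv i (MvPolynomial.pderiv j F) =
      MvPolynomial.pderiv j (MvPolynomial.pderiv i F) := by
  by_cases h : i = j
  · rw [h]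
  · ext k
    simp only [MvPolynomial.coeff_pderiv, Finsupp.add_apply]
    rw [Finsupp.single_eq_of_ne (Ne.symm h), Finsupp.single_eq_of_ne h, add_right_comm]
    push_cast
    ring

theorem norm_pow_sub_le {t s : K} {ρ : ℝ} (ht : ‖t‖ ≤ ρ) (hs : ‖s‖ ≤ ρ) (hρ : ρ ≤ 1) :
    ∀ j : ℕ, ‖t ^ (j + 2) - s ^ (j + 2)‖ ≤ (j + 2) * ρ * ‖t - s‖ := by
  have hρ0 : 0 ≤ ρ := (norm_nonneg _).trans ht
  intro j
  induction j with
  | zero =>
    have e : t ^ (0 + 2) - s ^ (0 + 2) = (t + s) * (t - s) := by ring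
    rw [e, norm_mul]
    have : ‖t + s‖ ≤ ρ + ρ := (norm_add_le _ _).trans (add_le_add ht hs)
    push_cast
    nlinarith [norm_nonneg (t - s)]
  | succ j ih =>
    have e : t ^ (j + 1 + 2) - s ^ (j + 1 + 2) =
        t * (t ^ (j + 2) - s ^ (j + 2)) + (t - s) * s ^ (j + 2) := by ring
    rw [e]
    have h1 : ‖t * (t ^ (j + 2) - s ^ (j + 2))‖ ≤ (j + 2) * ρ * ‖t - s‖ := by
      rw [norm_mul]
      calc _ ≤ 1 * ((j + 2) * ρ * ‖t - s‖) :=
            mul_le_mul (ht.trans hρ) ih (norm_nonneg _) zero_le_one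
        _ = _ := one_mul _
    have h2 : ‖(t - s) * s ^ (j + 2)‖ ≤ ρ * ‖t - s‖ := by
      rw [norm_mul, norm_pow, mul_comm]
      apply mul_le_mul_of_nonneg_right _ (norm_nonneg _)
      calc ‖s‖ ^ (j + 2) ≤ ‖s‖ ^ 1 :=
            pow_le_pow_of_le_one (norm_nonneg _) (hs.trans hρ) (by omega)
        _ ≤ ρ := by rw [pow_one]; exact hs
    push_cast
    calc _ ≤ (j + 2) * ρ * ‖t - s‖ + ρ * ‖t - s‖ := (norm_add_le _ _).trans (add_le_add h1 h2)
      _ = _ := by ring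

/-- the coefficients of the restriction to a line with three points near the hypersurface -/
theorem coeff_small (P : Polynomial K) {M : ℝ} {D : ℕ} (hM : 1 ≤ M) (hD : P.natDegree ≤ D)
    (hc : ∀ k, ‖P.coeff k‖ ≤ M) {t s : K} {ρ ε r : ℝ} (hρ : ρ ≤ 1) (ht : ‖t‖ ≤ ρ) (hs : ‖s‖ ≤ ρ)
    (hr : 0 < r) (htr : r ≤ ‖t‖) (hsr : r ≤ ‖s‖) (hts : r ≤ ‖t - s‖)
    (h0 : ‖P.eval 0‖ ≤ ε) (h1 : ‖P.eval t‖ ≤ ε) (h2 : ‖P.eval s‖ ≤ ε) :
    ‖P.coeff 2‖ ≤ 4 * (ε / r ^ 2) + M * (D + 2) ^ 2 * ρ ∧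
    ‖P.coeff 1‖ ≤ 2 * (ε / r ^ 2) + M * (D + 2) ^ 2 * ρ := by
  have hρ0 : 0 ≤ ρ := (norm_nonneg _).trans ht
  have hε : 0 ≤ ε := (norm_nonneg _).trans h0
  have hr1 : r ≤ 1 := htr.trans (ht.trans hρ)
  have ht0 : t ≠ 0 := norm_pos_iff.mp (lt_of_lt_of_le hr htr)
  have hs0 : s ≠ 0 := norm_pos_iff.mp (lt_of_lt_of_le hr hsr)
  have hts0 : 0 < ‖t - s‖ := lt_of_lt_of_le hr hts
  have hD0 : (0 : ℝ) ≤ D := Nat.cast_nonneg D
  set c1 := P.coeff 1 with hc1
  set c2 := P.coeff 2 with hc2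
  let ψ : K → K := fun x => c1 + c2 * x + ∑ k ∈ range D, P.coeff (k + 3) * x ^ (k + 2)
  have hψ : ∀ x, P.eval x - P.eval 0 = x * ψ x := by
    intro x
    rw [eval_split P D hD x, ← Polynomial.coeff_zero_eq_eval_zero]
    simp only [ψ]
    rw [mul_add, Finset.mul_sum]
    have : ∀ k, x * (P.coeff (k + 3) * x ^ (k + 2)) = P.coeff (k + 3) * x ^ (k + 3) := by
      intro k; ring
    simp_rw [this]
    ring
  have hψb : ∀ x, ‖P.eval x‖ ≤ ε → r ≤ ‖x‖ → ‖ψ x‖ ≤ 2 * ε / r := by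
    intro x hx hxr
    rw [le_div_iff₀ hr]
    calc ‖ψ x‖ * r ≤ ‖ψ x‖ * ‖x‖ := mul_le_mul_of_nonneg_left hxr (norm_nonneg _)
      _ = ‖x * ψ x‖ := by rw [norm_mul, mul_comm]
      _ = ‖P.eval x - P.eval 0‖ := by rw [hψ]
      _ ≤ ‖P.eval x‖ + ‖P.eval 0‖ := norm_sub_le _ _
      _ ≤ 2 * ε := by linarith
  have e1 : ψ t - ψ s = c2 * (t - s) +
      ∑ k ∈ range D, P.coeff (k + 3) * (t ^ (k + 2) - s ^ (k + 2)) := by
    simp only [ψ]
    have : ∀ k, P.coeff (k + 3) * (t ^ (k + 2) - s ^ (k + 2)) =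
        P.coeff (k + 3) * t ^ (k + 2) - P.coeff (k + 3) * s ^ (k + 2) := fun k => by ring
    simp_rw [this, Finset.sum_sub_distrib]
    ring
  have h3 : ‖∑ k ∈ range D, P.coeff (k + 3) * (t ^ (k + 2) - s ^ (k + 2))‖ ≤
      M * (D + 2) ^ 2 * ρ * ‖t - s‖ := by
    calc _ ≤ ∑ k ∈ range D, M * ((D + 2) * ρ * ‖t - s‖) := by
          refine norm_sum_le_of_le _ fun k hk => ?_
          rw [norm_mul]
          refine mul_le_mul (hc _) ?_ (norm_nonneg _) (by linarith)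
          refine (norm_pow_sub_le ht hs hρ k).trans ?_
          have : (k : ℝ) ≤ D := by exact_mod_cast (mem_range.mp hk).le
          apply mul_le_mul_of_nonneg_right _ (norm_nonneg _)
          apply mul_le_mul_of_nonneg_right _ hρ0
          linarith
      _ = D * (M * ((D + 2) * ρ * ‖t - s‖)) := by rw [sum_const, card_range, nsmul_eq_mul]
      _ ≤ (D + 2) * (M * ((D + 2) * ρ * ‖t - s‖)) :=
          mul_le_mul_of_nonneg_right (by linarith) (by positivity)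
      _ = _ := by ring
  have h4 : ‖c2‖ * ‖t - s‖ ≤ 4 * ε / r + M * (D + 2) ^ 2 * ρ * ‖t - s‖ := by
    have e2 : c2 * (t - s) = (ψ t - ψ s) -
      ∑ k ∈ range D, P.coeff (k + 3) * (t ^ (k + 2) - s ^ (k + 2)) := by rw [e1]; ring
    calc ‖c2‖ * ‖t - s‖ = ‖c2 * (t - s)‖ := (norm_mul _ _).symm
      _ ≤ ‖ψ t - ψ s‖ + ‖∑ k ∈ range D, P.coeff (k + 3) * (t ^ (k + 2) - s ^ (k + 2))‖ := by
          rw [e2]; exact norm_sub_le _ _
      _ ≤ (2 * ε / r + 2 * ε / r) + M * (D + 2) ^ 2 * ρ * ‖t - s‖ :=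
          add_le_add ((norm_sub_le _ _).trans (add_le_add (hψb t h1 htr) (hψb s h2 hsr))) h3
      _ = _ := by ring
  constructor
  · have h5 : 4 * ε / r ≤ 4 * (ε / r ^ 2) * ‖t - s‖ := by
      have e3 : 4 * ε / r = 4 * (ε / r ^ 2) * r := by field_simp
      rw [e3]
      exact mul_le_mul_of_nonneg_left hts (by positivity)
    have h6 : ‖c2‖ * ‖t - s‖ ≤ (4 * (ε / r ^ 2) + M * (D + 2) ^ 2 * ρ) * ‖t - s‖ := by
      rw [add_mul]; linarith
    exact le_of_mul_le_mul_right h6 hts0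
  · have h7 : ‖c2 * t + ∑ k ∈ range D, P.coeff (k + 3) * t ^ (k + 2)‖ ≤
        M * ρ + (D : ℝ) * (M * ρ) := by
      refine (norm_add_le _ _).trans (add_le_add ?_ ?_)
      · rw [norm_mul]; exact mul_le_mul (hc 2) ht (norm_nonneg _) (by linarith)
      · calc _ ≤ ∑ k ∈ range D, M * ρ := by
              refine norm_sum_le_of_le _ fun k hk => ?_
              rw [norm_mul, norm_pow]
              refine mul_le_mul (hc _) ?_ (by positivity) (by linarith)
              calc ‖t‖ ^ (k + 2) ≤ ‖t‖ ^ 1 :=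
                    pow_le_pow_of_le_one (norm_nonneg _) (ht.trans hρ) (by omega)
                _ ≤ ρ := by rw [pow_one]; exact ht
          _ = _ := by rw [sum_const, card_range, nsmul_eq_mul]
    have e4 : c1 = ψ t - (c2 * t + ∑ k ∈ range D, P.coeff (k + 3) * t ^ (k + 2)) := by
      simp only [ψ]; ring
    have h8 : 2 * ε / r ≤ 2 * (ε / r ^ 2) := by
      have e3 : 2 * ε / r = 2 * (ε / r ^ 2) * r := by field_simp
      rw [e3]
      have : 0 ≤ 2 * (ε / r ^ 2) := by positivity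
      nlinarith
    have h9 : M * ρ + (D : ℝ) * (M * ρ) ≤ M * (D + 2) ^ 2 * ρ := by
      have : M * ρ + (D : ℝ) * (M * ρ) = M * ρ * (D + 1) := by ring
      rw [this]
      have h10 : M * (D + 2) ^ 2 * ρ = M * ρ * (D + 2) ^ 2 := by ring
      rw [h10]
      apply mul_le_mul_of_nonneg_left _ (by positivity)
      nlinarith
    calc ‖c1‖ ≤ ‖ψ t‖ + ‖c2 * t + ∑ k ∈ range D, P.coeff (k + 3) * t ^ (k + 2)‖ := by
          rw [e4]; exact norm_sub_le _ _
      _ ≤ 2 * ε / r + (M * ρ + (D : ℝ) * (M * ρ)) := add_le_add (hψb t h1 htr) h7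
      _ ≤ _ := by linarith

set_option maxHeartbeats 1000000 in
/-- three collinear points of a plane section near a curved hypersurface: two of them are close -/
theorem local_C (F : MvPolynomial (Fin (m + 2)) ℤ) {c3 : ℝ} (hc3 : 0 < c3) :
    ∃ C : ℝ, 1 ≤ C ∧
    ∀ (z z' z'' : Fin (m + 2) → K) (ε ρ γ r : ℝ), ‖z‖ ≤ 1 →
      (∀ i : Fin m, z i.succ.succ = z' i.succ.succ) →
      (∀ i : Fin m, z i.succ.succ = z'' i.succ.succ) →
      c3 ≤ ‖MvPolynomial.aeval z (MvPolynomial.pderiv 0 F)‖ →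
      ‖MvPolynomial.aeval z F‖ ≤ ε → ‖MvPolynomial.aeval z' F‖ ≤ ε →
      ‖MvPolynomial.aeval z'' F‖ ≤ ε → ρ ≤ 1 →
      ‖z' 0 - z 0‖ ≤ ρ → ‖z' 1 - z 1‖ ≤ ρ → ‖z'' 0 - z 0‖ ≤ ρ → ‖z'' 1 - z 1‖ ≤ ρ →
      (z' 0 - z 0) * (z'' 1 - z 1) - (z' 1 - z 1) * (z'' 0 - z 0) = 0 →
      0 < γ → γ ≤ 1 → γ ≤ ‖MvPolynomial.aeval z (Q F 1 1)‖ → C * ρ ≤ γ → 0 < r →
      C * ε ≤ γ * r ^ 2 →
      (‖z' 0 - z 0‖ ≤ r ∧ ‖z' 1 - z 1‖ ≤ r) ∨ (‖z'' 0 - z 0‖ ≤ r ∧ ‖z'' 1 - z 1‖ ≤ r) ∨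
        (‖z'' 0 - z' 0‖ ≤ r ∧ ‖z'' 1 - z' 1‖ ≤ r) := by
  obtain ⟨M, D, hM, hMD⟩ := lin_bound (K := K) F
  obtain ⟨M1, hM1, hb1⟩ := aeval_bound (K := K) (MvPolynomial.pderiv 0 F)
  obtain ⟨M2, hM2, hb2⟩ := aeval_bound (K := K) (MvPolynomial.pderiv 1 F)
  obtain ⟨M3, hM3, hb3⟩ := aeval_bound (K := K) (MvPolynomial.pderiv 0 (MvPolynomial.pderiv 0 F))
  obtain ⟨M4, hM4, hb4⟩ := aeval_bound (K := K) (MvPolynomial.pderiv 0 (MvPolynomial.pderiv 1 F))
  set L : ℝ := 4 + M * (D + 2) ^ 2 with hL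
  have hL0 : 0 < L := by
    have : 0 ≤ M * ((D : ℝ) + 2) ^ 2 := by positivity
    linarith
  set c5 : ℝ := min 1 (c3 / (2 * M2)) with hc5
  have hc50 : 0 < c5 := lt_min one_pos (by positivity)
  set E : ℝ := 2 * M1 ^ 2 + (M3 * (1 + 2 * M2) + 2 * M1 * M4) with hE
  have hE0 : 0 < E := by positivity
  set C : ℝ := 1 + L + 2 * L / c3 + 2 * (E * L) / c5 ^ 2 with hC
  have hC1 : 1 ≤ C := by
    rw [hC]
    have : 0 ≤ L + 2 * L / c3 + 2 * (E * L) / c5 ^ 2 := by positivity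
    linarith
  refine ⟨C, hC1, ?_⟩
  intro z z' z'' ε ρ γ r hz hag hag' hg hF hF' hF'' hρ h0 h1 h0' h1' hdet hγ hγ1 hQ hCρ hr hCε
  have hρ0 : 0 ≤ ρ := (norm_nonneg _).trans h0
  have hε : 0 ≤ ε := (norm_nonneg _).trans hF
  by_contra hcon
  push Not at hcon
  obtain ⟨hf1, hf2, hf3⟩ := hcon
  set u0 := z' 0 - z 0 with hu0
  set u1 := z' 1 - z 1 with hu1
  set w0 := z'' 0 - z 0 with hw0
  set w1 := z'' 1 - z 1 with hw1
  have hd0 : z'' 0 - z' 0 = w0 - u0 := by rw [hw0, hu0]; ring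
  have hd1 : z'' 1 - z' 1 = w1 - u1 := by rw [hw1, hu1]; ring
  rw [hd0, hd1] at hf3
  -- the direction
  have key : ∀ (t s b0 b1 : K), ‖b0‖ ≤ 1 → ‖b1‖ ≤ 1 → (b0 = 1 ∨ b1 = 1) → u0 = b0 * t →
      u1 = b1 * t → w0 = b0 * s → w1 = b1 * s → False := by
    intro t s b0 b1 hb0 hb1' hb e1 e2 e3 e4
    have far : ∀ x : K, (‖b0 * x‖ ≤ r → r < ‖b1 * x‖) → r < ‖x‖ := by
      intro x hx
      by_contra hle
      push Not at hle
      have hx0 : ‖b0 * x‖ ≤ r := by
        rw [norm_mul]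
        calc _ ≤ 1 * ‖x‖ := mul_le_mul_of_nonneg_right hb0 (norm_nonneg _)
          _ ≤ r := by rw [one_mul]; exact hle
      have hx1 := hx hx0
      rw [norm_mul] at hx1
      have : ‖b1‖ * ‖x‖ ≤ 1 * ‖x‖ := mul_le_mul_of_nonneg_right hb1' (norm_nonneg _)
      linarith
    have hrt : r < ‖t‖ := far t (by rw [← e1, ← e2]; exact hf1)
    have hrs : r < ‖s‖ := far s (by rw [← e3, ← e4]; exact hf2)
    have hrst : r < ‖s - t‖ := far (s - t) (by
      rw [mul_sub, mul_sub, ← e1, ← e2, ← e3, ← e4]; exact hf3)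
    have small : ∀ x : K, ‖b0 * x‖ ≤ ρ → ‖b1 * x‖ ≤ ρ → ‖x‖ ≤ ρ := by
      intro x hx0 hx1
      rcases hb with hb | hb
      · rw [hb, one_mul] at hx0; exact hx0
      · rw [hb, one_mul] at hx1; exact hx1
    have htρ : ‖t‖ ≤ ρ := small t (by rw [← e1]; exact h0) (by rw [← e2]; exact h1)
    have hsρ : ‖s‖ ≤ ρ := small s (by rw [← e3]; exact h0') (by rw [← e4]; exact h1')
    have hb' : ‖(v2 b0 b1 : Fin (m + 2) → K)‖ ≤ 1 := norm_v2_le zero_le_one hb0 hb1'
    obtain ⟨hd, hc⟩ := hMD z (v2 b0 b1) hz hb'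
    set P := lin F z (v2 b0 b1) with hP
    have hz' : z' = fun i => z i + (v2 b0 b1 : Fin (m + 2) → K) i * t := agree_eq hag e1 e2
    have hz'' : z'' = fun i => z i + (v2 b0 b1 : Fin (m + 2) → K) i * s := agree_eq hag' e3 e4
    have hP0 : P.eval 0 = MvPolynomial.aeval z F := by rw [hP, lin_eval]; simp
    have hPt : P.eval t = MvPolynomial.aeval z' F := by rw [hP, lin_eval, hz']
    have hPs : P.eval s = MvPolynomial.aeval z'' F := by rw [hP, lin_eval, hz'']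
    have hsm := coeff_small (ε := ε) P hM hd hc hρ htρ hsρ hr hrt.le hrs.le (by
      rw [← norm_neg, neg_sub]; exact hrst.le) (by rw [hP0]; exact hF) (by rw [hPt]; exact hF')
      (by rw [hPs]; exact hF'')
    obtain ⟨hs2, hs1⟩ := hsm
    -- both coefficients are at most `L γ / C`
    have hC0 : 0 < C := by linarith
    have hεr : ε / r ^ 2 ≤ γ / C := by
      rw [div_le_div_iff₀ (by positivity) hC0]
      linarith
    have hργ : ρ ≤ γ / C := by
      rw [le_div_iff₀ hC0]; linarith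
    have hMD0 : 0 ≤ M * ((D : ℝ) + 2) ^ 2 := by positivity
    have hγC : 0 ≤ γ / C := by positivity
    have hc2 : ‖P.coeff 2‖ ≤ L * (γ / C) := by
      calc _ ≤ 4 * (ε / r ^ 2) + M * (D + 2) ^ 2 * ρ := hs2
        _ ≤ 4 * (γ / C) + M * (D + 2) ^ 2 * (γ / C) :=
            add_le_add (by linarith) (mul_le_mul_of_nonneg_left hργ hMD0)
        _ = _ := by rw [hL]; ring
    have hc1 : ‖P.coeff 1‖ ≤ L * (γ / C) := by
      calc _ ≤ 2 * (ε / r ^ 2) + M * (D + 2) ^ 2 * ρ := hs1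
        _ ≤ 4 * (γ / C) + M * (D + 2) ^ 2 * (γ / C) :=
            add_le_add (by linarith) (mul_le_mul_of_nonneg_left hργ hMD0)
        _ = _ := by rw [hL]; ring
    set a0 := MvPolynomial.aeval z (MvPolynomial.pderiv 0 F) with ha0
    set a1 := MvPolynomial.aeval z (MvPolynomial.pderiv 1 F) with ha1
    set h00 := MvPolynomial.aeval z (MvPolynomial.pderiv 0 (MvPolynomial.pderiv 0 F)) with hh00
    set h01 := MvPolynomial.aeval z (MvPolynomial.pderiv 0 (MvPolynomial.pderiv 1 F)) with hh01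
    set h11 := MvPolynomial.aeval z (MvPolynomial.pderiv 1 (MvPolynomial.pderiv 1 F)) with hh11
    have hcomm : MvPolynomial.pderiv 1 (MvPolynomial.pderiv 0 F) =
        MvPolynomial.pderiv 0 (MvPolynomial.pderiv 1 F) := pd_comm _ _ _
    have eP1 : P.coeff 1 = b0 * a0 + b1 * a1 := by
      rw [hP, lin_coeff_one, sum_v2]
    have eP2 : 2 * P.coeff 2 = b0 * (b0 * h00 + b1 * h01) + b1 * (b0 * h01 + b1 * h11) := by
      rw [hP, lin_coeff_two, sum_v2, sum_v2, sum_v2, hcomm]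
    have eQ : MvPolynomial.aeval z (Q F 1 1) =
        a0 ^ 2 * h11 - a0 * a1 * h01 - a0 * a1 * h01 + a1 * a1 * h00 := by
      simp only [Q, map_add, map_sub, map_mul, map_pow]
      rfl
    have ident : b1 ^ 2 * MvPolynomial.aeval z (Q F 1 1) = a0 ^ 2 * (2 * P.coeff 2) -
        P.coeff 1 * (h00 * (P.coeff 1 - 2 * a1 * b1) + 2 * a0 * h01 * b1) := by
      rw [eQ, eP2, eP1]; ring
    have hna0 : ‖a0‖ ≤ M1 := hb1 z hz
    have hna1 : ‖a1‖ ≤ M2 := hb2 z hz
    have hnh00 : ‖h00‖ ≤ M3 := hb3 z hz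
    have hnh01 : ‖h01‖ ≤ M4 := hb4 z hz
    have hC' : L * (γ / C) ≤ 1 := by
      rw [mul_div_assoc', div_le_one hC0]
      have h3 : L ≤ C := by
        rw [hC]
        have : 0 ≤ 1 + 2 * L / c3 + 2 * (E * L) / c5 ^ 2 := by positivity
        linarith
      calc L * γ ≤ L * 1 := mul_le_mul_of_nonneg_left hγ1 hL0.le
        _ ≤ C := by rw [mul_one]; exact h3
    have hc1' : ‖P.coeff 1‖ ≤ 1 := hc1.trans hC'
    have h2n : ‖(2 : K)‖ ≤ 2 := by
      have := norm_add_le (1 : K) 1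
      rw [norm_one, one_add_one_eq_two] at this
      linarith
    have hup : ‖b1‖ ^ 2 * γ ≤ E * (L * (γ / C)) := by
      have h3 : ‖b1‖ ^ 2 * γ ≤ ‖b1 ^ 2 * MvPolynomial.aeval z (Q F 1 1)‖ := by
        rw [norm_mul, norm_pow]
        exact mul_le_mul_of_nonneg_left hQ (by positivity)
      rw [ident] at h3
      have h4 : ‖a0 ^ 2 * (2 * P.coeff 2)‖ ≤ M1 ^ 2 * (2 * (L * (γ / C))) := by
        rw [norm_mul, norm_pow, norm_mul]
        exact mul_le_mul (pow_le_pow_left₀ (norm_nonneg _) hna0 2)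
          (mul_le_mul h2n hc2 (norm_nonneg _) (by norm_num)) (by positivity) (by positivity)
      have h5 : ‖h00 * (P.coeff 1 - 2 * a1 * b1) + 2 * a0 * h01 * b1‖ ≤
          M3 * (1 + 2 * M2) + 2 * M1 * M4 := by
        refine (norm_add_le _ _).trans (add_le_add ?_ ?_)
        · rw [norm_mul]
          refine mul_le_mul hnh00 ?_ (norm_nonneg _) (by positivity)
          refine (norm_sub_le _ _).trans (add_le_add hc1' ?_)
          rw [norm_mul, norm_mul]
          calc ‖(2 : K)‖ * ‖a1‖ * ‖b1‖ ≤ 2 * M2 * 1 :=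
                mul_le_mul (mul_le_mul h2n hna1 (norm_nonneg _) (by norm_num)) hb1'
                  (norm_nonneg _) (by positivity)
            _ = _ := mul_one _
        · rw [norm_mul, norm_mul, norm_mul]
          calc ‖(2 : K)‖ * ‖a0‖ * ‖h01‖ * ‖b1‖ ≤ 2 * M1 * M4 * 1 :=
                mul_le_mul (mul_le_mul (mul_le_mul h2n hna0 (norm_nonneg _) (by norm_num)) hnh01
                  (norm_nonneg _) (by positivity)) hb1' (norm_nonneg _) (by positivity)
            _ = _ := mul_one _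
      have h6 : ‖P.coeff 1 * (h00 * (P.coeff 1 - 2 * a1 * b1) + 2 * a0 * h01 * b1)‖ ≤
          (L * (γ / C)) * (M3 * (1 + 2 * M2) + 2 * M1 * M4) := by
        rw [norm_mul]
        exact mul_le_mul hc1 h5 (norm_nonneg _) (by positivity)
      calc _ ≤ _ := h3
        _ ≤ M1 ^ 2 * (2 * (L * (γ / C))) + (L * (γ / C)) * (M3 * (1 + 2 * M2) + 2 * M1 * M4) :=
            (norm_sub_le _ _).trans (add_le_add h4 h6)
        _ = _ := by rw [hE]; ring
    -- lower bound of `b1`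
    have hlow : c5 ≤ ‖b1‖ := by
      rcases hb with hb | hb
      · refine (min_le_right _ _).trans ?_
        have h3 : ‖P.coeff 1‖ ≤ c3 / 2 := by
          refine hc1.trans ?_
          rw [mul_div_assoc', div_le_iff₀ hC0]
          have h4 : 2 * L / c3 ≤ C := by
            rw [hC]
            have : 0 ≤ 1 + L + 2 * (E * L) / c5 ^ 2 := by positivity
            linarith
          have h5 : 2 * L ≤ C * c3 := by
            rw [div_le_iff₀ hc3] at h4; linarith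
          nlinarith
        have h6 : c3 ≤ ‖P.coeff 1‖ + ‖b1‖ * M2 := by
          have e5 : a0 = P.coeff 1 - b1 * a1 := by rw [eP1, hb]; ring
          calc c3 ≤ ‖a0‖ := hg
            _ ≤ ‖P.coeff 1‖ + ‖b1 * a1‖ := by rw [e5]; exact norm_sub_le _ _
            _ ≤ _ := by
                rw [norm_mul]
                have := mul_le_mul_of_nonneg_left hna1 (norm_nonneg b1)
                linarith
        rw [div_le_iff₀ (by positivity)]
        nlinarith
      · rw [hb, norm_one]; exact min_le_left _ _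
    have h7 : c5 ^ 2 * γ ≤ E * (L * (γ / C)) :=
      (mul_le_mul_of_nonneg_right (pow_le_pow_left₀ hc50.le hlow 2) hγ.le).trans hup
    have h8 : c5 ^ 2 * C ≤ E * L := by
      have e6 : E * (L * (γ / C)) = E * L * γ / C := by ring
      rw [e6, le_div_iff₀ hC0] at h7
      have h9 : (c5 ^ 2 * C) * γ ≤ (E * L) * γ := by linarith
      exact le_of_mul_le_mul_right h9 hγ
    have h10 : 2 * (E * L) / c5 ^ 2 ≤ C := by
      rw [hC]
      have : 0 ≤ 1 + L + 2 * L / c3 := by positivity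
      linarith
    have h11 : 2 * (E * L) ≤ C * c5 ^ 2 := by
      rw [div_le_iff₀ (by positivity)] at h10; exact h10
    have h12 : 0 < E * L := by positivity
    have h13 : C * c5 ^ 2 = c5 ^ 2 * C := mul_comm _ _
    linarith
  -- choose the direction
  have hdet' : u0 * w1 = u1 * w0 := by linear_combination hdet
  rcases le_total ‖w0‖ ‖w1‖ with hle | hle
  · have hw1' : w1 ≠ 0 := by
      intro h
      rw [h, norm_zero] at hle
      have h3 : w0 = 0 := norm_le_zero_iff.mp hle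
      have := hf2 (by rw [h3, norm_zero]; exact hr.le)
      rw [h, norm_zero] at this
      linarith
    have hpos : 0 < ‖w1‖ := norm_pos_iff.mpr hw1'
    refine key u1 w1 (w0 / w1) 1 (by rw [norm_div, div_le_one hpos]; exact hle) (by simp)
      (Or.inr rfl) ?_ (by ring) (by field_simp) (by ring)
    field_simp
    linear_combination hdet'
  · have hw0' : w0 ≠ 0 := by
      intro h
      rw [h, norm_zero] at hle
      have h3 : w1 = 0 := norm_le_zero_iff.mp hle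
      have := hf2 (by rw [h, norm_zero]; exact hr.le)
      rw [h3, norm_zero] at this
      linarith
    have hpos : 0 < ‖w0‖ := norm_pos_iff.mpr hw0'
    refine key u0 w0 1 (w1 / w0) (by simp) (by rw [norm_div, div_le_one hpos]; exact hle)
      (Or.inl rfl) (by ring) ?_ (by ring) (by field_simp)
    field_simp
    linear_combination -hdet'

end

end Pool.Agent.K1H59.VX
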