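import Pool.Agent.K1H59.VX.Class
import Pool.Agent.H951R3.W.W3

/-!
# The points of a dyadic shell
-/

set_option autoImplicit false

namespace Pool.Agent.K1H59.VX

open Finset MvPolynomial

/-- a uniform upper bound of the normalised absolute values -/
theorem upper {m q : ℕ} (F : Fin q → MvPolynomial (Fin (m + 2)) ℤ) (d : Fin q → ℕ)
    (hF : ∀ j, (F j).IsHomogeneous (d j)) : ∃ A : ℝ, 1 ≤ A ∧ ∀ (v : Option ℕ), Pl v →
    ∀ (B : ℝ) (x : Fin (m + 2) → ℤ), 1 ≤ B → Box B x → ∀ j, nval v B (d j) (eval x (F j)) ≤ A := by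
  have h1 : ∀ j, ∃ A : ℝ, 1 ≤ A ∧ ∀ (B : ℝ), 1 ≤ B → ∀ x : Fin (m + 2) → ℤ,
      (∀ i, |(x i : ℝ)| ≤ B) → |((eval x (F j) : ℤ) : ℝ)| ≤ A * B ^ (d j) := fun j =>
    Pool.Agent.H951R3.W.eval_bound (F j) (hF j)
  choose A hA1 hA using h1
  have hpos : ∀ j, 0 ≤ A j := fun j => by have := hA1 j; linarith
  refine ⟨1 + ∑ j, A j, by have := Finset.sum_nonneg fun j (_ : j ∈ Finset.univ) => hpos j; linarith,
    ?_⟩
  intro v hv B x hB hx j
  have hB0 : 0 < B := by linarith
  have h2 := Finset.single_le_sum (fun j _ => hpos j) (Finset.mem_univ j)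
  refine (nval_le hv hB0 (hA1 j) (d j) ?_).trans (by linarith)
  exact hA j B hB x hx

set_option maxHeartbeats 4000000 in
theorem shell (hFAM : S_FAM) (hPLC : S_PLC) (hTB : S_TB) (hEL : S_ELIM)
    (hG : Pool.Agent.K1H31.VX.S_GCL0) (hL : S_LOC) : S_SHELL := by
  classical
  intro m q F d hm hD S hS κ c hκ
  set P : ℝ → (Fin (m + 2) → ℤ) → Prop := fun B x => Finset.univ.gcd x = 1 ∧
      (∀ j, eval x (F j) ≠ 0) ∧ Box B x ∧ (∃ i, B / 2 ≤ |(x i : ℝ)|) ∧
      κ * Real.log B + c ≤
        ∑ j, ∑ v ∈ insertNone S, -Real.log (nval v B (d j) (eval x (F j))) with hP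
  show Bd m P
  have hm0 : (1 : ℝ) ≤ m := by exact_mod_cast hm
  have hκ0 : 0 < κ := by linarith
  rcases Nat.eq_zero_or_pos q with hq | hq
  · subst hq
    refine Bd.of_large (fun B x _ hx => hx.2.2.1) (Real.exp (|c| / κ + 1)) (Bd.false ?_)
    rintro B x hB ⟨hx, hBB⟩
    have h1 := hx.2.2.2.2
    rw [Finset.univ_eq_empty, Finset.sum_empty] at h1
    have h2 : |c| / κ + 1 ≤ Real.log B := by
      rw [Real.le_log_iff_exp_le (by linarith)]
      exact hBB
    have h3 : κ * (|c| / κ + 1) ≤ κ * Real.log B := mul_le_mul_of_nonneg_left h2 hκ0.le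
    have h4 : κ * (|c| / κ + 1) = |c| + κ := by field_simp
    have h5 := neg_abs_le c
    linarith
  have hne : Nonempty (Fin q) := ⟨⟨0, hq⟩⟩
  -- the parameters
  set s1 : ℝ := (S.card : ℝ) + 1 with hs1
  have hs10 : 0 < s1 := by positivity
  set κ' : ℝ := (κ + (m + 1)) / 2 with hκ'
  have hκ'1 : (m : ℝ) + 1 < κ' := by rw [hκ']; linarith
  have hκ'2 : κ' < κ := by rw [hκ']; linarith
  set η : ℝ := (κ' - (m + 1)) / (2 * s1 * (q + 1)) with hη
  have hη0 : 0 < η := by
    apply div_pos (by linarith)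
    positivity
  have hηκ : (m : ℝ) + 1 + (S.card + 1) * q * η < κ' := by
    have h1 : s1 * (q + 1) * η = (κ' - (m + 1)) / 2 := by
      rw [hη]; field_simp
    have h2 : (S.card + 1) * q * η ≤ s1 * (q + 1) * η := by
      rw [← hs1]
      apply mul_le_mul_of_nonneg_right _ hη0.le
      nlinarith
    linarith
  obtain ⟨A, hA1, hA⟩ := upper F d hD.hom
  have hA0 : 0 < A := by linarith
  obtain ⟨c0, hc00, hc0⟩ := hPLC m q F d hD S hS ((m + 2) * (S.card + 1)) le_rfl
  set T : ℕ := (m + 2) * (S.card + 1) with hT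
  obtain ⟨T0, hT0⟩ := exists_nat_ge κ'
  obtain ⟨K, hK⟩ := exists_nat_gt (2 * (q * s1) / (κ - κ'))
  have hK0 : (0 : ℝ) < K := by
    refine lt_of_le_of_lt ?_ hK
    apply div_nonneg (by positivity) (by linarith)
  have hKs : q * s1 / K ≤ (κ - κ') / 2 := by
    rw [div_lt_iff₀ (by linarith)] at hK
    rw [div_le_iff₀ hK0]
    linarith
  let ι : Type := Fin q → {v // v ∈ insertNone S} → Fin (K * T0 + 1)
  let e : ι → Fin q → Option ℕ → ℝ := fun k j v =>
    if h : v ∈ insertNone S then ((k j ⟨v, h⟩ : ℕ) : ℝ) / K else 0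
  have he0 : ∀ k j v, 0 ≤ e k j v := by
    intro k j v
    simp only [e]
    split_ifs
    · positivity
    · exact le_rfl
  have heT : ∀ k j v, e k j v ≤ T0 := by
    intro k j v
    simp only [e]
    split_ifs with h
    · rw [div_le_iff₀ hK0]
      have h1 : (k j ⟨v, h⟩ : ℕ) ≤ K * T0 := Nat.lt_succ_iff.mp (k j ⟨v, h⟩).2
      have h2 : ((k j ⟨v, h⟩ : ℕ) : ℝ) ≤ K * T0 := by exact_mod_cast h1
      linarith
    · positivity
  have hJex : ∀ k v, ∃ j0, ∀ j, e k j v ≤ e k j0 v := by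
    intro k v
    obtain ⟨j0, _, hj0⟩ := Finset.exists_max_image Finset.univ (fun j => e k j v)
      Finset.univ_nonempty
    exact ⟨j0, fun j => hj0 j (Finset.mem_univ j)⟩
  choose J hJ using hJex
  let PC : ι → ℕ → ℝ → (Fin (m + 2) → ℤ) → Prop := fun k t B x =>
    Box B x ∧ (∀ j, eval x (F j) ≠ 0) ∧
    (∀ v ∈ insertNone S, ∀ J' : Finset (Fin q),
      (∀ j ∈ J', nval v B (d j) (eval x (F j)) < c0) → J'.card ≤ m + 1) ∧
    (∀ j, ∀ v ∈ insertNone S, nval v B (d j) (eval x (F j)) ≤ A * B ^ (-(e k j v))) ∧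
    (∀ v ∈ insertNone S, η ≤ e k (J k v) v →
      c0 ≤ nval v B (d (J k v) - 1)
        (∑ i : Fin (m + 2), (t : ℤ) ^ (i : ℕ) * eval x (pderiv i (F (J k v)))))
  obtain ⟨B2, hB2⟩ := Filter.eventually_atTop.mp (ev_lt A η hη0 hc00)
  -- one class
  have hclass : ∀ k t, κ' ≤ ∑ j, ∑ v ∈ insertNone S, e k j v → Bd m (PC k t) := by
    intro k t hks
    by_cases hcomb : ∀ v ∈ insertNone S,
        (Finset.univ.filter (fun j => η ≤ e k j v)).card ≤ m + 1
    · obtain ⟨H, y, C1, hC1, hyinj, hybox, hyev, hyder, hHh, hHirr, hHne, hHQ, hHlin⟩ :=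
        hFAM m q F d hm hD t
      set Dm : ℕ := ∑ j, d j with hDm
      have hC10 : 0 < C1 := by linarith
      refine Bd.transport hyinj hC1 ?_ (class_good hTB hEL hG hL m q hm S hS H d hHh hHirr hHne hHQ
        hHlin (e k) (he0 k) (J k) (fun j v => hJ k v j) η hη0 hcomb κ' hηκ hks (A * C1 ^ (T0 : ℝ))
        (c0 / C1 ^ Dm) (by positivity) (by positivity))
      intro B x hB hx
      obtain ⟨h1, h2, h3, h4, h5⟩ := hx
      have hBp : 0 < B := by linarith
      refine ⟨hybox B x hB h1, fun j => by rw [hyev]; exact h2 j, fun j v hv => ?_,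
        fun v hv hηv => ?_⟩
      · rw [hyev]
        refine (nval_scale_le v hB hC1 _ _).trans ((h4 j v hv).trans ?_)
        rw [mul_assoc]
        apply mul_le_mul_of_nonneg_left _ hA0.le
        rw [Real.mul_rpow hC10.le hBp.le, ← mul_assoc, ← Real.rpow_add hC10]
        have h6 : 1 ≤ C1 ^ ((T0 : ℝ) + -(e k j v)) := by
          apply Real.one_le_rpow hC1
          have := heT k j v
          linarith
        have h7 : 0 < B ^ (-(e k j v)) := by positivity
        nlinarith
      · rw [hyder]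
        have h6 := h5 v hv hηv
        have h7 : d (J k v) - 1 ≤ Dm := by
          have := Finset.single_le_sum (fun j _ => Nat.zero_le (d j)) (Finset.mem_univ (J k v))
          omega
        have h8 := nval_scale_ge v hB hC1 h7
          (∑ i : Fin (m + 2), (t : ℤ) ^ (i : ℕ) * eval x (pderiv i (F (J k v))))
        rw [div_le_iff₀ (by positivity)]
        linarith
    · push Not at hcomb
      obtain ⟨v, hv, hcard⟩ := hcomb
      refine Bd.of_large (fun B x _ hx => hx.1) B2 (Bd.false ?_)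
      rintro B x hB ⟨hx, hBB⟩
      obtain ⟨h1, h2, h3, h4, h5⟩ := hx
      have h6 := h3 v hv (Finset.univ.filter (fun j => η ≤ e k j v)) (fun j hj => by
        have h7 := (Finset.mem_filter.mp hj).2
        refine (h4 j v hv).trans_lt (lt_of_le_of_lt ?_ (hB2 B hBB))
        apply mul_le_mul_of_nonneg_left _ hA0.le
        exact Real.rpow_le_rpow_of_exponent_le hB (by linarith))
      omega
  have hall : Bd m (fun B x => ∃ i ∈ (Finset.univ : Finset ι) ×ˢ Finset.range (T + 1),
      (PC i.1 i.2 B x ∧ κ' ≤ ∑ j, ∑ v ∈ insertNone S, e i.1 j v)) := by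
    apply Bd.biUnion
    intro i _
    by_cases hks : κ' ≤ ∑ j, ∑ v ∈ insertNone S, e i.1 j v
    · exact Bd.mono (fun B x _ hx => hx.1) (hclass i.1 i.2 hks)
    · exact Bd.false fun B x _ hx => hks hx.2
  -- large `B`
  set B3 : ℝ := Real.exp (2 * |c| / (κ - κ') + 1) with hB3
  refine Bd.of_large (fun B x _ hx => hx.2.2.1) (max (max B2 2) B3)
    (Bd.mono (fun B x hB hx => ?_) hall)
  obtain ⟨⟨hgcd, hFne, hbox, hbig, hprox⟩, hBB⟩ := hx
  have hBB2 : B2 ≤ B := (le_max_left _ _).trans ((le_max_left _ _).trans hBB)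
  have hBB2' : 2 ≤ B := (le_max_right _ _).trans ((le_max_left _ _).trans hBB)
  have hBB3 : B3 ≤ B := (le_max_right _ _).trans hBB
  have hBp : 0 < B := by linarith
  have hlogB : 2 * |c| / (κ - κ') + 1 ≤ Real.log B := by
    rw [Real.le_log_iff_exp_le hBp]; exact hBB3
  have hlog0 : 0 < Real.log B := by
    have : 0 ≤ 2 * |c| / (κ - κ') := div_nonneg (by positivity) (by linarith)
    linarith
  have hnpos : ∀ j, ∀ v ∈ insertNone S, 0 < nval v B (d j) (eval x (F j)) := by
    intro j v hv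
    have h1 := nval_nonneg v hBp.le (d j) (eval x (F j))
    rcases h1.lt_or_eq with h | h
    · exact h
    · exfalso
      have h2 := prod_nval hS hBp (d j) (hFne j)
      rw [Finset.prod_eq_zero hv h.symm, mul_zero] at h2
      linarith
  let tt : Fin q → Option ℕ → ℝ := fun j v =>
    -Real.log (nval v B (d j) (eval x (F j))) / Real.log B
  let k : ι := fun j v => ⟨min ⌊K * tt j v⌋₊ (K * T0), Nat.lt_succ_iff.mpr (min_le_right _ _)⟩
  have hek : ∀ j, ∀ v ∈ insertNone S, e k j v = ((min ⌊K * tt j v⌋₊ (K * T0) : ℕ) : ℝ) / K := by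
    intro j v hv
    simp only [e, k]
    rw [dif_pos hv]
  have hnv : ∀ j, ∀ v ∈ insertNone S,
      nval v B (d j) (eval x (F j)) ≤ A * B ^ (-(e k j v)) := by
    intro j v hv
    rw [hek j v hv]
    rcases Nat.eq_zero_or_pos (min ⌊K * tt j v⌋₊ (K * T0)) with h0 | h0
    · rw [h0, Nat.cast_zero, zero_div, neg_zero, Real.rpow_zero, mul_one]
      exact hA v (pl_of_mem hS hv) B x hB hbox j
    · have h1 : 0 < ⌊K * tt j v⌋₊ := lt_of_lt_of_le h0 (min_le_left _ _)
      have h2 : 0 ≤ K * tt j v := by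
        by_contra h
        push Not at h
        rw [Nat.floor_of_nonpos h.le] at h1
        exact absurd h1 (lt_irrefl 0)
      have h3 : ((min ⌊K * tt j v⌋₊ (K * T0) : ℕ) : ℝ) ≤ K * tt j v := by
        refine le_trans ?_ (Nat.floor_le h2)
        exact_mod_cast min_le_left _ _
      have h4 : ((min ⌊K * tt j v⌋₊ (K * T0) : ℕ) : ℝ) / K ≤ tt j v := by
        rw [div_le_iff₀ hK0]; linarith
      have h5 : ((min ⌊K * tt j v⌋₊ (K * T0) : ℕ) : ℝ) / K * Real.log B ≤
          -Real.log (nval v B (d j) (eval x (F j))) := by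
        have := mul_le_mul_of_nonneg_right h4 hlog0.le
        simp only [tt] at this
        rwa [div_mul_cancel₀ _ hlog0.ne'] at this
      have h6 : nval v B (d j) (eval x (F j)) ≤
          B ^ (-(((min ⌊K * tt j v⌋₊ (K * T0) : ℕ) : ℝ) / K)) := by
        rw [← Real.log_le_log_iff (hnpos j v hv) (by positivity), Real.log_rpow hBp]
        linarith
      have h7 : 0 < B ^ (-(((min ⌊K * tt j v⌋₊ (K * T0) : ℕ) : ℝ) / K)) := by positivity
      nlinarith
  have hks : κ' ≤ ∑ j, ∑ v ∈ insertNone S, e k j v := by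
    by_cases hbigk : ∃ j0, ∃ v0 ∈ insertNone S, K * T0 ≤ ⌊K * tt j0 v0⌋₊
    · obtain ⟨j0, v0, hv0, hb⟩ := hbigk
      have h1 : e k j0 v0 = T0 := by
        rw [hek j0 v0 hv0, min_eq_right hb]
        push_cast
        field_simp
      calc κ' ≤ T0 := hT0
        _ = e k j0 v0 := h1.symm
        _ ≤ ∑ v ∈ insertNone S, e k j0 v :=
            Finset.single_le_sum (fun v _ => he0 k j0 v) hv0
        _ ≤ _ := Finset.single_le_sum (f := fun j => ∑ v ∈ insertNone S, e k j v)
            (fun j _ => Finset.sum_nonneg fun v _ => he0 k j v) (Finset.mem_univ j0)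
    · push Not at hbigk
      have h1 : ∀ j, ∀ v ∈ insertNone S, tt j v - 1 / K ≤ e k j v := by
        intro j v hv
        rw [hek j v hv, min_eq_left (hbigk j v hv).le, sub_le_iff_le_add, ← add_div,
          le_div_iff₀ hK0]
        have := Nat.lt_floor_add_one (K * tt j v)
        linarith
      have h2 : ∑ j, ∑ v ∈ insertNone S, (tt j v - 1 / K) ≤ ∑ j, ∑ v ∈ insertNone S, e k j v :=
        Finset.sum_le_sum fun j _ => Finset.sum_le_sum fun v hv => h1 j v hv
      have h3 : ∑ j, ∑ v ∈ insertNone S, (tt j v - 1 / K) =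
          (∑ j, ∑ v ∈ insertNone S, -Real.log (nval v B (d j) (eval x (F j)))) / Real.log B -
            q * s1 / K := by
        simp_rw [Finset.sum_sub_distrib]
        congr 1
        · simp only [tt]
          rw [Finset.sum_div]
          exact Finset.sum_congr rfl fun j _ => by rw [Finset.sum_div]
        · rw [Finset.sum_const, Finset.sum_const, Finset.card_univ, Fintype.card_fin,
            Finset.card_insertNone, nsmul_eq_mul, nsmul_eq_mul]
          push_cast
          rw [hs1]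
          ring
      have h4 : κ + c / Real.log B ≤
          (∑ j, ∑ v ∈ insertNone S, -Real.log (nval v B (d j) (eval x (F j)))) / Real.log B := by
        rw [le_div_iff₀ hlog0, add_mul, div_mul_cancel₀ _ hlog0.ne']
        exact hprox
      have h5 : -((κ - κ') / 2) ≤ c / Real.log B := by
        rw [le_div_iff₀ hlog0]
        have h6 : 2 * |c| / (κ - κ') ≤ Real.log B := by linarith
        rw [div_le_iff₀ (by linarith)] at h6
        have h7 := neg_abs_le c
        nlinarith
      linarith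
  obtain ⟨hcnt, hdir⟩ := hc0 B x hB hbox hbig hgcd
  obtain ⟨t, htT, ht⟩ := hdir (J k)
  refine ⟨(k, t), Finset.mem_product.mpr ⟨Finset.mem_univ _, Finset.mem_range.mpr (by omega)⟩,
    ⟨hbox, hFne, hcnt, hnv, fun v hv hηv => ?_⟩, hks⟩
  apply ht v hv
  refine (hnv (J k v) v hv).trans_lt (lt_of_le_of_lt ?_ (hB2 B hBB2))
  apply mul_le_mul_of_nonneg_left _ hA0.le
  exact Real.rpow_le_rpow_of_exponent_le hB (by linarith)

end Pool.Agent.K1H59.VX
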