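import Mathlib

/-!
# Exceptional points of Vojta's inequality on `ℙ^N`: the algebraic and local pieces

All polynomials are in the variables `x_0, …, x_(m+1)`.
-/

set_option autoImplicit false

namespace Pool.Agent.K1H59.VX

open MvPolynomial

/-- `F` with rational coefficients -/
noncomputable def toQ {n : ℕ} (F : MvPolynomial (Fin n) ℤ) : MvPolynomial (Fin n) ℚ :=
  map (Int.castRingHom ℚ) F

/-- the coefficients of the second fundamental form of `F = 0` with respect to the tangent vectors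
`τ_i = F_0 e_i - F_i e_0`: `F_0² F_ik - F_0 F_i F_0k - F_0 F_k F_0i + F_i F_k F_00` -/
noncomputable def Q {m : ℕ} (F : MvPolynomial (Fin (m + 2)) ℤ) (i k : Fin (m + 2)) :
    MvPolynomial (Fin (m + 2)) ℤ :=
  (pderiv 0 F) ^ 2 * pderiv i (pderiv k F) - pderiv 0 F * pderiv i F * pderiv 0 (pderiv k F)
    - pderiv 0 F * pderiv k F * pderiv 0 (pderiv i F)
    + pderiv i F * pderiv k F * pderiv 0 (pderiv 0 F)

/-- `F = 0` contains no hyperplane, over no field of characteristic zero -/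
def NoHyperplane {n : ℕ} (F : MvPolynomial (Fin n) ℤ) : Prop :=
  ∀ (K : Type) [Field K] [CharZero K] (l : Fin n → K), l ≠ 0 →
    ∃ z : Fin n → K, ∑ i, l i * z i = 0 ∧ aeval z F ≠ 0

/-- strict normal crossings at the points over `K` -/
def SNC {n q : ℕ} (F : Fin q → MvPolynomial (Fin n) ℤ) (K : Type) [Field K] : Prop :=
  ∀ z : Fin n → K, z ≠ 0 →
    LinearIndependent K (fun j : {j : Fin q // aeval z (F j) = 0} =>
      fun i => aeval z (pderiv i (F j.1)))

/-- the shear `x_i ↦ x_i + c_i x_p` -/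
noncomputable def sh {n : ℕ} (p : Fin n) (c : Fin n → ℤ) (F : MvPolynomial (Fin n) ℤ) :
    MvPolynomial (Fin n) ℤ :=
  aeval (fun i => X i + C (c i) * X p) F

/-- (T1a) a smooth hypersurface of degree at least two, in at least three variables, contains no
hyperplane -/
def S_NLF : Prop :=
  ∀ (m : ℕ) (F : MvPolynomial (Fin (m + 2)) ℤ) (d : ℕ), 1 ≤ m → 2 ≤ d → F.IsHomogeneous d →
    (∀ (K : Type) [Field K] [CharZero K] (z : Fin (m + 2) → K), z ≠ 0 → aeval z F = 0 →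
      ∃ i, aeval z (pderiv i F) ≠ 0) → NoHyperplane F

/-- (T1b) the second fundamental form does not vanish identically -/
def S_NV : Prop :=
  ∀ (m : ℕ) (F : MvPolynomial (Fin (m + 2)) ℤ) (d : ℕ), 1 ≤ d → F.IsHomogeneous d →
    Irreducible (toQ F) → pderiv 0 F ≠ 0 → NoHyperplane F →
    ∃ i k : Fin (m + 1), ¬ (toQ F ∣ toQ (Q F i.succ k.succ))

/-- (T2) elimination of the first variable -/
def S_ELIM : Prop :=
  ∀ (n h g : ℕ) (H G : MvPolynomial (Fin (n + 1)) ℤ), H.IsHomogeneous h → G.IsHomogeneous g →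
    Irreducible (toQ H) → ¬ (toQ H ∣ toQ G) →
    ∃ (D : ℕ) (R : MvPolynomial (Fin n) ℤ) (A B : MvPolynomial (Fin (n + 1)) ℤ),
      R ≠ 0 ∧ R.IsHomogeneous D ∧ rename Fin.succ R = A * H + B * G

/-- (T3a) finitely many nonzero quadratic forms with values in domains of characteristic zero have a
common integral point `u`, `u 0 = 1`, where they are not zero -/
def S_SEL : Prop :=
  ∀ (m : ℕ) (ι : Type) [Fintype ι] (A : ι → Type) [∀ a, CommRing (A a)] [∀ a, IsDomain (A a)]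
    [∀ a, CharZero (A a)] (f : ∀ a, Fin (m + 1) → Fin (m + 1) → A a),
    (∀ a i k, f a i k = f a k i) → (∀ a, ∃ i k, f a i k ≠ 0) →
    ∃ u : Fin (m + 1) → ℤ, u 0 = 1 ∧
      ∀ a, ∑ i, ∑ k, (u i : A a) * (u k : A a) * f a i k ≠ 0

/-- (T3b) properties of the shear -/
def S_SHEAR : Prop :=
  ∀ (n : ℕ) (p : Fin n) (c : Fin n → ℤ), c p = 0 →
    (∀ (F : MvPolynomial (Fin n) ℤ) (d : ℕ), F.IsHomogeneous d → (sh p c F).IsHomogeneous d) ∧
    (∀ (K : Type) [CommRing K] (z : Fin n → K) (F : MvPolynomial (Fin n) ℤ),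
      aeval z (sh p c F) = aeval (fun i => z i + (c i : K) * z p) F) ∧
    (∀ (F : MvPolynomial (Fin n) ℤ) (k : Fin n), k ≠ p →
      pderiv k (sh p c F) = sh p c (pderiv k F)) ∧
    (∀ (F : MvPolynomial (Fin n) ℤ),
      pderiv p (sh p c F) = sh p c (pderiv p F + ∑ i, C (c i) * pderiv i F)) ∧
    (∀ (F : MvPolynomial (Fin n) ℤ), Irreducible (toQ F) → Irreducible (toQ (sh p c F))) ∧
    (∀ (F G : MvPolynomial (Fin n) ℤ), toQ (sh p c F) ∣ toQ (sh p c G) → toQ F ∣ toQ G)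

/-- (T4a) compactness: lower bound of the gradients near the divisor, and at most `n - 1` components
are near a point -/
def S_NC : Prop :=
  ∀ (K : Type) [NontriviallyNormedField K] [ProperSpace K] [CharZero K] (n q : ℕ)
    (F : Fin q → MvPolynomial (Fin n) ℤ) (d : Fin q → ℕ), (∀ j, (F j).IsHomogeneous (d j)) →
    SNC F K → ∀ r : ℝ, 0 < r →
    ∃ c : ℝ, 0 < c ∧ ∀ z : Fin n → K, r ≤ ‖z‖ → ‖z‖ ≤ 1 →
      (∀ j, ‖aeval z (F j)‖ < c → ∃ i, c ≤ ‖aeval z (pderiv i (F j))‖) ∧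
      (∀ J : Finset (Fin q), (∀ j ∈ J, ‖aeval z (F j)‖ < c) → J.card ≤ n - 1)

/-- (T4b) few of the vectors `(1, τ, τ², …)` are nearly orthogonal to a given vector -/
def S_DIR : Prop :=
  ∀ (K : Type) [NormedField K] [CharZero K] (n T : ℕ) (c : ℝ), 0 < c →
    ∃ c' : ℝ, 0 < c' ∧ ∀ g : Fin n → K, (∃ i, c ≤ ‖g i‖) →
      ((Finset.range (T + 1)).filter (fun t : ℕ => ‖∑ i : Fin n, (t : K) ^ (i : ℕ) * g i‖ < c')).card
        < n

end Pool.Agent.K1H59.VX
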