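import Pool.Agent.K1H59.VX.LocC

/-!
# Exceptional points of Vojta's inequality on `ℙ^N`: the arithmetic pieces
-/

set_option autoImplicit false

namespace Pool.Agent.K1H59.VX

open MvPolynomial Finset

/-- normalised absolute value of the integer `a` at the place `v` (`none` is the real place): for the
real place `|a| / B ^ k` -/
noncomputable def nval (v : Option ℕ) (B : ℝ) (k : ℕ) (a : ℤ) : ℝ :=
  match v with
  | none => |(a : ℝ)| / B ^ k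
  | some p => (padicNorm p (a : ℚ) : ℝ)

/-- `x` is in the box of side `B` -/
def Box {n : ℕ} (B : ℝ) (x : Fin n → ℤ) : Prop := ∀ i, |(x i : ℝ)| ≤ B

/-- `x` and `y` differ only in the coordinates `0` and `1` -/
def Agree {m : ℕ} (x y : Fin (m + 2) → ℤ) : Prop := ∀ i : Fin m, x i.succ.succ = y i.succ.succ

/-- the determinant of three points of a plane section -/
def det3 {m : ℕ} (x y z : Fin (m + 2) → ℤ) : ℤ :=
  (y 0 - x 0) * (z 1 - x 1) - (y 1 - x 1) * (z 0 - x 0)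

/-- `x` and `y` are within `r` at `v` (coordinates `0` and `1`) -/
def Near {m : ℕ} (v : Option ℕ) (B r : ℝ) (x y : Fin (m + 2) → ℤ) : Prop :=
  nval v B 1 (y 0 - x 0) ≤ r ∧ nval v B 1 (y 1 - x 1) ≤ r

/-- `x` is within `ε` of the hypersurface `F = 0` of degree `d` at `v`, and its partial derivative
with respect to `x_0` is at least `c` -/
def Close {m : ℕ} (v : Option ℕ) (B : ℝ) (F : MvPolynomial (Fin (m + 2)) ℤ) (d : ℕ) (c ε : ℝ)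
    (x : Fin (m + 2) → ℤ) : Prop :=
  nval v B d (eval x F) ≤ ε ∧ c ≤ nval v B (d - 1) (eval x (pderiv 0 F))

/-- (U1) points on a line, in at most two clusters at the places of `V` -/
def S_GCL : Prop :=
  ∀ (S : Finset ℕ), (∀ p ∈ S, p.Prime) → ∀ V : Finset (Option ℕ), V ⊆ insertNone S → ∀ A : ℕ,
  ∃ C : ℝ, 1 ≤ C ∧ ∀ (B : ℝ), 1 ≤ B → ∀ (r : Option ℕ → ℝ) (X : Finset (ℤ × ℤ)),
    (∀ v, 0 ≤ r v) → (∀ P ∈ X, |(P.1 : ℝ)| ≤ B ∧ |(P.2 : ℝ)| ≤ B) →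
    (∀ P ∈ X, ∀ P' ∈ X, ∀ P'' ∈ X,
      (P'.1 - P.1) * (P''.2 - P.2) - (P'.2 - P.2) * (P''.1 - P.1) = 0) →
    (∀ v ∈ V, ∀ P ∈ X, ∀ P' ∈ X, ∀ P'' ∈ X,
      (nval v B 1 (P'.1 - P.1) ≤ r v ∧ nval v B 1 (P'.2 - P.2) ≤ r v) ∨
      (nval v B 1 (P''.1 - P.1) ≤ r v ∧ nval v B 1 (P''.2 - P.2) ≤ r v) ∨
      (nval v B 1 (P''.1 - P'.1) ≤ r v ∧ nval v B 1 (P''.2 - P'.2) ≤ r v)) →
    (X.card : ℝ) ≤ C * (1 + B * ∏ v ∈ V, r v) ∧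
    (∀ (v0 v1 : Option ℕ) (a0 a1 b0 b1 : ℤ) (ε : ℝ), v0 ∈ insertNone S → v1 ∈ insertNone S →
      v0 ∉ V → v1 ∉ V → |a0| ≤ A → |a1| ≤ A → |b0| ≤ A → |b1| ≤ A → a0 * b1 - a1 * b0 ≠ 0 →
      (∀ P ∈ X, ∀ P' ∈ X, nval v0 B 1 (a0 * (P'.1 - P.1) + a1 * (P'.2 - P.2)) ≤ ε) →
      (∀ P ∈ X, ∀ P' ∈ X, nval v1 B 1 (b0 * (P'.1 - P.1) + b1 * (P'.2 - P.2)) ≤ ε) →
      (X.card : ℝ) ≤ C * (1 + B * (∏ v ∈ V, r v) * ε))

/-- (U2) the local lemmas for integral points -/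
def S_LOC : Prop :=
  ∀ (m : ℕ) (F : MvPolynomial (Fin (m + 2)) ℤ) (d : ℕ) (v : Option ℕ), F.IsHomogeneous d →
  (∀ p, v = some p → p.Prime) → ∀ c3 : ℝ, 0 < c3 →
  ∃ C c4 : ℝ, 1 ≤ C ∧ 0 < c4 ∧ c4 ≤ 1 ∧ ∀ B : ℝ, 1 ≤ B →
    (∀ (x y : Fin (m + 2) → ℤ) (ε : ℝ), Box B x → Box B y → Agree x y →
      Close v B F d c3 ε x → Close v B F d c3 ε y → Near v B c4 x y →
      nval v B 1 (y 0 - x 0) ≤ C * (nval v B 1 (y 1 - x 1) + ε)) ∧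
    (∀ (x y z : Fin (m + 2) → ℤ) (ε ρ : ℝ), Box B x → Box B y → Box B z → Agree x y → Agree x z →
      Close v B F d c3 ε x → Close v B F d c3 ε y → Close v B F d c3 ε z → ρ ≤ 1 →
      Near v B ρ x y → Near v B ρ x z →
      nval v B 2 (det3 x y z) ≤ C * (ε + ρ ^ 2) * ρ) ∧
    (∀ (x y z : Fin (m + 2) → ℤ) (ε ρ γ r : ℝ), Box B x → Box B y → Box B z → Agree x y →
      Agree x z → Close v B F d c3 ε x → Close v B F d c3 ε y → Close v B F d c3 ε z → ρ ≤ 1 →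
      Near v B ρ x y → Near v B ρ x z → det3 x y z = 0 → 0 < γ → γ ≤ 1 →
      γ ≤ nval v B (2 * (d - 1) + (d - 2)) (eval x (Q F 1 1)) → C * ρ ≤ γ → 0 < r →
      C * ε ≤ γ * r ^ 2 → Near v B r x y ∨ Near v B r x z ∨ Near v B r y z)

/-- (U3) few points have their projection near a hypersurface -/
def S_TB : Prop :=
  ∀ (m : ℕ) (S : Finset ℕ), (∀ p ∈ S, p.Prime) → ∀ V : Finset (Option ℕ), V ⊆ insertNone S →
  ∀ (F : Option ℕ → MvPolynomial (Fin (m + 2)) ℤ) (d : Option ℕ → ℕ) (α : Option ℕ → ℝ),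
    (∀ v ∈ V, (F v).IsHomogeneous (d v)) → (∀ v ∈ V, 0 < α v) → 1 < ∑ v ∈ V, α v →
  ∀ (R : MvPolynomial (Fin (m + 1)) ℤ) (D : ℕ) (v1 : Option ℕ), R ≠ 0 → R.IsHomogeneous D →
    v1 ∈ insertNone S → ∀ A c ζ : ℝ, 0 < A → 0 < c → 0 < ζ →
  ∃ θ C : ℝ, 0 < θ ∧ 0 < C ∧ ∀ B : ℝ, 1 ≤ B → ∀ X : Finset (Fin (m + 2) → ℤ),
    (∀ x ∈ X, Box B x ∧ (∀ v ∈ V, Close v B (F v) (d v) c (A * B ^ (-(α v))) x) ∧
      nval v1 B D (eval (fun i : Fin (m + 1) => x i.succ) R) ≤ A * B ^ (-ζ)) →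
    (X.card : ℝ) ≤ C * B ^ ((m : ℝ) + 1 - θ)

end Pool.Agent.K1H59.VX
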